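import Pool.Agent.Run7.h621.MP.LogFinal

/-!
The case of one projective space.
-/

set_option autoImplicit false
set_option linter.unusedSectionVars false

open MvPolynomial FF Pool.Agent.W603.LV Pool.Agent.W603.PV Pool.Agent.TH145.GH
open Pool.Agent.W602.GT Pool.Agent.TH145.GF Pool.Agent.TH145.MG
open Pool.Agent.Run7.h621.NG (Bt cj)

namespace Pool.Agent.Run7.h621.MP

section one

variable {n : ℕ}

/-- The coordinates of a point of one projective space. -/
abbrev V1 (n : ℕ) : Type := Vr (fun _ : Unit => n)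

/-- The change of the variables. -/
def em (n : ℕ) (j : Fin (n + 1)) : V1 n := ⟨(), j⟩

theorem multi_one {R : Type} [CommRing R] {F : MvPolynomial (Fin (n + 1)) R} {d : ℕ}
    (hF : F.IsHomogeneous d) : IsMulti (rename (em n) F) fun _ : Unit => d := by
  classical
  intro i u hu
  have hinj : Function.Injective (em n) := fun a b h => by
    simpa [em] using h
  obtain ⟨v, rfl, hv⟩ := coeff_rename_ne_zero (em n) F u hu
  rw [weight_eq]
  have h1 : v.degree = d := by
    rw [Finsupp.degree_eq_weight_one]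
    exact hF hv
  rw [Finsupp.degree_eq_sum] at h1
  change _ = d
  rw [← h1]
  refine Finset.sum_congr rfl fun j _ => ?_
  exact Finsupp.mapDomain_apply hinj v j

theorem aeval_one {k R : Type} [Field k] [Field R] [Algebra k R] (F : MvPolynomial (Fin (n + 1)) k)
    (x : V1 n → R) : aeval x (rename (em n) F) = aeval (fun j => x (em n j)) F := by
  rw [aeval_rename]
  rfl

theorem coords_one {k R : Type} [Field k] [Field R] [Algebra k R] (x : V1 n → R) :
    mcoords k x = coords k fun j => x (em n j) := by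
  unfold mcoords coords
  congr 1
  ext z
  constructor
  · rintro ⟨i, j, l, h, rfl⟩
    exact ⟨j, l, h, rfl⟩
  · rintro ⟨j, l, h, rfl⟩
    exact ⟨(), j, l, h, rfl⟩

theorem dim_one {k : Type} [Field k] {V : Set (MvPolynomial (Fin (n + 1)) k)} {m : ℕ}
    (hV : DimLE k V m) : MDimLE k (n := fun _ : Unit => n) (rename (em n) '' V) m ∧
      ∀ i : Unit, PrDimLE k (n := fun _ : Unit => n) (rename (em n) '' V) i m := by
  have h1 : ∀ (Ω : Type) [Field Ω] [Algebra k Ω] (x : V1 n → Ω), (∀ i, ∃ j, x ⟨i, j⟩ ≠ 0) →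
      (∀ f ∈ rename (em n) '' V, aeval x f = 0) →
      Algebra.trdeg k (coords k fun j => x (em n j)) ≤ m := by
    intro Ω _ _ x hx hxV
    obtain ⟨j, hj⟩ := hx ()
    refine hV Ω _ (fun h => hj (congrFun h j)) fun f hf => ?_
    rw [← aeval_one]
    exact hxV _ ⟨f, hf, rfl⟩
  refine ⟨fun Ω _ _ x hx hxV => ?_, fun i Ω _ _ x hx hxV => ?_⟩
  · rw [coords_one]
    exact h1 Ω x hx hxV
  · exact h1 Ω x hx hxV

end one

variable {k0 A : Type} [Field k0] {n : ℕ} {J : A → Type} [∀ a, Fintype (J a)]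
  {P : ∀ a, J a → MvPolynomial (Fin (n + 1)) k0} {j0 : ∀ a, J a}

/-- Subvarieties of nearly generic logarithmic pairs are of log general type. -/
theorem log_one {K L : Type} [Field K] [Field L] [Algebra k0 K] [Algebra K L]
    [IsAlgClosed K] [CharZero K] [Fintype A] [DecidableEq A]
    {dg : A → ℕ} (hP : ∀ a j, (P a j).IsHomogeneous (dg a)) (C : Finset A)
    {V : Set (MvPolynomial (Fin (n + 1)) k0)} (hVh : ∀ f ∈ V, ∃ e, f.IsHomogeneous e)
    {m s w : ℕ} (hV : DimLE k0 V m) {c0 : Fin (n + 1)}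
    (hSt : ∀ a (i : Fin (n + 1)) (e : ℕ), e ≤ dg a → ∃ j, P a j = X c0 ^ (dg a - e) * X i ^ e)
    (hw : 0 < w) (t : ∀ a, J a → K) (h0 : ∀ a, t a (j0 a) ≠ 0)
    {B : Set (Bt j0)} (hB : Nat.card {b : Bt j0 // b ∉ B} ≤ s)
    (hind : AlgebraicIndependent k0 fun p : B => t p.1.1 p.1.2.1 / t p.1.1 (j0 p.1.1))
    {F : A → MvPolynomial (Fin (n + 1)) K}
    (hF : ∀ a, F a = ∑ j, MvPolynomial.C (t a j) * map (algebraMap k0 K) (P a j))
    (htr : Algebra.trdeg K L = w)
    {x : Fin (n + 1) → L} (hx : x c0 ≠ 0)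
    (hnum : 2 * m + s + 2 ≤ ∑ a, dg a + C.card + w)
    (hgen : Algebra.IsAlgebraic (coords K x) L)
    (hxV : ∀ f ∈ V, aeval x (map (algebraMap k0 K) f) = 0)
    (hC : ∀ a ∈ C, aeval x (F a) = 0) (hBd : ∀ a, a ∉ C → aeval x (F a) ≠ 0) :
    LogGeneralType K L w fun Q : Place K L => ∃ b, b ∉ C ∧
      dg b * pord Q x < Q.ord (aeval x (F b)) := by
  obtain ⟨h1, h2⟩ := dim_one hV
  have h3 := log_sub (n := fun _ : Unit => n) (P := fun a j => rename (em n) (P a j)) (j0 := j0)
    (dg := fun a _ => dg a) (fun a j => multi_one (hP a j)) C (V := rename (em n) '' V)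
    (by
      rintro _ ⟨f, hf, rfl⟩
      obtain ⟨e, he⟩ := hVh f hf
      exact ⟨_, multi_one he⟩) (m := m) (s := s) (w := w) (mi := fun _ => m) h1 h2
    (c0 := fun _ => c0) (fun a j e he => by
      obtain ⟨j', hj'⟩ := hSt a (j ()) (e ()) (he ())
      refine ⟨j', ?_⟩
      rw [hj', map_mul, map_pow, map_pow, rename_X, rename_X, X_pow_eq_monomial,
        X_pow_eq_monomial, monomial_mul, one_mul, sM, Fintype.sum_unique]
      rfl) hw t h0 hB hind (F := fun a => rename (em n) (F a)) (fun a => by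
      rw [hF, map_sum]
      refine Finset.sum_congr rfl fun j _ => ?_
      rw [map_mul, rename_C, map_rename]) htr (x := fun p => x p.2) (fun _ => hx)
    (fun _ => Or.inr (by omega)) (by
      rw [coords_one]
      exact hgen) (by
      rintro _ ⟨f, hf, rfl⟩
      rw [map_rename, aeval_one]
      exact hxV f hf) (fun a ha => by
      rw [aeval_one]
      exact hC a ha) (fun a ha => by
      rw [aeval_one]
      exact hBd a ha)
  have h4 : (fun Q : Place K L => ∃ b, b ∉ C ∧
      ∑ i : Unit, ((dg b : ℕ) : ℤ) * pord Q (fun j => (fun p : V1 n => x p.2) ⟨i, j⟩) <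
        Q.ord (aeval (fun p : V1 n => x p.2) (rename (em n) (F b)))) =
      fun Q : Place K L => ∃ b, b ∉ C ∧ dg b * pord Q x < Q.ord (aeval x (F b)) := by
    funext Q
    refine propext (exists_congr fun b => and_congr_right fun hb => ?_)
    rw [aeval_one, Fintype.sum_unique]
    rfl
  rw [← h4]
  exact h3

end Pool.Agent.Run7.h621.MP
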