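import Pool.Agent.Run7.h621.MP.Form

/-!
The rows for forms some of which vanish at the point, and the other ones give logarithmic columns.
-/

set_option autoImplicit false
set_option linter.unusedSectionVars false

open MvPolynomial FF Pool.Agent.W603.LV Pool.Agent.W603.PV Pool.Agent.TH145.MG Pool.Agent.W602.GT
open Pool.Agent.Run7.h621.FV (cd coeff_cd chain)
open Pool.Agent.Run7.h621.NG (dt)

namespace Pool.Agent.Run7.h621.MP

variable {ι : Type} [Fintype ι] [DecidableEq ι] {n : ι → ℕ} {L : Type} [Field L] {A S X τ υ : Type}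
  [DecidableEq A]

/-- The extended derivations are dual to the coefficients. -/
def Dual [Fintype S] (c : ∀ i, Fin (n i + 1)) (F : A → MvPolynomial (Vr n) L) (dg : A → ι → ℕ)
    (D : A → (Vr n →₀ ℕ) → Derivation ℤ L L) (θ : A → (Vr n →₀ ℕ) → S → L)
    (ε : A → (Vr n →₀ ℕ) → L) (Q : S → A → MvPolynomial (Vr n) L) : Prop :=
  ∀ a b j e, (∀ i, e i ≤ dg a i) → cd (D a (sM c (dg a) j e)) (F b) =
    (if a = b then monomial (sM c (dg a) j e) 1 - ε a (sM c (dg a) j e) • F b else 0) +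
      ∑ r, θ a (sM c (dg a) j e) r • Q r b

section defs

variable (C : Finset A) (F : A → MvPolynomial (Vr n) L) (x : Vr n → L)

/-- The additional components of the Euler vectors. -/
noncomputable def kE (S : Type) (L : Type) [Field L] (dg : A → ι → ℕ) :
    ι → S ⊕ {b : A // b ∉ C} → L :=
  fun i => Sum.elim (fun _ => 0) fun b => (dg b.1 i : L)

/-- The additional components of the rows. -/
noncomputable def tE (D : A → (Vr n →₀ ℕ) → Derivation ℤ L L) (θ : A → (Vr n →₀ ℕ) → S → L)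
    (ε : A → (Vr n →₀ ℕ) → L) : A → (Vr n →₀ ℕ) → S ⊕ {b : A // b ∉ C} → L :=
  fun a I => Sum.elim (θ a I) fun b =>
    D a I (eval x (F b.1)) / eval x (F b.1) + if a = b.1 then ε a I else 0

/-- The additional components of the rows of the vertical derivations. -/
noncomputable def eE (S : Type) (E : X → Derivation ℤ L L) : X → S ⊕ {b : A // b ∉ C} → L :=
  fun ξ => Sum.elim (fun _ => 0) fun b => E ξ (eval x (F b.1)) / eval x (F b.1)

/-- The coefficients of the functionals. -/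
noncomputable def qE (Q : S → A → MvPolynomial (Vr n) L) : S ⊕ {b : A // b ∉ C} → A → L :=
  Sum.elim (fun s b' => eval x (Q s b')) fun b b' => if b.1 = b' then - eval x (F b.1) else 0

end defs

variable {C : Finset A} {F : A → MvPolynomial (Vr n) L} {x : Vr n → L} {dg : A → ι → ℕ}
  {D : A → (Vr n →₀ ℕ) → Derivation ℤ L L} {θ : A → (Vr n →₀ ℕ) → S → L}
  {ε : A → (Vr n →₀ ℕ) → L} {Q : S → A → MvPolynomial (Vr n) L} {E : X → Derivation ℤ L L}
  {c : ∀ i, Fin (n i + 1)}

theorem sum_qE [Fintype S] [Fintype A] (t : S ⊕ {b : A // b ∉ C} → L) (b : A) :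
    ∑ r, t r * qE C F x Q r b = ∑ s, t (Sum.inl s) * eval x (Q s b) -
      if h : b ∈ C then 0 else t (Sum.inr ⟨b, h⟩) * eval x (F b) := by
  rw [Fintype.sum_sum_type, sub_eq_add_neg]
  congr 1
  split_ifs with h
  · rw [neg_zero]
    refine Finset.sum_eq_zero fun b' _ => ?_
    change t (Sum.inr b') * (if b'.1 = b then - eval x (F b'.1) else 0) = 0
    rw [if_neg, mul_zero]
    rintro rfl
    exact b'.2 h
  · rw [Finset.sum_eq_single ⟨b, h⟩]
    · change t (Sum.inr ⟨b, h⟩) * (if b = b then - eval x (F b) else 0) = _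
      rw [if_pos rfl, mul_neg]
    · intro b' _ hb'
      change t (Sum.inr b') * (if b'.1 = b then - eval x (F b'.1) else 0) = 0
      rw [if_neg, mul_zero]
      intro h'
      exact hb' (Subtype.ext h')
    · intro h'; exact absurd (Finset.mem_univ _) h'

theorem Ph_u [Fintype S] [Fintype A] (hF : ∀ a, IsMulti (F a) (dg a))
    (hC : ∀ a ∈ C, eval x (F a) = 0) (i : ι) :
    Ph F (qE C F x Q) x (Eu (kE C S L dg) x i) = 0 := by
  funext b
  rw [Ph_Eu hF, sum_qE]
  have h1 : ∑ s, kE C S L dg i (Sum.inl s) * eval x (Q s b) = 0 :=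
    Finset.sum_eq_zero fun s _ => zero_mul _
  rw [h1, zero_sub, Pi.zero_apply]
  split_ifs with h
  · rw [hC b h, mul_zero, neg_zero, add_zero]
  · change _ + -((dg b i : L) * eval x (F b)) = 0
    rw [add_neg_cancel]

theorem Ph_E [Fintype S] [Fintype A] (hC : ∀ a ∈ C, eval x (F a) = 0)
    (hB : ∀ a, a ∉ C → eval x (F a) ≠ 0) (hE : ∀ ξ b, cd (E ξ) (F b) = 0) (ξ : X) :
    Ph F (qE C F x Q) x (Rd (E ξ) (eE C F x S E ξ) x) = 0 := by
  funext b
  rw [Ph_Rd, sum_qE, hE, map_zero, sub_zero]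
  have h1 : ∑ s, eE C F x S E ξ (Sum.inl s) * eval x (Q s b) = 0 :=
    Finset.sum_eq_zero fun s _ => zero_mul _
  rw [h1, zero_sub, Pi.zero_apply]
  split_ifs with h
  · rw [hC b h, map_zero, neg_zero, add_zero]
  · change _ + -((E ξ (eval x (F b)) / eval x (F b)) * eval x (F b)) = 0
    rw [div_mul_cancel₀ _ (hB b h), add_neg_cancel]

theorem Ph_R [Fintype S] [Fintype A] (hD : Dual c F dg D θ ε Q)
    (hC : ∀ a ∈ C, eval x (F a) = 0) (hB : ∀ a, a ∉ C → eval x (F a) ≠ 0)
    (a : A) (j : ∀ i, Fin (n i + 1)) (e : ι → ℕ) (he : ∀ i, e i ≤ dg a i) (b : A) :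
    Ph F (qE C F x Q) x (R D (tE C F x D θ ε) x a (sM c (dg a) j e)) b =
      if a = b then - mon x (sM c (dg a) j e) else 0 := by
  obtain ⟨I, hI⟩ : ∃ I, I = sM c (dg a) j e := ⟨_, rfl⟩
  have h0 := hD a b j e he
  rw [← hI] at h0 ⊢
  rw [R, Ph_Rd, sum_qE, h0, map_add, map_sum]
  have h1 : ∑ s, tE C F x D θ ε a I (Sum.inl s) * eval x (Q s b) =
      ∑ r, eval x (θ a I r • Q r b) := Finset.sum_congr rfl fun r _ => by
    rw [smul_eval]
    rfl
  rw [h1]
  have h2 : eval x (if a = b then monomial I 1 - ε a I • F b else 0) =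
      if a = b then mon x I - ε a I * eval x (F b) else 0 := by
    split_ifs
    · rw [map_sub, smul_eval, eval_monomial', one_mul]
    · rw [map_zero]
  rw [h2]
  by_cases h : b ∈ C
  · rw [dif_pos h, hC b h, map_zero, mul_zero, sub_zero]
    split_ifs
    · ring
    · ring
  · rw [dif_neg h]
    have h3 : tE C F x D θ ε a I (Sum.inr ⟨b, h⟩) * eval x (F b) =
        D a I (eval x (F b)) + (if a = b then ε a I else 0) * eval x (F b) := by
      change (D a I (eval x (F b)) / eval x (F b) + if a = b then ε a I else 0) * eval x (F b) = _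
      rw [add_mul, div_mul_cancel₀ _ (hB b h)]
    rw [h3]
    split_ifs
    · ring
    · ring

/-- The choice of the rows. -/
theorem pickF [Fintype A] [Fintype S] [DecidableEq S] [Fintype X]
    {k0 : Type} [Field k0] [Algebra k0 L] [CharZero L]
    (hF : ∀ a, IsMulti (F a) (dg a)) (hD : Dual c F dg D θ ε Q)
    (hDk : ∀ a I (r : k0), D a I (algebraMap k0 L r) = 0)
    (hEk : ∀ ξ (r : k0), E ξ (algebraMap k0 L r) = 0) (hE : ∀ ξ b, cd (E ξ) (F b) = 0)
    (hc : ∀ i, x ⟨i, c i⟩ = 1) (hC : ∀ a ∈ C, eval x (F a) = 0)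
    (hB : ∀ a, a ∉ C → eval x (F a) ≠ 0)
    (hX : LinearIndependent L (fun (ξ : X) (p : Vr n) => E ξ (x p))) {m : ℕ} {mi : ι → ℕ}
    (htr : Algebra.trdeg k0 (mcoords k0 x) ≤ m)
    (htri : ∀ i, Algebra.trdeg k0 (coords k0 fun j => x ⟨i, j⟩) ≤ mi i) :
    ∃ (τ : Type) (_ : Fintype τ) (υ : Type) (_ : Fintype υ) (t : τ → Ti A n)
      (u : υ → Vr n ⊕ (S ⊕ {b : A // b ∉ C}))
      (_ : Vr n ⊕ (S ⊕ {b : A // b ∉ C}) ≃ (ι ⊕ (X ⊕ τ)) ⊕ (A ⊕ υ)),
      Spans c dg D (tE C F x D θ ε) (kE C S L dg) E (eE C F x S E) t x ∧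
      LinearIndependent L (row c dg D (tE C F x D θ ε) (kE C S L dg) E (eE C F x S E) t
        (fun a => cor c (dg a)) (fun y => Pi.single (u y) 1) x) ∧
      Fintype.card X + Fintype.card τ + C.card ≤ m + Fintype.card S ∧
      ∀ h : ι → ℤ, (∀ i, 0 ≤ h i) →
        ∑ p : Vr n, h p.1 ≤ ∑ y, wt h (u y) + ∑ i, ((mi i : ℤ) + 1) * h i := by
  obtain ⟨τ, i1, υ, i2, t, u, e, h1, h2, h3, h4⟩ := pick (D := D) (θ := tE C F x D θ ε)
    (κ := kE C S L dg) (E := E) (η := eE C F x S E) (dg := dg) hc (Ph F (qE C F x Q) x)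
    (Ph_u hF hC) (Ph_E hC hB hE) (Ph_R hD hC hB) hX (N := MTan k0 x) (m := m) (mi := mi)
    (mtan_rank hc (trdeg_chart hc htr)) (fun i => mtan_block hc (htri i))
    (fun i => ⟨fun i' => if i' = i then 1 else 0, 0, fun _ => rfl, fun p => by
      rw [Derivation.zero_apply, add_zero]
      change (if p.1 = i then x p else 0) = (if p.1 = i then 1 else 0) * x p
      split_ifs
      · rw [one_mul]
      · rw [zero_mul]⟩)
    (fun a I => ⟨0, D a I, hDk a I, fun p => by rw [Pi.zero_apply, zero_mul, zero_add]⟩)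
    (fun ξ => ⟨0, E ξ, hEk ξ, fun p => by rw [Pi.zero_apply, zero_mul, zero_add]⟩)
  refine ⟨τ, i1, υ, i2, t, u, e, h1, h2, ?_, h4⟩
  rw [Fintype.card_sum, Fintype.card_subtype_compl, Fintype.card_coe] at h3
  have h5 : C.card ≤ Fintype.card A := Finset.card_le_univ C
  omega

/-- The numbers in the inequalities. -/
def num (C : Finset A) [Fintype A] (dg : A → ι → ℕ) (mi : ι → ℕ) (w m s : ℕ) (i : ι) : ℤ :=
  (∑ a, (dg a i : ℤ)) + C.card + w - m - mi i - s - 1

variable {k : Type} [Field k] [Algebra k L]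

/-- The order of the determinant of the rows at a place. -/
theorem ordF [Fintype A] [Fintype S] [DecidableEq S] [Fintype X] [Fintype τ] [Fintype υ]
    (P : Place k L) (hF : ∀ a, IsMulti (F a) (dg a)) {t : τ → Ti A n}
    (e : Vr n ⊕ (S ⊕ {b : A // b ∉ C}) ≃ (ι ⊕ (X ⊕ τ)) ⊕ (A ⊕ υ))
    (hc : ∀ i, x ⟨i, c i⟩ = 1) (hB : ∀ a, a ∉ C → eval x (F a) ≠ 0)
    (hsp : Spans c dg D (tE C F x D θ ε) (kE C S L dg) E (eE C F x S E) t x)
    (u : υ → Vr n ⊕ (S ⊕ {b : A // b ∉ C})) {e' : ℤ} (he' : 0 ≤ e')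
    (hD : ∀ f, Ge P 0 f → ∀ a j e, (∀ i, e i ≤ dg a i) → Ge P (-e') (D a (sM c (dg a) j e) f))
    (hθ : ∀ a j e, (∀ i, e i ≤ dg a i) → ∀ s, Ge P (-e') (θ a (sM c (dg a) j e) s))
    (hε : ∀ a I, Ge P 0 (ε a I)) (hE : ∀ f, Ge P 0 f → ∀ ξ, Ge P 0 (E ξ f))
    (hDl : ∀ lam x', Norm P x lam x' → ∀ b, b ∉ C → ∀ a j e, (∀ i, e i ≤ dg a i) →
      Ge P (-e') (D a (sM c (dg a) j e) (eval x' (F b)) / eval x' (F b)))
    (hEl : ∀ lam x', Norm P x lam x' → ∀ b, b ∉ C → ∀ ξ,
      Ge P 0 (E ξ (eval x' (F b)) / eval x' (F b)))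
    {m s : ℕ} {mi : ι → ℕ}
    (hcard : Fintype.card X + Fintype.card τ + C.card ≤ m + Fintype.card S)
    (hS : Fintype.card S ≤ s)
    (hu : ∀ h : ι → ℤ, (∀ i, 0 ≤ h i) →
        ∑ p : Vr n, h p.1 ≤ ∑ y, wt h (u y) + ∑ i, ((mi i : ℤ) + 1) * h i)
    (hne : dt e (row c dg D (tE C F x D θ ε) (kE C S L dg) E (eE C F x S E) t
      (fun a => cor c (dg a)) (fun y => Pi.single (u y) 1) x) ≠ 0) :
    ∑ i, num C dg mi (Fintype.card X) m s i * ph P x i -
      ((Fintype.card τ : ℤ) + Fintype.card A) * e' ≤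
    P.ord (dt e (row c dg D (tE C F x D θ ε) (kE C S L dg) E (eE C F x S E) t
      (fun a => cor c (dg a)) (fun y => Pi.single (u y) 1) x)) := by
  classical
  have hlog : ∀ lam x', Norm P x lam x' → ∀ b, b ∉ C → ∀ (δ : Derivation ℤ L L),
      δ (eval x (F b)) / eval x (F b) = ∑ i, (dg b i : L) * (δ (lam i) / lam i) +
        δ (eval x' (F b)) / eval x' (F b) := by
    intro lam x' hN b hb δ
    have h1 : eval x (F b) = (∏ i, lam i ^ dg b i) * eval x' (F b) := by
      rw [hN.eq]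
      exact eval_sc (hF b) lam x'
    have h2 : eval x' (F b) ≠ 0 := by
      intro h
      apply hB b hb
      rw [h1, h, mul_zero]
    rw [h1]
    exact logder δ Finset.univ lam (dg b) (fun i _ => hN.ne i) h2
  have h1 := ord_dt (D := D) (θ := tE C F x D θ ε) (κ := kE C S L dg) (E := E)
    (η := eE C F x S E) P e hc hsp u hD (fun lam x' hN a j e he s => by
      rcases s with s | b
      · change Ge P (-e') (θ a _ s - ∑ i, (0 : L) * _)
        rw [Finset.sum_eq_zero fun i _ => zero_mul _, sub_zero]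
        exact hθ a j e he s
      · change Ge P (-e') ((D a _ (eval x (F b.1)) / eval x (F b.1) +
          if a = b.1 then ε a _ else 0) - ∑ i, (dg b.1 i : L) * (D a _ (lam i) / lam i))
        have h2 : (D a (sM c (dg a) j e) (eval x (F b.1)) / eval x (F b.1) +
            (if a = b.1 then ε a (sM c (dg a) j e) else 0)) -
            ∑ i, (dg b.1 i : L) * (D a (sM c (dg a) j e) (lam i) / lam i) =
            D a (sM c (dg a) j e) (eval x' (F b.1)) / eval x' (F b.1) +
            (if a = b.1 then ε a (sM c (dg a) j e) else 0) := by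
          rw [hlog lam x' hN b.1 b.2]
          ring
        rw [h2]
        refine (hDl lam x' hN b.1 b.2 a j e he).add ?_
        split_ifs
        · exact (hε _ _).mono (by omega)
        · exact Ge.zero) hE (fun lam x' hN ξ s => by
      rcases s with s | b
      · change Ge P 0 ((0 : L) - ∑ i, (0 : L) * _)
        rw [Finset.sum_eq_zero fun i _ => zero_mul _, sub_zero]
        exact Ge.zero
      · change Ge P 0 (E ξ (eval x (F b.1)) / eval x (F b.1) -
          ∑ i, (dg b.1 i : L) * (E ξ (lam i) / lam i))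
        rw [hlog lam x' hN b.1 b.2, add_sub_cancel_left]
        exact hEl lam x' hN b.1 b.2 ξ) (fun i s => by
      rcases s with s | b
      · exact Ge.zero
      · exact Ge.natCast _) hne
  have h0 : ∀ i, 0 ≤ ph P x i := ph_nonneg P hc
  have h2 := hu (ph P x) h0
  have h3 : ∑ y, ph P x (t y).2.2.2 ≤ ∑ i, (Fintype.card τ : ℤ) * ph P x i := by
    have h4 : ∀ y, ph P x (t y).2.2.2 ≤ ∑ i, ph P x i := fun y =>
      Finset.single_le_sum (f := ph P x) (fun i _ => h0 i) (Finset.mem_univ _)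
    have h5 := Finset.sum_le_sum (s := Finset.univ) fun y _ => h4 y
    rw [Finset.sum_const, Finset.card_univ, nsmul_eq_mul, Finset.mul_sum] at h5
    exact h5
  have h4 : ∑ i, num C dg mi (Fintype.card X) m s i * ph P x i ≤
      ∑ i, ((∑ a, (dg a i : ℤ)) * ph P x i - (((mi i : ℤ) + 1) * ph P x i) -
        (Fintype.card τ : ℤ) * ph P x i) := by
    refine Finset.sum_le_sum fun i _ => ?_
    have h5 : num C dg mi (Fintype.card X) m s i ≤ (∑ a, (dg a i : ℤ)) - ((mi i : ℤ) + 1) -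
        Fintype.card τ := by
      unfold num
      zify at hcard hS
      linarith
    have h6 := mul_le_mul_of_nonneg_right h5 (h0 i)
    linarith
  rw [Finset.sum_sub_distrib, Finset.sum_sub_distrib] at h4
  linarith

end Pool.Agent.Run7.h621.MP
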