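import Pool.Agent.Run7.h621.MP.LogFinal
import Pool.Agent.Run7.h621.NG.Arith

/-!
The height inequality over function fields, and the finiteness of the rational points.
-/

set_option autoImplicit false
set_option linter.unusedSectionVars false

open MvPolynomial FF Pool.Agent.W603.LV Pool.Agent.W603.PV Pool.Agent.TH145.GH
open Pool.Agent.W602.GT Pool.Agent.TH145.MG
open Pool.Agent.Run7.h621.NG (Bt cj Dr Dr_apply θr dt dt_ne_zero HtIneq principle)
open Pool.Agent.Run7.h621.FV (cd)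

namespace Pool.Agent.Run7.h621.MP

/-- The height inequality. -/
theorem hgt_ineq {k0 κ Λ A S ι : Type} [Field k0] [Field κ] [Field Λ] [Algebra κ Λ] [Algebra k0 Λ]
    [IsAlgClosed κ] [CharZero κ] [IsFF κ Λ] [Fintype A] [DecidableEq A] [Fintype S] [DecidableEq S]
    [Fintype ι] [DecidableEq ι] {n : ι → ℕ}
    {c : ∀ i, Fin (n i + 1)} {F : A → MvPolynomial (Vr n) Λ} {dg : A → ι → ℕ}
    {D : A → (Vr n →₀ ℕ) → Derivation ℤ Λ Λ}
    {θ : A → (Vr n →₀ ℕ) → S → Λ} {ε : A → (Vr n →₀ ℕ) → Λ}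
    {Q : S → A → MvPolynomial (Vr n) Λ} (hFh : ∀ a, IsMulti (F a) (dg a))
    (hD : Dual c F dg D θ ε Q)
    (hDk : ∀ a I (r : k0), D a I (algebraMap k0 Λ r) = 0) {e : Place κ Λ → ℤ} (he : ∀ P, 0 ≤ e P)
    (hef : {P | e P ≠ 0}.Finite)
    (hloss : ∀ P f, Ge P 0 f → ∀ a j e', (∀ i, e' i ≤ dg a i) →
      Ge P (-e P) (D a (sM c (dg a) j e') f))
    (hθ : ∀ P a j e', (∀ i, e' i ≤ dg a i) → ∀ r, Ge P (-e P) (θ a (sM c (dg a) j e') r))
    (hε : ∀ (P : Place κ Λ) a I, Ge P 0 (ε a I))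
    {x : Vr n → Λ} (hx : ∀ i, x ⟨i, c i⟩ = 1) (hF : ∀ a, eval x (F a) = 0)
    {m : ℕ} {mi : ι → ℕ} (htr : Algebra.trdeg k0 (mcoords k0 x) ≤ m)
    (htri : ∀ i, Algebra.trdeg k0 (coords k0 fun j => x ⟨i, j⟩) ≤ mi i)
    (hnum : ∀ i, m + mi i + Fintype.card S + 2 ≤ ∑ a, (dg a i + 1)) (p : Vr n) :
    hgt κ (x p) ≤ (m + Fintype.card S : ℕ) * ∑ᶠ P, e P := by
  classical
  have hc : CharZero Λ := charZero_of_injective_algebraMap (algebraMap κ Λ).injective
  obtain ⟨τ, i1, υ, i2, t, u, b, hsp, hli, hcard, hu⟩ := pickF (k0 := k0) (m := m) (mi := mi)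
    (C := Finset.univ) (X := Empty) hFh hD hDk
    (E := fun x => x.elim) (fun x => x.elim) (fun x => x.elim) hx (fun a _ => hF a)
    (fun a ha => absurd (Finset.mem_univ a) ha) linearIndependent_empty_type htr htri
  obtain ⟨Θ, hΘ⟩ : ∃ Θ, Θ = dt b (row c dg D (tE Finset.univ F x D θ ε) (kE Finset.univ S Λ dg)
    (fun x : Empty => x.elim) (eE Finset.univ F x S fun x : Empty => x.elim) t
      (fun a => cor c (dg a)) (fun y => Pi.single (u y) 1) x) := ⟨_, rfl⟩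
  have hΘ0 : Θ ≠ 0 := by
    rw [hΘ]
    exact dt_ne_zero b hli
  have h1 : ∀ P : Place κ Λ, ∑ i, num Finset.univ dg mi 0 m (Fintype.card S) i * ph P x i -
      ((Fintype.card τ : ℤ) + Fintype.card A) * e P ≤ P.ord Θ := by
    intro P
    rw [hΘ]
    have h2 := ordF (C := Finset.univ) (F := F) (x := x) (dg := dg) (D := D) (θ := θ) (ε := ε)
      (E := fun x : Empty => x.elim) (c := c) P hFh b hx
      (fun a ha => absurd (Finset.mem_univ a) ha) hsp u (he P)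
      (fun f hf a j e' he' => hloss P f hf a j e' he') (fun a j e' he' r => hθ P a j e' he' r)
      (hε P) (fun _ _ x => x.elim) (fun _ _ _ b hb => absurd (Finset.mem_univ b) hb)
      (fun _ _ _ b hb => absurd (Finset.mem_univ b) hb) hcard le_rfl hu (by
        rw [← hΘ]
        exact hΘ0)
    rwa [Fintype.card_empty] at h2
  have hcoef : ∀ i, 1 ≤ num Finset.univ dg mi 0 m (Fintype.card S) i := by
    intro i
    have h2 := hnum i
    rw [Finset.sum_add_distrib, Finset.sum_const, smul_eq_mul, mul_one] at h2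
    unfold num
    zify at h2
    push_cast
    linarith
  have h0 : ∀ (P : Place κ Λ) i, 0 ≤ ph P x i := fun P i => ph_nonneg P hx i
  have h3 : ∀ P : Place κ Λ, ph P x p.1 - ((Fintype.card τ : ℤ) + Fintype.card A) * e P ≤
      P.ord Θ := by
    intro P
    have h4 : ph P x p.1 ≤ ∑ i, num Finset.univ dg mi 0 m (Fintype.card S) i * ph P x i := by
      have h5 : num Finset.univ dg mi 0 m (Fintype.card S) p.1 * ph P x p.1 ≤
          ∑ i, num Finset.univ dg mi 0 m (Fintype.card S) i * ph P x i :=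
        Finset.single_le_sum (f := fun i => num Finset.univ dg mi 0 m (Fintype.card S) i * ph P x i)
          (fun i _ => mul_nonneg (by have := hcoef i; omega) (h0 P i)) (Finset.mem_univ _)
      have h6 := mul_le_mul_of_nonneg_right (hcoef p.1) (h0 P p.1)
      linarith
    have := h1 P
    linarith
  obtain ⟨T1, hT1⟩ := exists_supp (k := κ) (Finset.univ : Finset (Fin 2)) ![x p, Θ]
  obtain ⟨T, hT⟩ : ∃ T, T = T1 ∪ hef.toFinset := ⟨_, rfl⟩
  have hs1 : ∑ P ∈ T, P.ord Θ = 0 := sum_ord_finset _ _ fun P hP => by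
    rw [hT]
    exact Finset.mem_union_left _ (hT1 1 (Finset.mem_univ _) P hP)
  have hs2 : hgt κ (x p) = ∑ P ∈ T, max (-P.ord (x p)) 0 := hgt_finset _ _ fun P hP => by
    rw [hT]
    exact Finset.mem_union_left _ (hT1 0 (Finset.mem_univ _) P hP)
  have hs3 : ∑ᶠ P, e P = ∑ P ∈ T, e P := by
    rw [finsum_eq_sum_of_support_subset (s := T)]
    intro P hP
    rw [hT]
    exact Finset.mem_union_right _ (hef.mem_toFinset.2 hP)
  have hs4 : ∑ P ∈ T, max (-P.ord (x p)) 0 ≤ ∑ P ∈ T, ph P x p.1 := by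
    refine Finset.sum_le_sum fun P _ => max_le ?_ (h0 P _)
    rcases ge_ph P x p with h2 | h2
    · rw [h2, P.ord_zero]
      simpa using h0 P _
    · linarith
  have hs5 := Finset.sum_le_sum (s := T) fun P _ => h3 P
  rw [Finset.sum_sub_distrib, ← Finset.mul_sum, hs1, ← hs3] at hs5
  have hE : 0 ≤ ∑ᶠ P, e P := by
    rw [hs3]
    exact Finset.sum_nonneg fun P _ => he P
  have hc2 : (Fintype.card τ : ℤ) + (Fintype.card A : ℤ) ≤ (m + Fintype.card S : ℕ) := by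
    rw [Fintype.card_empty, zero_add, Finset.card_univ] at hcard
    zify at hcard ⊢
    linarith
  rw [hs2]
  refine hs4.trans ?_
  have hs7 := mul_le_mul_of_nonneg_right hc2 hE
  linarith

section sys

variable {k0 A ι : Type} [Field k0] [Fintype ι] [DecidableEq ι] {n : ι → ℕ} {J : A → Type}
  [∀ a, Fintype (J a)]

/-- The equations. -/
noncomputable def Sys (P : ∀ a, J a → MvPolynomial (Vr n) k0) (j0 : ∀ a, J a)
    (V : Set (MvPolynomial (Vr n) k0)) (c0 : ∀ i, Fin (n i + 1)) :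
    Set (MvPolynomial (Vr n ⊕ Bt j0) k0) :=
  {f | (∃ g ∈ V, f = rename Sum.inl g) ∨ (∃ i, f = X (Sum.inl ⟨i, c0 i⟩) - 1) ∨
    ∃ a, f = ∑ j, cj j0 (fun b => X (Sum.inr b)) a j * rename Sum.inl (P a j)}

variable {P : ∀ a, J a → MvPolynomial (Vr n) k0} {j0 : ∀ a, J a}

theorem sys_iff {V : Set (MvPolynomial (Vr n) k0)} {c0 : ∀ i, Fin (n i + 1)} {Λ : Type} [Field Λ]
    [Algebra k0 Λ] (x : Vr n → Λ) (c : Bt j0 → Λ) :
    (∀ f ∈ Sys P j0 V c0, aeval (Sum.elim x c) f = 0) ↔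
      (∀ g ∈ V, aeval x g = 0) ∧ (∀ i, x ⟨i, c0 i⟩ = 1) ∧ ∀ a, eval x (NF P j0 c a) = 0 := by
  have h1 : ∀ g : MvPolynomial (Vr n) k0,
      aeval (Sum.elim x c) (rename (Sum.inl : Vr n → Vr n ⊕ Bt j0) g) =
        aeval x g := by
    intro g
    rw [aeval_rename, Sum.elim_comp_inl]
  have h2 : ∀ i, aeval (Sum.elim x c) (X (Sum.inl ⟨i, c0 i⟩) - 1 :
      MvPolynomial (Vr n ⊕ Bt j0) k0) = x ⟨i, c0 i⟩ - 1 := by
    intro i
    rw [map_sub, aeval_X, map_one, Sum.elim_inl]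
  have h3 : ∀ a, aeval (Sum.elim x c) (∑ j, cj j0 (fun b => (X (Sum.inr b) :
      MvPolynomial (Vr n ⊕ Bt j0) k0)) a j * rename Sum.inl (P a j)) =
        eval x (NF P j0 c a) := by
    intro a
    rw [map_sum, NF, map_sum]
    refine Finset.sum_congr rfl fun j _ => ?_
    have h4 : eval x (map (algebraMap k0 Λ) (P a j)) = aeval x (P a j) := by
      rw [eval_map, aeval_def]
    rw [map_mul, map_mul, h1, eval_C, h4, cj, cj]
    congr 1
    split_ifs
    · rw [map_one]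
    · rw [aeval_X, Sum.elim_inr]
  constructor
  · intro h
    refine ⟨fun g hg => ?_, fun i => ?_, fun a => ?_⟩
    · rw [← h1]
      exact h _ (Or.inl ⟨g, hg, rfl⟩)
    · rw [← sub_eq_zero, ← h2]
      exact h _ (Or.inr (Or.inl ⟨i, rfl⟩))
    · rw [← h3]
      exact h _ (Or.inr (Or.inr ⟨a, rfl⟩))
  · rintro ⟨hV, hc0, hF⟩ f (⟨g, hg, rfl⟩ | ⟨i, rfl⟩ | ⟨a, rfl⟩)
    · rw [h1]
      exact hV g hg
    · rw [h2, hc0, sub_self]
    · rw [h3, hF]

/-- The height inequality for the solutions. -/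
theorem sys_ineq [Fintype A] [DecidableEq A] {dg : A → ι → ℕ}
    (hP : ∀ a j, IsMulti (P a j) (dg a))
    {V : Set (MvPolynomial (Vr n) k0)} {m s : ℕ} {mi : ι → ℕ} (hV : MDimLE k0 V m)
    (hVi : ∀ i, PrDimLE k0 V i (mi i)) {c0 : ∀ i, Fin (n i + 1)}
    (hSt : ∀ a j e, (∀ i, e i ≤ dg a i) → ∃ j', P a j' = monomial (sM c0 (dg a) j e) 1)
    {B : Set (Bt j0)} (hB : Nat.card {b : Bt j0 // b ∉ B} ≤ s)
    (hnum : ∀ i, m + mi i + s + 2 ≤ ∑ a, (dg a i + 1)) :
    HtIneq k0 B (Sys P j0 V c0) (2 * (m + s)) := by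
  classical
  intro κ Λ _ _ _ _ _ _ _ c δ e x hk hδ he hef hloss hpole hδc hx p
  have := Fintype.ofFinite B
  have := Fintype.ofFinite {b : Bt j0 // b ∉ B}
  obtain ⟨hxV, hx1, hF⟩ := (sys_iff x c).1 hx
  have hx0 : ∀ i, ∃ j, x ⟨i, j⟩ ≠ 0 := fun i => ⟨c0 i, by rw [hx1]; exact one_ne_zero⟩
  obtain ⟨ρ, ε, hρ, hε, hD⟩ := exists_data (P := P) δ hk c (fun b b' => by
    by_cases h : b = b'
    · exact Or.inl ⟨h, by rw [hδ, if_pos h]⟩
    · exact Or.inr ⟨h, by rw [hδ, if_neg h]⟩)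
    (G := fun a => {I | ∃ j e, (∀ i, e i ≤ dg a i) ∧ I = sM c0 (dg a) j e}) (by
      rintro a _ ⟨j, e, he, rfl⟩
      exact hSt a j e he)
  have hρe : ∀ Q a I q, Ge Q (-e Q) (ρ a I q) := by
    intro Q a I q
    have h3 := he Q
    rcases hρ a I q with h | h | h
    · rw [h]; exact Ge.zero
    · rw [h]; exact Ge.one.mono (by omega)
    · rw [h]; exact (hpole Q q).neg
  rw [Nat.card_eq_fintype_card] at hB
  have h1 := hgt_ineq (k0 := k0) (κ := κ) (m := m) (mi := mi) (e := fun Q => 2 * e Q)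
    (D := fun a I => Dr δ (ρ a I)) (θ := fun a I => θr δ c (ρ a I)) (ε := ε) (Q := Qr P Λ B)
    (NF_multi hP c) (fun a b j e he => hD a b _ ⟨j, e, he, rfl⟩) (fun a I r => by
      rw [Dr_apply]
      exact Finset.sum_eq_zero fun b _ => by rw [hk, mul_zero]) (fun Q => by
      have := he Q
      omega) (by
      refine hef.subset fun Q hQ => ?_
      intro h
      apply hQ
      rw [h, mul_zero]) (fun Q f hf a j e' _ => by
      rw [Dr_apply]
      refine Ge.sum _ _ fun b _ => ?_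
      exact ((hρe Q a _ b).mul (hloss Q f hf b)).mono (by omega)) (fun Q a j e' _ r => by
      have h3 := he Q
      refine Ge.sub ?_ ((hρe Q a _ r).mono (by omega))
      refine Ge.sum _ _ fun b _ => ?_
      exact ((hρe Q a _ b).mul (hδc Q b r)).mono (by omega)) (fun Q a I => by
      rcases hε a I with h | h
      · rw [h]; exact Ge.zero
      · rw [h]; exact Ge.one) hx1 hF (hV Λ x hx0 hxV) (fun i => hVi i Λ x hx0 hxV)
    (fun i => le_trans (by omega) (hnum i)) p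
  have h2 : ∑ᶠ P, 2 * e P = 2 * ∑ᶠ P, e P := by
    rw [mul_finsum]
  rw [h2] at h1
  have hE : 0 ≤ ∑ᶠ P, e P := finsum_nonneg he
  refine h1.trans ?_
  have h3 : ((m + Fintype.card {b : Bt j0 // b ∉ B} : ℕ) : ℤ) ≤ (m + s : ℕ) := by
    exact_mod_cast Nat.add_le_add_left hB m
  have h4 := mul_le_mul_of_nonneg_right h3 (by linarith : 0 ≤ 2 * ∑ᶠ P, e P)
  refine h4.trans (le_of_eq ?_)
  push_cast
  ring

section fin

variable {K : Type} [Field K] [Algebra k0 K] [IsAlgClosed k0] [IsAlgClosed K] [CharZero K]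

/-- Finiteness of the points. -/
theorem fin_points [Fintype A] [DecidableEq A] {dg : A → ι → ℕ}
    (hP : ∀ a j, IsMulti (P a j) (dg a))
    {V : Set (MvPolynomial (Vr n) k0)} (hVh : ∀ f ∈ V, ∃ e, IsMulti f e) {m s : ℕ} {mi : ι → ℕ}
    (hV : MDimLE k0 V m) (hVi : ∀ i, PrDimLE k0 V i (mi i)) (Z : Set (∀ i, Fin (n i + 1)))
    (hSt : ∀ c0 ∈ Z, ∀ a j e, (∀ i, e i ≤ dg a i) →
      ∃ j', P a j' = monomial (sM c0 (dg a) j e) 1)
    (hnum : ∀ i, m + mi i + s + 2 ≤ ∑ a, (dg a i + 1)) (t : ∀ a, J a → K)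
    (h0 : ∀ a, t a (j0 a) ≠ 0)
    {B : Set (Bt j0)} (hB : Nat.card {b : Bt j0 // b ∉ B} ≤ s)
    (hind : AlgebraicIndependent k0 fun p : B => t p.1.1 p.1.2.1 / t p.1.1 (j0 p.1.1))
    {F : A → MvPolynomial (Vr n) K}
    (hF : ∀ a, F a = ∑ j, MvPolynomial.C (t a j) * map (algebraMap k0 K) (P a j)) (T : Finset K) :
    {p : ∀ i, Projectivization K (Fin (n i + 1) → K) | (∃ c ∈ Z, ∀ i, (p i).rep (c i) ≠ 0) ∧
      ∃ x : Vr n → K,
      (∀ q, x q ∈ IntermediateField.adjoin k0 (T : Set K)) ∧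
      (∀ f ∈ V, aeval x f = 0) ∧ (∀ a, eval x (F a) = 0) ∧
      ∃ hx : ∀ i, (fun j => x ⟨i, j⟩) ≠ 0, ∀ i, p i = Projectivization.mk K _ (hx i)}.Finite := by
  obtain ⟨c, hc⟩ : ∃ c : Bt j0 → K, ∀ p, c p = t p.1 p.2.1 / t p.1 (j0 p.1) := ⟨_, fun _ => rfl⟩
  have hc' : c = fun p : Bt j0 => t p.1 p.2.1 / t p.1 (j0 p.1) := funext hc
  have hindc : AlgebraicIndependent k0 fun b : B => c b := by
    have : (fun b : B => c b) = fun p : B => t p.1.1 p.1.2.1 / t p.1.1 (j0 p.1.1) :=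
      funext fun b => hc b
    rw [this]
    exact hind
  have h1 : ∀ c0 ∈ Z, {x : Vr n → K |
      (∀ j, x j ∈ IntermediateField.adjoin k0 (T : Set K)) ∧
      ∀ f ∈ Sys P j0 V c0, aeval (Sum.elim x c) f = 0}.Finite := fun c0 hc0 =>
    principle (sys_ineq hP hV hVi (hSt c0 hc0) hB hnum) hindc T
  have h2 : (⋃ c0 ∈ Z, {x : Vr n → K |
      (∀ j, x j ∈ IntermediateField.adjoin k0 (T : Set K)) ∧
      ∀ f ∈ Sys P j0 V c0, aeval (Sum.elim x c) f = 0}).Finite :=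
    Set.Finite.biUnion (Set.toFinite Z) h1
  have h3 := h2.image fun (x : Vr n → K) (i : ι) =>
    Submodule.span K {(fun j => x ⟨i, j⟩ : Fin (n i + 1) → K)}
  refine Set.Finite.of_finite_image (f := fun (p : ∀ i, Projectivization K (Fin (n i + 1) → K))
    (i : ι) => (p i).submodule) (h3.subset ?_) (by
      intro p _ q _ hpq
      funext i
      exact Projectivization.submodule_injective (congrFun hpq i))
  rintro _ ⟨p, ⟨⟨c0, hc0, hpc⟩, x, hxT, hxV, hxF, hx, hpx⟩, rfl⟩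
  have hxc : ∀ i, x ⟨i, c0 i⟩ ≠ 0 := by
    intro i h
    apply hpc i
    rw [hpx]
    obtain ⟨a, ha⟩ := Projectivization.exists_smul_eq_mk_rep K _ (hx i)
    rw [← ha, Pi.smul_apply]
    change a • x ⟨i, c0 i⟩ = 0
    rw [h, smul_zero]
  obtain ⟨x', hx'⟩ : ∃ x' : Vr n → K, x' = sc (fun i => (x ⟨i, c0 i⟩)⁻¹) x := ⟨_, rfl⟩
  refine ⟨x', ?_, ?_⟩
  · rw [Set.mem_iUnion₂]
    refine ⟨c0, hc0, fun q => ?_, (sys_iff _ _).2 ⟨fun g hg => ?_, fun i => ?_, fun a => ?_⟩⟩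
    · rw [hx']
      exact mul_mem (inv_mem (hxT _)) (hxT _)
    · obtain ⟨e, he⟩ := hVh g hg
      rw [hx', aeval_sc he, hxV g hg, mul_zero]
    · rw [hx']
      exact inv_mul_cancel₀ (hxc i)
    · have h4 := hxF a
      rw [hF, form_eq t h0, ← hc', map_mul, eval_C] at h4
      rw [hx', eval_sc (NF_multi hP c a), (mul_eq_zero.1 h4).resolve_left (h0 a), mul_zero]
  · funext i
    change Submodule.span K {(fun j => x' ⟨i, j⟩ : Fin (n i + 1) → K)} = (p i).submodule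
    rw [hpx i, Projectivization.submodule_mk]
    have h5 : (fun j => x' ⟨i, j⟩ : Fin (n i + 1) → K) =
        (x ⟨i, c0 i⟩)⁻¹ • fun j => x ⟨i, j⟩ := by
      rw [hx']
      rfl
    rw [h5]
    exact Submodule.span_singleton_smul_eq (isUnit_iff_ne_zero.2 (inv_ne_zero (hxc i))) _

end fin

end sys

end Pool.Agent.Run7.h621.MP
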