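import Pool.Agent.Run7.h621.MP.Chart

/-!
The change of the derivations.
-/

set_option autoImplicit false
set_option linter.unusedSectionVars false

open MvPolynomial
open Pool.Agent.Run7.h621.NG (dt dt_lin dt_cols dt_rows dt_tri dt_diag dt_ne_zero)

namespace Pool.Agent.Run7.h621.MP

variable {ι : Type} [Fintype ι] [DecidableEq ι] {n : ι → ℕ}
  {L : Type} [Field L] {A S X τ υ : Type} [Fintype X]

variable {c : ∀ i, Fin (n i + 1)} {dg : A → ι → ℕ} {D1 D2 : A → (Vr n →₀ ℕ) → Derivation ℤ L L}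
  {θ1 θ2 : A → (Vr n →₀ ℕ) → S → L} {κ : ι → S → L} {E1 E2 : X → Derivation ℤ L L}
  {η1 η2 : X → S → L} {t : τ → Ti A n}

theorem Rd_comb {B : X → L} {δ : Derivation ℤ L L} {z : S → L}
    (h : ∀ f, δ f = ∑ j, B j * E2 j f) (hz : ∀ s, z s = ∑ j, B j * η2 j s)
    (x : Vr n → L) : Rd δ z x = ∑ j, B j • Rd (E2 j) (η2 j) x := by
  funext q
  rw [Finset.sum_apply]
  rcases q with j | r
  · exact h (x j)
  · exact hz r

theorem R_diff {r : A → (Vr n →₀ ℕ) → X → L}
    (hD : ∀ a I f, D1 a I f = D2 a I f + ∑ j, r a I j * E2 j f)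
    (hθ : ∀ a I s, θ1 a I s = θ2 a I s + ∑ j, r a I j * η2 j s) (x : Vr n → L) (a : A)
    (I : Vr n →₀ ℕ) :
    R D1 θ1 x a I = R D2 θ2 x a I + ∑ j, r a I j • Rd (E2 j) (η2 j) x := by
  funext q
  rw [Pi.add_apply, Finset.sum_apply]
  rcases q with j | s
  · exact hD a I (x j)
  · exact hθ a I s

theorem T_diff {r : A → (Vr n →₀ ℕ) → X → L}
    (hD : ∀ a I f, D1 a I f = D2 a I f + ∑ j, r a I j * E2 j f)
    (hθ : ∀ a I s, θ1 a I s = θ2 a I s + ∑ j, r a I j * η2 j s) (x : Vr n → L)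
    (p : Ti A n) :
    ∃ z : X → L, T c dg D1 θ1 x p = T c dg D2 θ2 x p + ∑ j, z j • Rd (E2 j) (η2 j) x := by
  by_cases hp : Ok dg p
  · obtain ⟨I1, hI1⟩ : ∃ I1, I1 = sM c (dg p.1) p.2.1
      (Function.update p.2.2.1 p.2.2.2 (p.2.2.1 p.2.2.2 + 1)) := ⟨_, rfl⟩
    obtain ⟨I2, hI2⟩ : ∃ I2, I2 = sM c (dg p.1) p.2.1 p.2.2.1 := ⟨_, rfl⟩
    refine ⟨fun j => x ⟨p.2.2.2, c p.2.2.2⟩ * r p.1 I1 j -
      x ⟨p.2.2.2, p.2.1 p.2.2.2⟩ * r p.1 I2 j, ?_⟩
    simp only [T, if_pos hp, ← hI1, ← hI2]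
    rw [R_diff hD hθ, R_diff hD hθ, smul_add, smul_add, Finset.smul_sum, Finset.smul_sum]
    simp only [sub_smul, smul_smul, Finset.sum_sub_distrib]
    abel
  · refine ⟨0, ?_⟩
    simp [T, if_neg hp]

/-- The change of the derivations, for the spans. -/
theorem spans_change {B : X → X → L} (hE : ∀ i f, E1 i f = ∑ j, B i j * E2 j f)
    (hη : ∀ i s, η1 i s = ∑ j, B i j * η2 j s)
    {r : A → (Vr n →₀ ℕ) → X → L}
    (hD : ∀ a I f, D1 a I f = D2 a I f + ∑ j, r a I j * E2 j f)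
    (hθ : ∀ a I s, θ1 a I s = θ2 a I s + ∑ j, r a I j * η2 j s)
    {x : Vr n → L} (h : Spans c dg D1 θ1 κ E1 η1 t x) : Spans c dg D2 θ2 κ E2 η2 t x := by
  have hX : ∀ z : X → L, ∑ j, z j • Rd (E2 j) (η2 j) x ∈
      Submodule.span L (Set.range (brow c dg D2 θ2 κ E2 η2 t x)) :=
    fun z => Submodule.sum_mem _ fun j _ => Submodule.smul_mem _ _
      (Submodule.subset_span ⟨Sum.inr (Sum.inl j), rfl⟩)
  have h1 : Submodule.span L (Set.range (brow c dg D1 θ1 κ E1 η1 t x)) ≤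
      Submodule.span L (Set.range (brow c dg D2 θ2 κ E2 η2 t x)) := by
    rw [Submodule.span_le]
    rintro _ ⟨(p | ξ | y), rfl⟩
    · exact Submodule.subset_span ⟨Sum.inl p, rfl⟩
    · change Rd (E1 ξ) (η1 ξ) x ∈ Submodule.span L (Set.range (brow c dg D2 θ2 κ E2 η2 t x))
      rw [Rd_comb (hE ξ) (hη ξ) x]
      exact hX _
    · change T c dg D1 θ1 x (t y) ∈ Submodule.span L (Set.range (brow c dg D2 θ2 κ E2 η2 t x))
      obtain ⟨z, hz⟩ := T_diff (c := c) (dg := dg) hD hθ x (t y)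
      rw [hz]
      exact add_mem (Submodule.subset_span ⟨Sum.inr (Sum.inr y), rfl⟩) (hX _)
  intro p
  have h2 := h1 (h p)
  obtain ⟨z, hz⟩ := T_diff (c := c) (dg := dg) hD hθ x p
  rw [hz] at h2
  have h3 := sub_mem h2 (hX z)
  rwa [add_sub_cancel_right] at h3

/-- The change of the derivations, for the determinants. -/
theorem dt_change [Fintype S] [DecidableEq S] [Fintype A] [Fintype τ] [Fintype υ]
    [DecidableEq X]
    (e : Vr n ⊕ S ≃ (ι ⊕ (X ⊕ τ)) ⊕ (A ⊕ υ))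
    {B : Matrix X X L} (hE : ∀ i f, E1 i f = ∑ j, B i j * E2 j f)
    (hη : ∀ i s, η1 i s = ∑ j, B i j * η2 j s)
    {r : A → (Vr n →₀ ℕ) → X → L}
    (hD : ∀ a I f, D1 a I f = D2 a I f + ∑ j, r a I j * E2 j f)
    (hθ : ∀ a I s, θ1 a I s = θ2 a I s + ∑ j, r a I j * η2 j s)
    (I : A → Vr n →₀ ℕ) (u : υ → Vr n ⊕ S → L) (x : Vr n → L) :
    dt e (row c dg D1 θ1 κ E1 η1 t I u x) = B.det * dt e (row c dg D2 θ2 κ E2 η2 t I u x) := by
  classical
  choose z hz using fun y => T_diff (c := c) (dg := dg) hD hθ x (t y)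
  rw [dt_tri e (v' := row c dg D2 θ2 κ E2 η2 t I u x) (Matrix.fromBlocks 1 0 0
    (Matrix.fromBlocks B 0 (Matrix.of fun y j => z y j) 1)) 1]
  · rw [Matrix.det_fromBlocks_zero₁₂, Matrix.det_fromBlocks_zero₁₂, Matrix.det_one, Matrix.det_one,
      Matrix.det_one, one_mul, mul_one, mul_one]
  · rintro (p | ξ | y)
    · rw [Fintype.sum_sum_type]
      simp only [Matrix.fromBlocks_apply₁₁, Matrix.fromBlocks_apply₁₂, Matrix.zero_apply, zero_smul,
        Finset.sum_const_zero, add_zero]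
      rw [Finset.sum_eq_single p]
      · rw [Matrix.one_apply_eq, one_smul]
        rfl
      · intro q _ hq
        rw [Matrix.one_apply_ne (Ne.symm hq), zero_smul]
      · intro h; exact absurd (Finset.mem_univ _) h
    · rw [Fintype.sum_sum_type, Fintype.sum_sum_type]
      simp only [Matrix.fromBlocks_apply₂₁, Matrix.fromBlocks_apply₂₂, Matrix.fromBlocks_apply₁₁,
        Matrix.fromBlocks_apply₁₂, Matrix.zero_apply, zero_smul,
        Finset.sum_const_zero, add_zero, zero_add]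
      exact Rd_comb (hE ξ) (hη ξ) x
    · rw [Fintype.sum_sum_type, Fintype.sum_sum_type]
      simp only [Matrix.fromBlocks_apply₂₁, Matrix.fromBlocks_apply₂₂, Matrix.zero_apply, zero_smul,
        Finset.sum_const_zero, zero_add, Matrix.of_apply]
      rw [Finset.sum_eq_single (a := y) (s := (Finset.univ : Finset τ))]
      · rw [Matrix.one_apply_eq, one_smul]
        exact (hz y).trans (add_comm _ _)
      · intro q _ hq
        rw [Matrix.one_apply_ne (Ne.symm hq), zero_smul]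
      · intro h; exact absurd (Finset.mem_univ _) h
  · have hX : ∀ z : X → L, ∑ j, z j • Rd (E2 j) (η2 j) x ∈
        Submodule.span L (Set.range fun j => row c dg D2 θ2 κ E2 η2 t I u x (Sum.inl j)) :=
      fun z => Submodule.sum_mem _ fun j _ => Submodule.smul_mem _ _
        (Submodule.subset_span ⟨Sum.inr (Sum.inl j), rfl⟩)
    intro i
    have h1 : ∑ j, (1 : Matrix (A ⊕ υ) _ L) i j •
        row c dg D2 θ2 κ E2 η2 t I u x (Sum.inr j) =
        row c dg D2 θ2 κ E2 η2 t I u x (Sum.inr i) := by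
      rw [Finset.sum_eq_single i]
      · rw [Matrix.one_apply_eq, one_smul]
      · intro q _ hq
        rw [Matrix.one_apply_ne (Ne.symm hq), zero_smul]
      · intro h; exact absurd (Finset.mem_univ _) h
    rw [h1]
    rcases i with a | y
    · change R D1 θ1 x a (I a) - R D2 θ2 x a (I a) ∈ _
      rw [R_diff hD hθ x a, add_sub_cancel_left]
      exact hX _
    · change u y - u y ∈ _
      rw [sub_self]
      exact zero_mem _

end Pool.Agent.Run7.h621.MP
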