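import Pool.Agent.Run7.h621.MP.LogFinal
import Pool.Agent.W602.GT.Rat
import Pool.Agent.W603.LV.Ex
import Pool.Agent.TH145.GE.Curve

/-!
The degrees of curves on logarithmic pairs.
-/

set_option autoImplicit false
set_option linter.unusedSectionVars false

open MvPolynomial FF Pool.Agent.W603.LV Pool.Agent.W603.PV Pool.Agent.TH145.GH
open Pool.Agent.W602.GT Pool.Agent.TH145.GF Pool.Agent.TH145.MG
open Pool.Agent.Run7.h621.FV (cd coeff_cd exists_tb)
open Pool.Agent.Run7.h621.NG (Bt cj)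

namespace Pool.Agent.Run7.h621.MP

section der

variable {K L : Type} [Field K] [Field L] [Algebra K L] [IsAlgClosed K] [CharZero K] [IsFF K L]

/-- The local regular derivation. -/
theorem reg_unif (Q : Place K L) {E : Derivation K L L} (hE : E ≠ 0) :
    DerReg Q ((E (unif Q))⁻¹ • E) := by
  intro f hf
  refine der_reg Q (ord_unif Q) _ ?_ hf
  rw [Derivation.coe_smul, Pi.smul_apply, smul_eq_mul,
    inv_mul_cancel₀ (der_pi_ne_zero hE Q (ord_unif Q))]

/-- The local logarithmic derivation. -/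
theorem log_unif (Q : Place K L) {E : Derivation K L L} (hE : E ≠ 0) :
    DerLog Q ((unif Q * (E (unif Q))⁻¹) • E) := by
  intro f
  obtain ⟨D, hD⟩ : ∃ D : Derivation K L L, D = (E (unif Q))⁻¹ • E := ⟨_, rfl⟩
  have h0 := der_pi_ne_zero hE Q (ord_unif Q)
  have hD0 : D ≠ 0 := by
    rw [hD]
    exact smul_ne_zero (inv_ne_zero h0) hE
  have hDπ : D (unif Q) = 1 := by
    rw [hD, Derivation.coe_smul, Pi.smul_apply, smul_eq_mul, inv_mul_cancel₀ h0]
  have hvo : vo Q D = 0 := by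
    unfold vo
    rw [hDπ, Q.ord_one]
  have hπ0 : unif Q ≠ 0 := by
    intro h
    have := ord_unif Q
    rw [h, Q.ord_zero] at this
    omega
  rw [mul_smul, ← hD]
  change Ge Q 0 ((unif Q • D) f / f)
  rw [Derivation.coe_smul, Pi.smul_apply, smul_eq_mul]
  by_cases hf : f = 0
  · rw [hf, div_zero]
    exact Ge.zero
  by_cases hDf : D f = 0
  · rw [hDf, mul_zero, zero_div]
    exact Ge.zero
  refine Or.inr ?_
  rw [Q.ord_div (mul_ne_zero hπ0 hDf) hf, Q.ord_mul hπ0 hDf, ord_unif]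
  by_cases hof : Q.ord f = 0
  · have h1 : Ge Q 0 (D f) := by
      rw [hD]
      exact reg_unif Q hE f (Or.inr hof.ge)
    have h2 := h1.resolve_left hDf
    omega
  · have h1 := (ord_der Q hD0 hof).2
    omega

/-- The function field of a curve is algebraic over the field generated by a set with a
nonconstant element. -/
theorem alg_of_mem {S : Set L} {z : L} (hz : z ∈ S) (ht : Transcendental K z) :
    Algebra.IsAlgebraic (IntermediateField.adjoin K S) L := by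
  have h1 := IsFF.isAlgebraic ht
  have h2 : IntermediateField.adjoin K {z} ≤ IntermediateField.adjoin K S :=
    IntermediateField.adjoin.mono _ _ _ (Set.singleton_subset_iff.2 hz)
  let _ : Algebra (IntermediateField.adjoin K {z}) (IntermediateField.adjoin K S) :=
    (IntermediateField.inclusion h2).toRingHom.toAlgebra
  have h3 : IsScalarTower (IntermediateField.adjoin K {z}) (IntermediateField.adjoin K S) L :=
    IsScalarTower.of_algebraMap_eq fun _ => rfl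
  exact ⟨fun f => (h1.isAlgebraic f).tower_top (IntermediateField.adjoin K S)⟩

end der

variable {k0 A ι : Type} [Field k0] [Fintype ι] [DecidableEq ι] {n : ι → ℕ} {J : A → Type}
  [∀ a, Fintype (J a)] {P : ∀ a, J a → MvPolynomial (Vr n) k0} {j0 : ∀ a, J a}

/-- The degree inequality for curves. -/
theorem curve_chart {K L : Type} [Field K] [Field L] [Algebra k0 K] [Algebra K L]
    [IsAlgClosed K] [CharZero K] [IsFF K L] [Fintype A] [DecidableEq A]
    {dg : A → ι → ℕ} (hP : ∀ a j, IsMulti (P a j) (dg a)) (C : Finset A)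
    {V : Set (MvPolynomial (Vr n) k0)} {m s : ℕ} {mi : ι → ℕ} (hV : MDimLE k0 V m)
    (hVi : ∀ i, PrDimLE k0 V i (mi i))
    {c0 : ∀ i, Fin (n i + 1)} (hSt : ∀ a j e, (∀ i, e i ≤ dg a i) →
      ∃ j', P a j' = monomial (sM c0 (dg a) j e) 1)
    {c : Bt j0 → K} {B : Set (Bt j0)} (hB : Nat.card {b : Bt j0 // b ∉ B} ≤ s)
    (hind : AlgebraicIndependent k0 fun b : B => c b)
    {x : Vr n → L} (hx : ∀ i, x ⟨i, c0 i⟩ = 1) {p0 : Vr n} (hp0 : Transcendental K (x p0))
    (hxV : ∀ f ∈ V, aeval x (map (algebraMap k0 K) f) = 0)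
    {F : A → MvPolynomial (Vr n) K} (hF : ∀ a, F a = NF P j0 c a)
    (hC : ∀ a ∈ C, aeval x (F a) = 0) (hBd : ∀ a, a ∉ C → aeval x (F a) ≠ 0) :
    {Q : Place K L | ∃ b, b ∉ C ∧
      ∑ i, (dg b i : ℤ) * pord Q (fun j => x ⟨i, j⟩) < Q.ord (aeval x (F b))}.Finite ∧
    ∑ i, num C dg mi 1 m s i * pht K (fun j => x ⟨i, j⟩) ≤ canDeg K L +
      {Q : Place K L | ∃ b, b ∉ C ∧
        ∑ i, (dg b i : ℤ) * pord Q (fun j => x ⟨i, j⟩) < Q.ord (aeval x (F b))}.ncard := by
  classical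
  let _ : Algebra k0 L := ((algebraMap K L).comp (algebraMap k0 K)).toAlgebra
  have hst : IsScalarTower k0 K L := IsScalarTower.of_algebraMap_eq fun _ => rfl
  have hx0 : ∀ i, ∃ j, x ⟨i, j⟩ ≠ 0 := fun i => ⟨c0 i, by rw [hx]; exact one_ne_zero⟩
  have hxV' : ∀ f ∈ V, aeval x f = 0 := by
    intro f hf
    have h1 := hxV f hf
    rwa [aeval_map_algebraMap] at h1
  have hev : ∀ a, aeval x (F a) = eval x (map (algebraMap K L) (F a)) := fun a => by
    rw [eval_map, aeval_def]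
  have hgen : Algebra.IsAlgebraic (IntermediateField.adjoin K (Set.range x)) L :=
    alg_of_mem ⟨p0, rfl⟩ hp0
  have htr : Algebra.trdeg K L = (1 : ℕ) := by
    rw [IsFF.trdeg, Nat.cast_one]
  obtain ⟨Δ, l, E', hl, hΔE, hlin, hΔ⟩ := core_forms (c := c) (w := 1)
    (F := fun a => map (algebraMap K L) (F a))
    (s := s) hP C hSt one_pos hB hind htr hx hgen
    (hV L x hx0 hxV') (fun i => hVi i L x hx0 hxV') (fun a => by rw [hF])
    (fun a ha => by rw [← hev]; exact hC a ha) (fun a ha => by rw [← hev]; exact hBd a ha)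
  obtain ⟨Bd, hBdd⟩ : ∃ Bd : Set (Place K L), Bd = {Q : Place K L | ∃ b, b ∉ C ∧
      ∑ i, (dg b i : ℤ) * pord Q (fun j => x ⟨i, j⟩) < Q.ord (aeval x (F b))} := ⟨_, rfl⟩
  rw [← hBdd]
  have hpf : ∀ i, {Q : Place K L | pord Q (fun j => x ⟨i, j⟩) ≠ 0}.Finite := fun i =>
    pord_finite (k := K) (hx0 i)
  have hBfin : Bd.Finite := by
    have h1 : (⋃ a : A, {Q : Place K L | Q.ord (aeval x (F a)) ≠ 0}).Finite :=
      Set.finite_iUnion fun a => finite_support (k := K) _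
    have h2 : (⋃ i : ι, {Q : Place K L | pord Q (fun j => x ⟨i, j⟩) ≠ 0}).Finite :=
      Set.finite_iUnion hpf
    refine (h1.union h2).subset fun Q hQ => ?_
    rw [hBdd] at hQ
    obtain ⟨b, -, hQ⟩ := hQ
    by_contra hcon
    rw [Set.mem_union, not_or, Set.mem_iUnion, Set.mem_iUnion, not_exists, not_exists] at hcon
    have h3 : Q.ord (aeval x (F b)) = 0 := not_not.1 (hcon.1 b)
    have h4 : ∀ i, pord Q (fun j => x ⟨i, j⟩) = 0 := fun i => not_not.1 (hcon.2 i)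
    rw [h3, Finset.sum_eq_zero fun i _ => by rw [h4 i, mul_zero]] at hQ
    exact lt_irrefl _ hQ
  refine ⟨hBfin, ?_⟩
  obtain ⟨E, hE⟩ : ∃ E, E = E' 0 := ⟨_, rfl⟩
  have hmul : ∀ h : L, Δ (fun _ => h • E) = h * Δ E' := by
    intro h
    rw [hlin (Matrix.of fun _ _ => h) (fun _ => h • E) E' fun i f => by
      rw [Fintype.sum_unique, Derivation.coe_smul, Pi.smul_apply, smul_eq_mul, hE]
      rfl]
    rw [Matrix.det_fin_one, Matrix.of_apply]
  have hE0 : E ≠ 0 := by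
    intro h
    apply hΔE
    have h1 : E' = fun _ => (0 : L) • E := by
      funext i
      rw [Subsingleton.elim i 0, ← hE, h, smul_zero]
    rw [h1, hmul, zero_mul]
  obtain ⟨S, hS⟩ : ∃ S : Place K L → ℤ, ∀ Q, S Q = ∑ i, num C dg mi 1 m s i * ph Q x i :=
    ⟨_, fun _ => rfl⟩
  have hπ0 : ∀ Q : Place K L, unif Q ≠ 0 := by
    intro Q h
    have := ord_unif Q
    rw [h, Q.ord_zero] at this
    omega
  have hloc : ∀ Q : Place K L, S Q + vo Q E - (if Q ∈ Bd then 1 else 0) ≤ Q.ord (Δ E') := by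
    intro Q
    have h0 := der_pi_ne_zero hE0 Q (ord_unif Q)
    have hv : Q.ord (E (unif Q)) = vo Q E := rfl
    split_ifs with hQ
    · have h1 := hΔ Q (divisorial_one Q) (fun _ => (unif Q * (E (unif Q))⁻¹) • E)
        (Or.inl fun _ => log_unif Q hE0)
      rw [hmul, ← hS] at h1
      have h2 := h1.resolve_left (mul_ne_zero (mul_ne_zero (hπ0 Q) (inv_ne_zero h0)) hΔE)
      rw [Q.ord_mul (mul_ne_zero (hπ0 Q) (inv_ne_zero h0)) hΔE, Q.ord_mul (hπ0 Q) (inv_ne_zero h0),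
        Q.ord_inv, ord_unif, hv] at h2
      linarith
    · have h1 := hΔ Q (divisorial_one Q) (fun _ => (E (unif Q))⁻¹ • E)
        (Or.inr ⟨fun _ => reg_unif Q hE0, fun b hb h => hQ (by
          rw [hBdd]
          exact ⟨b, hb, by rwa [hev]⟩)⟩)
      rw [hmul, ← hS] at h1
      have h2 := h1.resolve_left (mul_ne_zero (inv_ne_zero h0) hΔE)
      rw [Q.ord_mul (inv_ne_zero h0) hΔE, Q.ord_inv, hv] at h2
      linarith
  obtain ⟨T, hT⟩ : ∃ T : Finset (Place K L), T = (finite_support (k := K) (Δ E')).toFinset ∪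
    ((vo_finite hE0).toFinset ∪ (hBfin.toFinset ∪ Finset.univ.biUnion fun i =>
      (hpf i).toFinset)) := ⟨_, rfl⟩
  have hs1 : ∑ Q ∈ T, Q.ord (Δ E') = 0 := sum_ord_finset _ _ fun Q hQ => by
    rw [hT]
    exact Finset.mem_union_left _ ((Set.Finite.mem_toFinset _).2 hQ)
  have hs2 : ∑ Q ∈ T, vo Q E = - canDeg K L := canDeg_finset hE0 T fun Q hQ => by
    rw [hT]
    exact Finset.mem_union_right _ (Finset.mem_union_left _ ((Set.Finite.mem_toFinset _).2 hQ))
  have hs3 : ∑ Q ∈ T, (if Q ∈ Bd then (1 : ℤ) else 0) = Bd.ncard := by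
    rw [← Finset.sum_filter, Finset.sum_const, nsmul_eq_mul, mul_one,
      Set.ncard_eq_toFinset_card Bd hBfin]
    congr 2
    ext Q
    rw [Finset.mem_filter, Set.Finite.mem_toFinset]
    constructor
    · exact fun h => h.2
    · intro h
      refine ⟨?_, h⟩
      rw [hT]
      exact Finset.mem_union_right _ (Finset.mem_union_right _ (Finset.mem_union_left _
        ((Set.Finite.mem_toFinset _).2 h)))
  have hs4 : ∑ Q ∈ T, S Q = ∑ i, num C dg mi 1 m s i * pht K (fun j => x ⟨i, j⟩) := by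
    simp only [hS]
    rw [Finset.sum_comm]
    refine Finset.sum_congr rfl fun i _ => ?_
    rw [← Finset.mul_sum]
    congr 1
    unfold pht
    rw [finsum_eq_sum_of_support_subset (s := T), ← Finset.sum_neg_distrib]
    · rfl
    · intro Q hQ
      rw [hT]
      exact Finset.mem_union_right _ (Finset.mem_union_right _ (Finset.mem_union_right _
        (Finset.mem_biUnion.2 ⟨i, Finset.mem_univ _, (Set.Finite.mem_toFinset _).2 hQ⟩)))
  have hs5 := Finset.sum_le_sum (s := T) fun Q _ => hloc Q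
  rw [Finset.sum_sub_distrib, Finset.sum_add_distrib, hs1, hs2, hs3, hs4] at hs5
  linarith

/-- The degree inequality for curves. -/
theorem curve_sub {K L : Type} [Field K] [Field L] [Algebra k0 K] [Algebra K L]
    [IsAlgClosed K] [CharZero K] [IsFF K L] [Fintype A] [DecidableEq A]
    {dg : A → ι → ℕ} (hP : ∀ a j, IsMulti (P a j) (dg a)) (C : Finset A)
    {V : Set (MvPolynomial (Vr n) k0)} (hVh : ∀ f ∈ V, ∃ d, IsMulti f d)
    {m s : ℕ} {mi : ι → ℕ} (hV : MDimLE k0 V m)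
    (hVi : ∀ i, PrDimLE k0 V i (mi i))
    {c0 : ∀ i, Fin (n i + 1)} (hSt : ∀ a j e, (∀ i, e i ≤ dg a i) →
      ∃ j', P a j' = monomial (sM c0 (dg a) j e) 1)
    (t : ∀ a, J a → K) (h0 : ∀ a, t a (j0 a) ≠ 0)
    {B : Set (Bt j0)} (hB : Nat.card {b : Bt j0 // b ∉ B} ≤ s)
    (hind : AlgebraicIndependent k0 fun p : B => t p.1.1 p.1.2.1 / t p.1.1 (j0 p.1.1))
    {F : A → MvPolynomial (Vr n) K}
    (hF : ∀ a, F a = ∑ j, MvPolynomial.C (t a j) * map (algebraMap k0 K) (P a j))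
    {x : Vr n → L} (hx : ∀ i, x ⟨i, c0 i⟩ ≠ 0)
    (hnc : ∃ (i : ι) (j l : Fin (n i + 1)), Transcendental K (x ⟨i, j⟩ / x ⟨i, l⟩))
    (hxV : ∀ f ∈ V, aeval x (map (algebraMap k0 K) f) = 0)
    (hC : ∀ a ∈ C, aeval x (F a) = 0) (hBd : ∀ a, a ∉ C → aeval x (F a) ≠ 0) :
    {Q : Place K L | ∃ b, b ∉ C ∧
      ∑ i, (dg b i : ℤ) * pord Q (fun j => x ⟨i, j⟩) < Q.ord (aeval x (F b))}.Finite ∧
    ∑ i, num C dg mi 1 m s i * pht K (fun j => x ⟨i, j⟩) ≤ canDeg K L +
      {Q : Place K L | ∃ b, b ∉ C ∧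
        ∑ i, (dg b i : ℤ) * pord Q (fun j => x ⟨i, j⟩) < Q.ord (aeval x (F b))}.ncard := by
  obtain ⟨lam, hlam⟩ : ∃ lam : ι → L, ∀ i, lam i = x ⟨i, c0 i⟩ := ⟨_, fun _ => rfl⟩
  have hl : ∀ i, lam i ≠ 0 := fun i => by rw [hlam]; exact hx i
  obtain ⟨x', hx'⟩ : ∃ x' : Vr n → L, x' = sc (fun i => (lam i)⁻¹) x := ⟨_, rfl⟩
  have hxx : x = sc lam x' := by
    funext p
    rw [hx']
    change x p = lam p.1 * ((lam p.1)⁻¹ * x p)
    rw [mul_inv_cancel_left₀ (hl _)]
  have hx1 : ∀ i, x' ⟨i, c0 i⟩ = 1 := fun i => by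
    rw [hx']
    change (lam i)⁻¹ * x ⟨i, c0 i⟩ = 1
    rw [← hlam, inv_mul_cancel₀ (hl i)]
  obtain ⟨c, hc⟩ : ∃ c : Bt j0 → K, ∀ p, c p = t p.1 p.2.1 / t p.1 (j0 p.1) := ⟨_, fun _ => rfl⟩
  have hc' : c = fun p : Bt j0 => t p.1 p.2.1 / t p.1 (j0 p.1) := funext hc
  have hFa : ∀ a, F a = MvPolynomial.C (t a (j0 a)) * NF P j0 c a := fun a => by
    rw [hF, form_eq t h0, ← hc']
  have hFx : ∀ a, aeval x (F a) = algebraMap K L (t a (j0 a)) * ((∏ i, lam i ^ dg a i) *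
      aeval x' (NF P j0 c a)) := fun a => by
    rw [hFa, map_mul, aeval_C]
    congr 1
    conv_lhs => rw [hxx]
    exact aeval_sc (NF_multi hP c a) lam x'
  have ht0 : ∀ a, algebraMap K L (t a (j0 a)) ≠ 0 := fun a h => h0 a ((map_eq_zero _).1 h)
  have hl0 : ∀ a, (∏ i, lam i ^ dg a i) ≠ 0 := fun a =>
    Finset.prod_ne_zero_iff.2 fun i _ => pow_ne_zero _ (hl i)
  have hxe : ∀ i, (fun j => x ⟨i, j⟩) = fun j => lam i * x' ⟨i, j⟩ := by
    intro i
    funext j
    rw [hxx]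
    rfl
  have hpo : ∀ (Q : Place K L) i, pord Q (fun j => x ⟨i, j⟩) =
      Q.ord (lam i) + pord Q (fun j => x' ⟨i, j⟩) := by
    intro Q i
    rw [hxe]
    exact Pool.Agent.W603.PV.pord_scale Q (f := fun j => x' ⟨i, j⟩) ⟨c0 i, by
      rw [hx1]; exact one_ne_zero⟩ (hl i)
  have hph : ∀ i, pht K (fun j => x ⟨i, j⟩) = pht K (fun j => x' ⟨i, j⟩) := by
    intro i
    rw [hxe]
    exact pht_scale (f := fun j => x' ⟨i, j⟩) ⟨c0 i, by
      rw [hx1]; exact one_ne_zero⟩ (hl i)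
  obtain ⟨p0, hp0⟩ : ∃ p0, Transcendental K (x' p0) := by
    obtain ⟨i, j, l, h⟩ := hnc
    by_contra hcon
    push Not at hcon
    apply h
    have h1 : ∀ p, IsAlgebraic K (x' p) := fun p => not_not.1 (hcon p)
    have h2 : x ⟨i, j⟩ / x ⟨i, l⟩ = x' ⟨i, j⟩ / x' ⟨i, l⟩ := by
      rw [hxx]
      change lam i * x' ⟨i, j⟩ / (lam i * x' ⟨i, l⟩) = _
      rw [mul_div_mul_left _ _ (hl i)]
    rw [h2, div_eq_mul_inv]
    exact (h1 _).mul (h1 _).inv
  have h1 := curve_chart (c := c) hP C hV hVi hSt hB (by simpa only [hc] using hind) hx1 hp0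
    (fun f hf => by
      obtain ⟨d, hd⟩ := hVh f hf
      rw [hx', aeval_sc (hd.map _), hxV f hf, mul_zero]) (F := NF P j0 c) (fun _ => rfl)
    (fun a ha => by
      have h2 := hC a ha
      rw [hFx] at h2
      exact (mul_eq_zero.1 ((mul_eq_zero.1 h2).resolve_left (ht0 a))).resolve_left (hl0 a))
    (fun a ha h2 => hBd a ha (by rw [hFx, h2, mul_zero, mul_zero]))
  have h2 : {Q : Place K L | ∃ b, b ∉ C ∧
      ∑ i, (dg b i : ℤ) * pord Q (fun j => x ⟨i, j⟩) < Q.ord (aeval x (F b))} =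
      {Q : Place K L | ∃ b, b ∉ C ∧
      ∑ i, (dg b i : ℤ) * pord Q (fun j => x' ⟨i, j⟩) < Q.ord (aeval x' (NF P j0 c b))} := by
    ext Q
    refine exists_congr fun b => and_congr_right fun hb => ?_
    have h3 : aeval x' (NF P j0 c b) ≠ 0 := by
      intro h
      apply hBd b hb
      rw [hFx, h, mul_zero, mul_zero]
    rw [hFx, Q.ord_mul (ht0 b) (mul_ne_zero (hl0 b) h3), Q.ord_const (h0 b), zero_add,
      Q.ord_mul (hl0 b) h3, Pool.Agent.TH145.GC.ord_prod Q _ _ fun i _ =>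
        pow_ne_zero _ (hl i)]
    simp only [hpo, mul_add, Finset.sum_add_distrib, Q.ord_pow]
    constructor
    · intro h; linarith
    · intro h; linarith
  rw [h2]
  simp only [hph]
  exact h1

end Pool.Agent.Run7.h621.MP
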