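import Pool.Agent.Run7.h621.MP.Chart
import Pool.Agent.Run7.h621.NG.Local
import Pool.Agent.TH145.GC.Ineq

/-!
The order of the determinant of the rows at a place.
-/

set_option autoImplicit false
set_option linter.unusedSectionVars false

open MvPolynomial FF Pool.Agent.W603.LV Pool.Agent.W603.PV Pool.Agent.TH145.GH
open Pool.Agent.TH145.GC (ord_prod)
open Pool.Agent.Run7.h621.NG (dt dt_lin dt_cols dt_rows dt_tri dt_diag dt_ne_zero ge_dt)

namespace Pool.Agent.Run7.h621.MP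

variable {k L : Type} [Field k] [Field L] [Algebra k L] {ι : Type} [Fintype ι] [DecidableEq ι]
  {n : ι → ℕ} {A S X τ υ : Type}

/-- The orders of the poles of a point at a place. -/
noncomputable def ph (P : Place k L) (x : Vr n → L) (i : ι) : ℤ := - pord P (fun j => x ⟨i, j⟩)

/-- A normalised representative of a point at a place. -/
structure Norm (P : Place k L) (x : Vr n → L) (lam : ι → L) (x' : Vr n → L) : Prop where
  ne : ∀ i, lam i ≠ 0
  eq : x = sc lam x'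
  ge : ∀ p, Ge P 0 (x' p)
  one : ∀ i, ∃ j, x' ⟨i, j⟩ = 1

theorem exists_norm (P : Place k L) {x : Vr n → L} (hx : ∀ i, ∃ j, x ⟨i, j⟩ ≠ 0) :
    ∃ (lam : ι → L) (x' : Vr n → L), Norm P x lam x' ∧ ∀ i, P.ord (lam i) = - ph P x i := by
  have h1 : ∀ i, ∃ (lam : L) (x' : Fin (n i + 1) → L), lam ≠ 0 ∧
      P.ord lam = pord P (fun j => x ⟨i, j⟩) ∧ (fun j => x ⟨i, j⟩) = lam • x' ∧
      (∀ l, Ge P 0 (x' l)) ∧ ∃ l, x' l = 1 := fun i =>
    exists_scaled P (Function.ne_iff.2 (hx i))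
  choose lam x' h1 h2 h3 h4 h5 using h1
  refine ⟨lam, fun p => x' p.1 p.2, ⟨h1, ?_, fun p => h4 _ _, fun i => h5 i⟩, fun i => ?_⟩
  · funext p
    exact congrFun (h3 p.1) p.2
  · rw [h2, ph, neg_neg]

theorem ph_nonneg (P : Place k L) {x : Vr n → L} {c : ∀ i, Fin (n i + 1)}
    (hc : ∀ i, x ⟨i, c i⟩ = 1) (i : ι) : 0 ≤ ph P x i := by
  have h1 := pord_le P (f := fun j => x ⟨i, j⟩) (j := c i) (by
    rw [hc]
    exact one_ne_zero)
  change pord P (fun j => x ⟨i, j⟩) ≤ P.ord (x ⟨i, c i⟩) at h1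
  rw [hc, P.ord_one] at h1
  rw [ph]
  omega

theorem ge_ph (P : Place k L) (x : Vr n → L) (p : Vr n) : Ge P (- ph P x p.1) (x p) := by
  rw [ph, neg_neg]
  exact ge_pord P (fun j => x ⟨p.1, j⟩) p.2

/-- The weights of the unit vectors. -/
def wt (h : ι → ℤ) : Vr n ⊕ S → ℤ := Sum.elim (fun p => h p.1) fun _ => 0

/-- The order of the determinant of the rows at a place. -/
theorem ord_dt [Fintype S] [DecidableEq S] [Fintype X] [Fintype τ] [Fintype A] [Fintype υ]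
    (P : Place k L) {c : ∀ i, Fin (n i + 1)} {dg : A → ι → ℕ}
    {D : A → (Vr n →₀ ℕ) → Derivation ℤ L L} {θ : A → (Vr n →₀ ℕ) → S → L} {κ : ι → S → L}
    {E : X → Derivation ℤ L L} {η : X → S → L} {t : τ → Ti A n}
    (e : Vr n ⊕ S ≃ (ι ⊕ (X ⊕ τ)) ⊕ (A ⊕ υ)) {x : Vr n → L} (hc : ∀ i, x ⟨i, c i⟩ = 1)
    (hsp : Spans c dg D θ κ E η t x) (u : υ → Vr n ⊕ S) {e' : ℤ}
    (hD : ∀ f, Ge P 0 f → ∀ a j e, (∀ i, e i ≤ dg a i) → Ge P (-e') (D a (sM c (dg a) j e) f))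
    (hθ : ∀ lam x', Norm P x lam x' → ∀ a j e, (∀ i, e i ≤ dg a i) → ∀ s,
      Ge P (-e') (sT κ lam (D a (sM c (dg a) j e)) (θ a (sM c (dg a) j e)) s))
    (hE : ∀ f, Ge P 0 f → ∀ ξ, Ge P 0 (E ξ f))
    (hη : ∀ lam x', Norm P x lam x' → ∀ ξ s, Ge P 0 (sT κ lam (E ξ) (η ξ) s))
    (hκ : ∀ i s, Ge P 0 (κ i s))
    (hne : dt e (row c dg D θ κ E η t (fun a => cor c (dg a)) (fun y => Pi.single (u y) 1) x) ≠ 0) :
    ∑ i, (∑ a, (dg a i : ℤ)) * ph P x i - ∑ p : Vr n, ph P x p.1 - ∑ y, ph P x (t y).2.2.2 +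
      ∑ y, wt (ph P x) (u y) - ((Fintype.card τ : ℤ) + Fintype.card A) * e' ≤
    P.ord (dt e (row c dg D θ κ E η t (fun a => cor c (dg a)) (fun y => Pi.single (u y) 1) x)) := by
  obtain ⟨lam, x', hN, hlam⟩ := exists_norm P (x := x) fun i => ⟨c i, by
    rw [hc]; exact one_ne_zero⟩
  have hN' := hN
  obtain ⟨hl, hx, hx', h1'⟩ := hN
  choose j hj using h1'
  obtain ⟨h, hh⟩ : ∃ h, h = ph P x := ⟨_, rfl⟩
  rw [← hh] at hlam ⊢
  obtain ⟨u', hu'⟩ : ∃ u' : υ → Vr n ⊕ S → L, u' = fun y => Pi.single (u y) 1 := ⟨_, rfl⟩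
  rw [← hu'] at hne ⊢
  have h1 := dt_chart (c := c) (dg := dg) (D := D) (θ := θ) (κ := κ) (E := E) (η := η) (t := t)
    e hl hj (by rw [← hx]; exact hc) (by rw [← hx]; exact hsp) u'
  rw [← hx] at h1
  obtain ⟨Θ, hΘ⟩ : ∃ Θ, Θ = dt e (row c dg D θ κ E η t (fun a => cor c (dg a)) u' x) := ⟨_, rfl⟩
  rw [← hΘ] at h1 hne ⊢
  obtain ⟨v', hv'⟩ : ∃ v', v' = row c dg D (fun a I => sT κ lam (D a I) (θ a I)) κ E
    (fun ξ => sT κ lam (E ξ) (η ξ)) t (fun a => cor j (dg a))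
    (fun y q => cS S lam q * u' y q) x' := ⟨_, rfl⟩
  rw [← hv'] at h1
  have p1 : (∏ p : Vr n, (lam p.1)⁻¹) ≠ 0 := Finset.prod_ne_zero_iff.2 fun p _ => inv_ne_zero (hl _)
  have p2 : (∏ a, ∏ i, (lam i)⁻¹ ^ dg a i) ≠ 0 := Finset.prod_ne_zero_iff.2 fun a _ =>
    Finset.prod_ne_zero_iff.2 fun i _ => pow_ne_zero _ (inv_ne_zero (hl i))
  have p3 : (∏ y, lam (t y).2.2.2) ≠ 0 := Finset.prod_ne_zero_iff.2 fun y _ => hl _
  have hv'0 : dt e v' ≠ 0 := by
    intro h2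
    rw [h2, mul_zero, mul_zero] at h1
    exact mul_ne_zero p1 hne h1
  have h2 := congrArg P.ord h1
  rw [P.ord_mul p1 hne, P.ord_mul p2 (mul_ne_zero p3 hv'0), P.ord_mul p3 hv'0,
    ord_prod P _ _ fun p _ => inv_ne_zero (hl _), ord_prod P _ _ fun a _ =>
      Finset.prod_ne_zero_iff.2 fun i _ => pow_ne_zero _ (inv_ne_zero (hl i)),
    ord_prod P _ _ fun y _ => hl _] at h2
  have h3 : ∑ p : Vr n, P.ord (lam p.1)⁻¹ = ∑ p : Vr n, h p.1 :=
    Finset.sum_congr rfl fun p _ => by rw [P.ord_inv, hlam, neg_neg]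
  have h4 : ∑ a, P.ord (∏ i, (lam i)⁻¹ ^ dg a i) = ∑ i, (∑ a, (dg a i : ℤ)) * h i := by
    simp only [Finset.sum_mul]
    rw [Finset.sum_comm]
    refine Finset.sum_congr rfl fun a _ => ?_
    rw [ord_prod P _ _ fun i _ => pow_ne_zero _ (inv_ne_zero (hl i))]
    refine Finset.sum_congr rfl fun i _ => ?_
    rw [P.ord_pow, P.ord_inv, hlam, neg_neg]
  have h5 : ∑ y, P.ord (lam (t y).2.2.2) = - ∑ y, h (t y).2.2.2 := by
    rw [← Finset.sum_neg_distrib]
    exact Finset.sum_congr rfl fun y _ => hlam _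
  rw [h3, h4, h5] at h2
  have hR : ∀ a j e, (∀ i, e i ≤ dg a i) → ∀ q,
      Ge P (-e') (R D (fun a I => sT κ lam (D a I) (θ a I)) x' a (sM c (dg a) j e) q) := by
    intro a j e he q
    rcases q with p | s
    · exact hD _ (hx' p) a j e he
    · exact hθ lam x' hN' a j e he s
  have h6 := ge_dt P e (v := v') (w := fun i => match i with
    | Sum.inl (Sum.inl _) => 0
    | Sum.inl (Sum.inr (Sum.inl _)) => 0
    | Sum.inl (Sum.inr (Sum.inr _)) => -e'
    | Sum.inr (Sum.inl _) => -e'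
    | Sum.inr (Sum.inr y) => wt h (u y)) (by
    rw [hv']
    rintro ((i | ξ | y) | (a | y)) q
    · rcases q with p | s
      · change Ge P 0 (if p.1 = i then x' p else 0)
        split_ifs
        · exact hx' p
        · exact Ge.zero
      · exact hκ i s
    · rcases q with p | s
      · exact hE _ (hx' p) ξ
      · exact hη lam x' hN' ξ s
    · change Ge P (-e') (T c dg D (fun a I => sT κ lam (D a I) (θ a I)) x' (t y) q)
      rw [T]
      split_ifs with hy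
      · refine Ge.mono (by omega : -e' ≤ 0 + -e') (Ge.sub ?_ ?_)
        · exact (hx' _).mul (hR _ _ _ (fun i => hy.up i) q)
        · exact (hx' _).mul (hR _ _ _ hy.1 q)
      · exact Ge.zero
    · change Ge P (-e') (R D (fun a I => sT κ lam (D a I) (θ a I)) x' a (cor j (dg a)) q)
      rw [← sM_top c (dg a) j]
      exact hR a j _ (fun _ => le_rfl) q
    · change Ge P (wt h (u y)) (cS S lam q * u' y q)
      rw [hu']
      change Ge P (wt h (u y)) (cS S lam q * (Pi.single (u y) 1 : Vr n ⊕ S → L) q)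
      rw [Pi.single_apply]
      split_ifs with hq
      · rw [hq, mul_one]
        rcases u y with p | s
        · refine Or.inr ?_
          change h p.1 ≤ P.ord (lam p.1)⁻¹
          rw [P.ord_inv, hlam, neg_neg]
        · exact Ge.one
      · rw [mul_zero]
        exact Ge.zero)
  rw [Fintype.sum_sum_type, Fintype.sum_sum_type, Fintype.sum_sum_type, Fintype.sum_sum_type] at h6
  simp only [Finset.sum_const_zero, Finset.sum_const, Finset.card_univ, nsmul_eq_mul,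
    zero_add] at h6
  have h7 := h6.resolve_left hv'0
  linarith

end Pool.Agent.Run7.h621.MP
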