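import Pool.Agent.Run7.h621.MP.Log
import Pool.Agent.Run7.h621.NG.Final

/-!
Subvarieties of logarithmic pairs are of logarithmic general type.
-/

set_option autoImplicit false
set_option linter.unusedSectionVars false

open MvPolynomial FF Pool.Agent.W603.LV Pool.Agent.W603.PV Pool.Agent.TH145.GH
open Pool.Agent.W602.GT Pool.Agent.TH145.GF Pool.Agent.TH145.MG
open Pool.Agent.Run7.h621.FV (cd coeff_cd exists_tb)
open Pool.Agent.Run7.h621.NG (Bt cj)

namespace Pool.Agent.Run7.h621.MP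

variable {k0 A ι : Type} [Field k0] [Fintype ι] [DecidableEq ι] {n : ι → ℕ} {J : A → Type}
  [∀ a, Fintype (J a)] {P : ∀ a, J a → MvPolynomial (Vr n) k0} {j0 : ∀ a, J a}

/-- The factor `i` of the point is constant. -/
def CstAt (K : Type) {L : Type} [Field K] [Field L] [Algebra K L] (x : Vr n → L) (i : ι) : Prop :=
  ∃ (z : Fin (n i + 1) → K) (r : L), ∀ j, x ⟨i, j⟩ = r * algebraMap K L (z j)

/-- Subvarieties are of log general type, in a chart. -/
theorem log_chart {K L : Type} [Field K] [Field L] [Algebra k0 K] [Algebra K L]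
    [IsAlgClosed K] [CharZero K] [Fintype A] [DecidableEq A]
    {dg : A → ι → ℕ} (hP : ∀ a j, IsMulti (P a j) (dg a)) (C : Finset A)
    {V : Set (MvPolynomial (Vr n) k0)} {m s w : ℕ} {mi : ι → ℕ} (hV : MDimLE k0 V m)
    (hVi : ∀ i, PrDimLE k0 V i (mi i))
    {c0 : ∀ i, Fin (n i + 1)} (hSt : ∀ a j e, (∀ i, e i ≤ dg a i) →
      ∃ j', P a j' = monomial (sM c0 (dg a) j e) 1) (hw : 0 < w)
    {c : Bt j0 → K} {B : Set (Bt j0)} (hB : Nat.card {b : Bt j0 // b ∉ B} ≤ s)
    (hind : AlgebraicIndependent k0 fun b : B => c b) (htr : Algebra.trdeg K L = w)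
    {x : Vr n → L} (hx : ∀ i, x ⟨i, c0 i⟩ = 1)
    (hnum : ∀ i, (∀ j, ∃ z : K, x ⟨i, j⟩ = algebraMap K L z) ∨
      m + mi i + s + 2 ≤ ∑ a, dg a i + C.card + w)
    (hgen : Algebra.IsAlgebraic (IntermediateField.adjoin K (Set.range x)) L)
    (hxV : ∀ f ∈ V, aeval x (map (algebraMap k0 K) f) = 0)
    {F : A → MvPolynomial (Vr n) K} (hF : ∀ a, F a = NF P j0 c a)
    (hC : ∀ a ∈ C, aeval x (F a) = 0) (hBd : ∀ a, a ∉ C → aeval x (F a) ≠ 0) :
    LogGeneralType K L w fun Q : Place K L => ∃ b, b ∉ C ∧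
      ∑ i, (dg b i : ℤ) * pord Q (fun j => x ⟨i, j⟩) < Q.ord (aeval x (F b)) := by
  classical
  let _ : Algebra k0 L := ((algebraMap K L).comp (algebraMap k0 K)).toAlgebra
  have hst : IsScalarTower k0 K L := IsScalarTower.of_algebraMap_eq fun _ => rfl
  have hx0 : ∀ i, ∃ j, x ⟨i, j⟩ ≠ 0 := fun i => ⟨c0 i, by rw [hx]; exact one_ne_zero⟩
  have hxV' : ∀ f ∈ V, aeval x f = 0 := by
    intro f hf
    have h1 := hxV f hf
    rwa [aeval_map_algebraMap] at h1
  have hev : ∀ a, aeval x (F a) = eval x (map (algebraMap K L) (F a)) := fun a => by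
    rw [eval_map, aeval_def]
  obtain ⟨Δ, l, E, hl, hΔE, hlin, hΔ⟩ := core_forms (c := c) (F := fun a => map (algebraMap K L) (F a))
    (s := s) hP C hSt hw hB hind htr hx hgen
    (hV L x hx0 hxV') (fun i => hVi i L x hx0 hxV') (fun a => by rw [hF])
    (fun a ha => by rw [← hev]; exact hC a ha) (fun a ha => by rw [← hev]; exact hBd a ha)
  obtain ⟨t, ht⟩ : ∃ t : Fin w → L, ∀ i, t i = x (l i) := ⟨_, fun _ => rfl⟩
  have htb : IsTranscendenceBasis K t := by
    have : t = fun i => x (l i) := funext ht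
    rw [this]
    exact hl
  obtain ⟨y, hy⟩ : ∃ y : Fin (w + 1) → L, y = Fin.cons 1 t := ⟨_, rfl⟩
  -- the signs
  have hnn : ∀ (Q : Place K L) i, 0 ≤ num C dg mi w m s i * ph Q x i := by
    intro Q i
    rcases hnum i with h | h
    · rw [ph_const Q h (j := c0 i) (by rw [hx]; exact one_ne_zero), mul_zero]
    · refine mul_nonneg ?_ (ph_nonneg Q hx i)
      unfold num
      zify at h
      linarith
  have hreg : ∀ (Q : Place K L) (z : L) (j : Fin (w + 1)),
      Ge Q (∑ i, num C dg mi w m s i * ph Q x i) z → Ge Q 0 (z * y j) := by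
    intro Q z j hz
    rw [hy]
    refine Fin.cases ?_ (fun i => ?_) j
    · rw [Fin.cons_zero, mul_one]
      exact hz.mono (Finset.sum_nonneg fun i _ => hnn Q i)
    · rw [Fin.cons_succ, ht]
      have h1 := hz.mul (ge_ph Q x (l i))
      refine h1.mono ?_
      have h2 : ¬ ∀ j, ∃ z : K, x ⟨(l i).1, j⟩ = algebraMap K L z := by
        intro h
        obtain ⟨z, hz⟩ := h (l i).2
        have h3 := hl.1.transcendental i
        apply h3
        change IsAlgebraic K (x (l i))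
        have h4 : x (l i) = algebraMap K L z := hz
        rw [h4]
        exact isAlgebraic_algebraMap z
      have h3 := (hnum (l i).1).resolve_left h2
      have h4 : num C dg mi w m s (l i).1 * ph Q x (l i).1 ≤
          ∑ i, num C dg mi w m s i * ph Q x i :=
        Finset.single_le_sum (f := fun i => num C dg mi w m s i * ph Q x i)
          (fun i _ => hnn Q i) (Finset.mem_univ _)
      have h5 : 1 ≤ num C dg mi w m s (l i).1 := by
        unfold num
        zify at h3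
        linarith
      have h6 := mul_le_mul_of_nonneg_right h5 (ph_nonneg Q hx (l i).1)
      linarith
  refine ⟨htr, 1, one_pos, fun j Dd => Δ Dd * y j, fun j M Dd => ?_, fun Q hQ j Dd hDd => ?_,
    fun Q hQ hQB j Dd hDd => ?_, E, ?_, ?_⟩
  · change Δ _ * y j = M.det ^ 1 * (Δ Dd * y j)
    rw [pow_one, hlin M _ Dd (fun i f => ?_)]
    · ring
    · rw [← Derivation.coeFnAddMonoidHom_apply, map_sum, Finset.sum_apply]
      rfl
  · exact hreg Q _ j (hΔ Q hQ Dd (Or.inl hDd))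
  · refine hreg Q _ j (hΔ Q hQ Dd (Or.inr ⟨hDd, fun b hb h => hQB ⟨b, hb, ?_⟩⟩))
    rwa [hev]
  · rw [hy]
    change Δ E * (Fin.cons 1 t : Fin (w + 1) → L) 0 ≠ 0
    rw [Fin.cons_zero, mul_one]
    exact hΔE
  · have h1 : (fun i : Fin w => Δ E * y i.succ / (Δ E * y 0)) = t := by
      funext i
      rw [hy, Fin.cons_succ, Fin.cons_zero, mul_one, mul_div_cancel_left₀ _ hΔE]
    change AlgebraicIndependent K (fun i : Fin w => Δ E * y i.succ / (Δ E * y 0))
    rw [h1]
    exact htb.1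

theorem form_eq {K : Type} [Field K] [Algebra k0 K] (t : ∀ a, J a → K) (h0 : ∀ a, t a (j0 a) ≠ 0)
    (a : A) : ∑ j, MvPolynomial.C (t a j) * map (algebraMap k0 K) (P a j) =
      MvPolynomial.C (t a (j0 a)) * NF P j0 (fun p : Bt j0 => t p.1 p.2.1 / t p.1 (j0 p.1)) a := by
  rw [NF, Finset.mul_sum]
  refine Finset.sum_congr rfl fun j _ => ?_
  rw [← mul_assoc, ← MvPolynomial.C_mul, cj]
  split_ifs with h
  · rw [h, mul_one]
  · rw [mul_div_cancel₀ _ (h0 a)]

theorem aeval_sc {k L : Type} [Field k] [Field L] [Algebra k L] {F : MvPolynomial (Vr n) k}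
    {d : ι → ℕ} (hF : IsMulti F d) (lam : ι → L) (x : Vr n → L) :
    aeval (sc lam x) F = (∏ i, lam i ^ d i) * aeval x F := by
  have h1 : ∀ x : Vr n → L, aeval x F = eval x (map (algebraMap k L) F) := fun x => by
    rw [eval_map, aeval_def]
  rw [h1, h1]
  exact eval_sc (hF.map _) lam x

/-- Subvarieties are of log general type. -/
theorem log_sub {K L : Type} [Field K] [Field L] [Algebra k0 K] [Algebra K L]
    [IsAlgClosed K] [CharZero K] [Fintype A] [DecidableEq A]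
    {dg : A → ι → ℕ} (hP : ∀ a j, IsMulti (P a j) (dg a)) (C : Finset A)
    {V : Set (MvPolynomial (Vr n) k0)} (hVh : ∀ f ∈ V, ∃ d, IsMulti f d)
    {m s w : ℕ} {mi : ι → ℕ} (hV : MDimLE k0 V m)
    (hVi : ∀ i, PrDimLE k0 V i (mi i))
    {c0 : ∀ i, Fin (n i + 1)} (hSt : ∀ a j e, (∀ i, e i ≤ dg a i) →
      ∃ j', P a j' = monomial (sM c0 (dg a) j e) 1) (hw : 0 < w)
    (t : ∀ a, J a → K) (h0 : ∀ a, t a (j0 a) ≠ 0)
    {B : Set (Bt j0)} (hB : Nat.card {b : Bt j0 // b ∉ B} ≤ s)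
    (hind : AlgebraicIndependent k0 fun p : B => t p.1.1 p.1.2.1 / t p.1.1 (j0 p.1.1))
    {F : A → MvPolynomial (Vr n) K}
    (hF : ∀ a, F a = ∑ j, MvPolynomial.C (t a j) * map (algebraMap k0 K) (P a j))
    (htr : Algebra.trdeg K L = w)
    {x : Vr n → L} (hx : ∀ i, x ⟨i, c0 i⟩ ≠ 0)
    (hnum : ∀ i, CstAt K x i ∨ m + mi i + s + 2 ≤ ∑ a, dg a i + C.card + w)
    (hgen : Algebra.IsAlgebraic (mcoords K x) L)
    (hxV : ∀ f ∈ V, aeval x (map (algebraMap k0 K) f) = 0)
    (hC : ∀ a ∈ C, aeval x (F a) = 0) (hBd : ∀ a, a ∉ C → aeval x (F a) ≠ 0) :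
    LogGeneralType K L w fun Q : Place K L => ∃ b, b ∉ C ∧
      ∑ i, (dg b i : ℤ) * pord Q (fun j => x ⟨i, j⟩) < Q.ord (aeval x (F b)) := by
  obtain ⟨lam, hlam⟩ : ∃ lam : ι → L, ∀ i, lam i = x ⟨i, c0 i⟩ := ⟨_, fun _ => rfl⟩
  have hl : ∀ i, lam i ≠ 0 := fun i => by rw [hlam]; exact hx i
  obtain ⟨x', hx'⟩ : ∃ x' : Vr n → L, x' = sc (fun i => (lam i)⁻¹) x := ⟨_, rfl⟩
  have hxx : x = sc lam x' := by
    funext p
    rw [hx']
    change x p = lam p.1 * ((lam p.1)⁻¹ * x p)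
    rw [mul_inv_cancel_left₀ (hl _)]
  have hx1 : ∀ i, x' ⟨i, c0 i⟩ = 1 := fun i => by
    rw [hx']
    change (lam i)⁻¹ * x ⟨i, c0 i⟩ = 1
    rw [← hlam, inv_mul_cancel₀ (hl i)]
  obtain ⟨c, hc⟩ : ∃ c : Bt j0 → K, ∀ p, c p = t p.1 p.2.1 / t p.1 (j0 p.1) := ⟨_, fun _ => rfl⟩
  have hc' : c = fun p : Bt j0 => t p.1 p.2.1 / t p.1 (j0 p.1) := funext hc
  have hFa : ∀ a, F a = MvPolynomial.C (t a (j0 a)) * NF P j0 c a := fun a => by
    rw [hF, form_eq t h0, ← hc']
  have hFx : ∀ a, aeval x (F a) = algebraMap K L (t a (j0 a)) * ((∏ i, lam i ^ dg a i) *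
      aeval x' (NF P j0 c a)) := fun a => by
    rw [hFa, map_mul, aeval_C]
    congr 1
    conv_lhs => rw [hxx]
    exact aeval_sc (NF_multi hP c a) lam x'
  have ht0 : ∀ a, algebraMap K L (t a (j0 a)) ≠ 0 := fun a h => h0 a ((map_eq_zero _).1 h)
  have hl0 : ∀ a, (∏ i, lam i ^ dg a i) ≠ 0 := fun a =>
    Finset.prod_ne_zero_iff.2 fun i _ => pow_ne_zero _ (hl i)
  have hmc : IntermediateField.adjoin K (Set.range x') = mcoords K x := by
    apply le_antisymm
    · rw [IntermediateField.adjoin_le_iff]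
      rintro _ ⟨⟨i, j⟩, rfl⟩
      refine IntermediateField.subset_adjoin _ _ ⟨i, j, c0 i, hx i, ?_⟩
      rw [hx']
      change (lam i)⁻¹ * x ⟨i, j⟩ = _
      rw [hlam, div_eq_inv_mul]
    · rw [mcoords, IntermediateField.adjoin_le_iff]
      rintro _ ⟨i, j, l, h, rfl⟩
      have h1 : x ⟨i, j⟩ / x ⟨i, l⟩ = x' ⟨i, j⟩ / x' ⟨i, l⟩ := by
        rw [hxx]
        change lam i * x' ⟨i, j⟩ / (lam i * x' ⟨i, l⟩) = _
        rw [mul_div_mul_left _ _ (hl i)]
      rw [h1]
      exact div_mem (IntermediateField.subset_adjoin _ _ ⟨_, rfl⟩)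
        (IntermediateField.subset_adjoin _ _ ⟨_, rfl⟩)
  have hpo : ∀ (Q : Place K L) i, pord Q (fun j => x ⟨i, j⟩) =
      Q.ord (lam i) + pord Q (fun j => x' ⟨i, j⟩) := by
    intro Q i
    have h1 : (fun j => x ⟨i, j⟩) = fun j => lam i * x' ⟨i, j⟩ := by
      funext j
      rw [hxx]
      rfl
    rw [h1]
    exact Pool.Agent.W603.PV.pord_scale Q (f := fun j => x' ⟨i, j⟩) ⟨c0 i, by
      rw [hx1]; exact one_ne_zero⟩ (hl i)
  have h1 := log_chart (c := c) hP C hV hVi hSt hw hB (by simpa only [hc] using hind) htr hx1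
    (fun i => by
      rcases hnum i with ⟨z, r, h⟩ | h
      · left
        intro j
        have h2 : r ≠ 0 := by
          rintro rfl
          apply hx i
          rw [h, zero_mul]
        have h3 : algebraMap K L (z (c0 i)) ≠ 0 := by
          intro h4
          apply hx i
          rw [h, h4, mul_zero]
        refine ⟨z j / z (c0 i), ?_⟩
        rw [hx', map_div₀]
        change (lam i)⁻¹ * x ⟨i, j⟩ = _
        rw [hlam, h, h, mul_inv, ← mul_assoc, mul_assoc r⁻¹, mul_comm _ r, ← mul_assoc,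
          inv_mul_cancel₀ h2, one_mul, div_eq_inv_mul]
      · exact Or.inr h) (by rw [hmc]; exact hgen) (fun f hf => by
      obtain ⟨d, hd⟩ := hVh f hf
      rw [hx', aeval_sc (hd.map _), hxV f hf, mul_zero]) (F := NF P j0 c) (fun _ => rfl)
    (fun a ha => by
      have h2 := hC a ha
      rw [hFx] at h2
      exact (mul_eq_zero.1 ((mul_eq_zero.1 h2).resolve_left (ht0 a))).resolve_left (hl0 a))
    (fun a ha h2 => hBd a ha (by rw [hFx, h2, mul_zero, mul_zero]))
  have h2 : (fun Q : Place K L => ∃ b, b ∉ C ∧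
      ∑ i, (dg b i : ℤ) * pord Q (fun j => x ⟨i, j⟩) < Q.ord (aeval x (F b))) =
      fun Q : Place K L => ∃ b, b ∉ C ∧
      ∑ i, (dg b i : ℤ) * pord Q (fun j => x' ⟨i, j⟩) < Q.ord (aeval x' (NF P j0 c b)) := by
    funext Q
    refine propext (exists_congr fun b => and_congr_right fun hb => ?_)
    have h3 : aeval x' (NF P j0 c b) ≠ 0 := by
      intro h
      apply hBd b hb
      rw [hFx, h, mul_zero, mul_zero]
    rw [hFx, Q.ord_mul (ht0 b) (mul_ne_zero (hl0 b) h3), Q.ord_const (h0 b), zero_add,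
      Q.ord_mul (hl0 b) h3, Pool.Agent.TH145.GC.ord_prod Q _ _ fun i _ =>
        pow_ne_zero _ (hl i)]
    simp only [hpo, mul_add, Finset.sum_add_distrib, Q.ord_pow]
    constructor
    · intro h; linarith
    · intro h; linarith
  rw [h2]
  exact h1

end Pool.Agent.Run7.h621.MP
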