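import Pool.Agent.Run7.h621.MP.Local
import Pool.Agent.Run7.h621.NG.Pick

/-!
The choice of the rows.
-/

set_option autoImplicit false
set_option linter.unusedSectionVars false

open MvPolynomial
open Pool.Agent.Run7.h621.FV (ext_family sum_indep)
open Pool.Agent.Run7.h621.NG (unit_span)

namespace Pool.Agent.Run7.h621.MP

variable {L : Type} [Field L] {ι : Type} [Fintype ι] [DecidableEq ι] {n : ι → ℕ} {A S X : Type}

/-- The projection to the coordinates of a factor. -/
def blk (L : Type) [Field L] {ι : Type} (n : ι → ℕ) (i : ι) :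
    (Vr n → L) →ₗ[L] (Fin (n i + 1) → L) where
  toFun v j := v ⟨i, j⟩
  map_add' _ _ := rfl
  map_smul' _ _ := rfl

/-- The number of the units in a factor. -/
theorem blk_card {υ : Type} [Fintype υ] {N : Submodule L (Vr n → L)} {u : υ → Vr n}
    (hu : ∀ v, N.mkQ v ∈ Submodule.span L (Set.range fun y => N.mkQ (Pi.single (u y) (1 : L))))
    {i : ι} {m : ℕ} (hN : Module.finrank L (N.map (blk L n i)) ≤ m) :
    n i + 1 ≤ (Finset.univ.filter fun y => (u y).1 = i).card + m := by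
  classical
  obtain ⟨M, hM⟩ : ∃ M, M = N.map (blk L n i) := ⟨_, rfl⟩
  rw [← hM] at hN
  obtain ⟨q, hq⟩ : ∃ q : (Vr n → L) →ₗ[L] ((Fin (n i + 1) → L) ⧸ M), q = M.mkQ ∘ₗ blk L n i :=
    ⟨_, rfl⟩
  have hqN : N ≤ LinearMap.ker q := by
    intro v hv
    rw [LinearMap.mem_ker, hq, LinearMap.comp_apply, Submodule.mkQ_apply,
      Submodule.Quotient.mk_eq_zero, hM]
    exact ⟨v, hv, rfl⟩
  obtain ⟨f, hf⟩ : ∃ f : {y : υ // y ∈ Finset.univ.filter fun y => (u y).1 = i} →
    ((Fin (n i + 1) → L) ⧸ M), f = fun y => q (Pi.single (u y.1) 1) := ⟨_, rfl⟩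
  have h1 : Submodule.span L (Set.range f) = ⊤ := by
    rw [eq_top_iff]
    rintro z -
    obtain ⟨w, rfl⟩ := M.mkQ_surjective z
    obtain ⟨v, hv⟩ : ∃ v : Vr n → L, blk L n i v = w := by
      refine ⟨fun p => if h : p.1 = i then w (h ▸ p.2) else 0, ?_⟩
      funext j
      change (if h : i = i then w (h ▸ j) else 0) = w j
      rw [dif_pos rfl]
    have h2 : M.mkQ w = N.liftQ q hqN (N.mkQ v) := by
      rw [Submodule.mkQ_apply N, Submodule.liftQ_apply, hq, LinearMap.comp_apply, hv]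
    rw [h2]
    have h3 := Submodule.mem_map_of_mem (f := N.liftQ q hqN) (hu v)
    rw [Submodule.map_span] at h3
    refine (Submodule.span_le.2 ?_) h3
    rintro _ ⟨_, ⟨y, rfl⟩, rfl⟩
    change N.liftQ q hqN (N.mkQ (Pi.single (u y) 1)) ∈ Submodule.span L (Set.range f)
    rw [Submodule.mkQ_apply, Submodule.liftQ_apply]
    by_cases hy : (u y).1 = i
    · exact Submodule.subset_span ⟨⟨y, Finset.mem_filter.2 ⟨Finset.mem_univ _, hy⟩⟩, by rw [hf]⟩
    · have h4 : q (Pi.single (u y) 1) = 0 := by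
        have h5 : blk L n i (Pi.single (u y) 1) = 0 := by
          funext j
          change (Pi.single (u y) 1 : Vr n → L) ⟨i, j⟩ = 0
          rw [Pi.single_apply, if_neg]
          intro h
          exact hy (by rw [← h])
        rw [hq, LinearMap.comp_apply, h5, map_zero]
      rw [h4]
      exact zero_mem _
  have h2 := finrank_range_le_card (R := L) f
  rw [Set.finrank, h1, finrank_top, Fintype.card_coe] at h2
  have h3 := Submodule.finrank_quotient_add_finrank M
  rw [Module.finrank_fin_fun] at h3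
  omega

/-- The choice of the rows. -/
theorem pick [Fintype A] [DecidableEq A] [Fintype S] [DecidableEq S] [Fintype X]
    {c : ∀ i, Fin (n i + 1)} {dg : A → ι → ℕ}
    {D : A → (Vr n →₀ ℕ) → Derivation ℤ L L} {θ : A → (Vr n →₀ ℕ) → S → L} {κ : ι → S → L}
    {E : X → Derivation ℤ L L} {η : X → S → L} {x : Vr n → L} (hc : ∀ i, x ⟨i, c i⟩ = 1)
    (Φ : (Vr n ⊕ S → L) →ₗ[L] (A → L)) (hΦu : ∀ i, Φ (Eu κ x i) = 0)
    (hΦE : ∀ ξ, Φ (Rd (E ξ) (η ξ) x) = 0)
    (hΦR : ∀ a j e, (∀ i, e i ≤ dg a i) → ∀ b, Φ (R D θ x a (sM c (dg a) j e)) b =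
      if a = b then - mon x (sM c (dg a) j e) else 0)
    (hX : LinearIndependent L (fun (ξ : X) (p : Vr n) => E ξ (x p)))
    {N : Submodule L (Vr n → L)} {m : ℕ} {mi : ι → ℕ}
    (hN : Module.finrank L N ≤ m + Fintype.card ι)
    (hNi : ∀ i, Module.finrank L (N.map (blk L n i)) ≤ mi i + 1)
    (hN0 : ∀ i, (fun p => if p.1 = i then x p else 0) ∈ N)
    (hN1 : ∀ a I, (fun p => D a I (x p)) ∈ N) (hN2 : ∀ ξ, (fun p => E ξ (x p)) ∈ N) :
    ∃ (τ : Type) (_ : Fintype τ) (υ : Type) (_ : Fintype υ) (t : τ → Ti A n)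
      (u : υ → Vr n ⊕ S) (_ : Vr n ⊕ S ≃ (ι ⊕ (X ⊕ τ)) ⊕ (A ⊕ υ)),
      Spans c dg D θ κ E η t x ∧
      LinearIndependent L (row c dg D θ κ E η t (fun a => cor c (dg a))
        (fun y => Pi.single (u y) 1) x) ∧
      Fintype.card X + Fintype.card τ + Fintype.card A ≤ m + Fintype.card S ∧
      ∀ h : ι → ℤ, (∀ i, 0 ≤ h i) →
        ∑ p : Vr n, h p.1 ≤ ∑ y, wt h (u y) + ∑ i, ((mi i : ℤ) + 1) * h i := by
  classical
  -- the base
  obtain ⟨v0, hv0⟩ : ∃ v0 : ι ⊕ X → Vr n ⊕ S → L, v0 = Sum.elim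
    (fun i => Eu κ x i) (fun ξ => Rd (E ξ) (η ξ) x) := ⟨_, rfl⟩
  obtain ⟨prj, hprj⟩ : ∃ prj : (Vr n ⊕ S → L) →ₗ[L] (Vr n → L), ∀ v, prj v = fun p => v (Sum.inl p) :=
    ⟨{ toFun := fun v j => v (Sum.inl j)
       map_add' := fun v w => rfl
       map_smul' := fun s v => rfl }, fun _ => rfl⟩
  obtain ⟨fc, hfc⟩ : ∃ fc : (Vr n ⊕ S → L) →ₗ[L] (ι → L),
      ∀ v, fc v = fun i => v (Sum.inl ⟨i, c i⟩) :=
    ⟨{ toFun := fun v i => v (Sum.inl ⟨i, c i⟩)
       map_add' := fun v w => rfl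
       map_smul' := fun s v => rfl }, fun _ => rfl⟩
  have hEi : LinearIndependent L (fun ξ => Rd (E ξ) (η ξ) x) := by
    refine LinearIndependent.of_comp prj ?_
    have h1 : prj ∘ (fun ξ => Rd (E ξ) (η ξ) x) = fun ξ p => E ξ (x p) := by
      funext ξ
      rw [Function.comp_apply, hprj]
      rfl
    rw [h1]
    exact hX
  have hv0i : LinearIndependent L v0 := by
    have h1 := sum_indep fc hEi (fun ξ => by
      rw [hfc]
      funext i
      change E ξ (x ⟨i, c i⟩) = 0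
      rw [hc, (E ξ).map_one_eq_zero]) (w := fun i => Eu κ x i) (by
      have h2 : (fun i => fc (Eu κ x i)) = fun i => (Pi.single i 1 : ι → L) := by
        funext i
        rw [hfc]
        funext i'
        change (if i' = i then x ⟨i', c i'⟩ else 0) = _
        rw [Pi.single_apply, hc]
      rw [h2]
      exact Pi.linearIndependent_single_one ι L)
    have h2 := h1.comp Sum.swap (Equiv.sumComm _ _).injective
    have h3 : Sum.elim (fun ξ => Rd (E ξ) (η ξ) x) (fun i => Eu κ x i) ∘ Sum.swap = v0 := by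
      rw [hv0]
      funext i
      rcases i with i | ξ
      · rfl
      · rfl
    rwa [h3] at h2
  obtain ⟨τ, i1, -, t, ht, hts⟩ := ext_family hv0i (T c dg D θ x)
  -- the base rows
  obtain ⟨eb, heb⟩ : ∃ eb : ι ⊕ (X ⊕ τ) ≃ (ι ⊕ X) ⊕ τ, eb = (Equiv.sumAssoc _ _ _).symm :=
    ⟨_, rfl⟩
  have hbrow : brow c dg D θ κ E η t x = Sum.elim v0 (T c dg D θ x ∘ t) ∘ eb := by
    funext i
    rw [hv0, heb]
    rcases i with _ | ξ | y
    · rfl
    · rfl
    · rfl
  have hbi : LinearIndependent L (brow c dg D θ κ E η t x) := by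
    rw [hbrow]
    exact ht.comp _ eb.injective
  have hbs : Set.range (brow c dg D θ κ E η t x) = Set.range (Sum.elim v0 (T c dg D θ x ∘ t)) := by
    rw [hbrow, Set.range_comp, Equiv.range_eq_univ, Set.image_univ]
  have hsp : Spans c dg D θ κ E η t x := fun p => by rw [hbs]; exact hts p
  -- the functionals
  have hT0 : ∀ p, Φ (T c dg D θ x p) = 0 := by
    intro p
    rw [T]
    split_ifs with hp
    · funext b
      rw [map_sub, map_smul, map_smul, Pi.sub_apply, Pi.smul_apply, Pi.smul_apply,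
        hΦR _ _ _ (fun i => hp.up i), hΦR _ _ _ hp.1, Pi.zero_apply]
      have h1 := mon_step x c (d := dg p.1) p.2.1 (e := p.2.2.1) (i := p.2.2.2) hp.2
      split_ifs
      · rw [smul_eq_mul, smul_eq_mul]
        linear_combination -h1
      · rw [smul_zero, smul_zero, sub_zero]
    · exact map_zero _
  have hker : ∀ i, Φ (brow c dg D θ κ E η t x i) = 0 := by
    rintro (i | ξ | y)
    · exact hΦu i
    · exact hΦE ξ
    · exact hT0 _
  have hcor : ∀ a, cor c (dg a) = sM c (dg a) c 0 := fun a => (sM_zero c (dg a) c).symm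
  have hvi : LinearIndependent L (fun a : A => Φ (R D θ x a (cor c (dg a)))) := by
    rw [Fintype.linearIndependent_iff]
    intro g hg a
    have h1 := congrFun hg a
    rw [Finset.sum_apply, Finset.sum_eq_single a] at h1
    · rw [Pi.smul_apply, hcor, hΦR a c 0 (fun _ => Nat.zero_le _), if_pos rfl, ← hcor, mon_cor,
        Finset.prod_eq_one fun i _ => by rw [hc, one_pow], Pi.zero_apply, smul_eq_mul, mul_neg,
        mul_one, neg_eq_zero] at h1
      exact h1
    · intro b _ hb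
      rw [Pi.smul_apply, hcor, hΦR b c 0 (fun _ => Nat.zero_le _), if_neg hb, smul_zero]
    · intro h; exact absurd (Finset.mem_univ _) h
  have hind := sum_indep Φ hbi hker hvi
  -- the first units
  obtain ⟨q, hq⟩ : ∃ q : (Vr n ⊕ S → L) →ₗ[L] ((Vr n → L) ⧸ N), q = N.mkQ ∘ₗ prj := ⟨_, rfl⟩
  have hq0 : ∀ v, (fun j => v (Sum.inl j)) ∈ N → q v = 0 := fun v hv => by
    rw [hq, LinearMap.comp_apply, hprj, Submodule.mkQ_apply, Submodule.Quotient.mk_eq_zero]
    exact hv
  have hRN : ∀ a I, (fun j => R D θ x a I (Sum.inl j)) ∈ N := fun a I => hN1 a I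
  have hqk : ∀ i, q (Sum.elim (brow c dg D θ κ E η t x)
      (fun a => R D θ x a (cor c (dg a))) i) = 0 := by
    rintro ((i | ξ | y) | a)
    · exact hq0 _ (hN0 i)
    · exact hq0 _ (hN2 ξ)
    · refine hq0 _ ?_
      change (fun j => T c dg D θ x (t y) (Sum.inl j)) ∈ N
      rw [T]
      split_ifs
      · exact sub_mem (Submodule.smul_mem _ _ (hRN _ _)) (Submodule.smul_mem _ _ (hRN _ _))
      · exact zero_mem _
    · exact hq0 _ (hRN _ _)
  obtain ⟨υ1, i3, -, u1, hu1, hu1s⟩ := ext_family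
    (linearIndependent_empty_type (R := L) (v := fun z : Empty => z.elim))
    (fun p : Vr n => N.mkQ (Pi.single p 1))
  have hu1' : LinearIndependent L fun y => N.mkQ (Pi.single (u1 y) 1) :=
    hu1.comp Sum.inr Sum.inr_injective
  have hr1 : Set.range (Sum.elim (fun z : Empty => z.elim)
      ((fun p : Vr n => N.mkQ (Pi.single p 1)) ∘ u1)) =
      Set.range fun y => N.mkQ (Pi.single (u1 y) 1) := by
    rw [Set.Sum.elim_range, Set.range_eq_empty, Set.empty_union]
    rfl
  rw [hr1] at hu1s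
  have hspan : ∀ v, N.mkQ v ∈ Submodule.span L (Set.range fun y =>
      N.mkQ (Pi.single (u1 y) (1 : L))) := by
    intro v
    have h2 := Submodule.mem_map_of_mem (f := N.mkQ) (unit_span v)
    rw [Submodule.map_span] at h2
    refine (Submodule.span_le.2 ?_) h2
    rintro _ ⟨_, ⟨j, rfl⟩, rfl⟩
    exact hu1s j
  have hc1 : Fintype.card υ1 + Module.finrank L N = Fintype.card (Vr n) := by
    have h1 : Submodule.span L (Set.range fun y => N.mkQ (Pi.single (u1 y) (1 : L))) = ⊤ := by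
      rw [eq_top_iff]
      rintro z -
      obtain ⟨v, rfl⟩ := N.mkQ_surjective z
      exact hspan v
    have h2 := finrank_span_eq_card hu1'
    rw [h1, finrank_top] at h2
    rw [← h2, Submodule.finrank_quotient_add_finrank, Module.finrank_fintype_fun_eq_card]
  have hw1 : ∀ y, q (Pi.single (Sum.inl (u1 y)) 1) = N.mkQ (Pi.single (u1 y) 1) := by
    intro y
    rw [hq, LinearMap.comp_apply, hprj]
    congr 1
    funext j
    by_cases h : j = u1 y
    · rw [h, Pi.single_eq_same, Pi.single_eq_same]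
    · rw [Pi.single_eq_of_ne h, Pi.single_eq_of_ne fun h' => h (Sum.inl_injective h')]
  have hind1 := sum_indep q hind hqk (w := fun y => Pi.single (Sum.inl (u1 y)) 1) (by
    simp only [hw1]
    exact hu1')
  -- the other units
  obtain ⟨υ2, i5, -, u2, hu2, hu2s⟩ := ext_family hind1
    (fun p : Vr n ⊕ S => (Pi.single p 1 : Vr n ⊕ S → L))
  obtain ⟨eq, heq⟩ : ∃ eq : (ι ⊕ (X ⊕ τ)) ⊕ (A ⊕ (υ1 ⊕ υ2)) ≃
      (((ι ⊕ (X ⊕ τ)) ⊕ A) ⊕ υ1) ⊕ υ2,
    eq = (Equiv.sumAssoc _ _ _).symm.trans (Equiv.sumAssoc _ _ _).symm := ⟨_, rfl⟩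
  obtain ⟨fam, hfam⟩ : ∃ fam : (((ι ⊕ (X ⊕ τ)) ⊕ A) ⊕ υ1) ⊕ υ2 → Vr n ⊕ S → L,
    fam = Sum.elim (Sum.elim (Sum.elim (brow c dg D θ κ E η t x)
      (fun a => R D θ x a (cor c (dg a))))
      (fun y => Pi.single (Sum.inl (u1 y)) 1))
      ((fun p : Vr n ⊕ S => (Pi.single p 1 : Vr n ⊕ S → L)) ∘ u2) := ⟨_, rfl⟩
  rw [← hfam] at hu2 hu2s
  obtain ⟨u, hu⟩ : ∃ u : υ1 ⊕ υ2 → Vr n ⊕ S, u = Sum.elim (fun y => Sum.inl (u1 y)) u2 := ⟨_, rfl⟩
  have hrow : row c dg D θ κ E η t (fun a => cor c (dg a))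
      (fun y => Pi.single (u y) 1) x = fam ∘ eq := by
    funext i
    rw [hfam, heq, hu]
    rcases i with i | a | y | y
    · rfl
    · rfl
    · rfl
    · rfl
  have hri : LinearIndependent L (row c dg D θ κ E η t (fun a => cor c (dg a))
      (fun y => Pi.single (u y) 1) x) := by
    rw [hrow]
    exact hu2.comp _ eq.injective
  have htop : Submodule.span L (Set.range fam) = ⊤ := by
    rw [eq_top_iff]
    rintro v -
    refine (Submodule.span_le.2 ?_) (unit_span v)
    rintro _ ⟨p, rfl⟩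
    exact hu2s p
  have hcard : Fintype.card (Vr n ⊕ S) =
      Fintype.card ((ι ⊕ (X ⊕ τ)) ⊕ (A ⊕ (υ1 ⊕ υ2))) := by
    have h1 := finrank_span_eq_card hu2
    rw [htop, finrank_top, Module.finrank_fintype_fun_eq_card] at h1
    rw [h1]
    exact (Fintype.card_congr eq).symm
  refine ⟨τ, i1, υ1 ⊕ υ2, inferInstance, t, u, Fintype.equivOfCardEq hcard, hsp, hri, ?_,
    fun h h0 => ?_⟩
  · simp only [Fintype.card_sum] at hcard
    omega
  · have h1 : ∀ i, (n i : ℤ) + 1 ≤ (Finset.univ.filter fun y => (u1 y).1 = i).card + (mi i + 1) :=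
      fun i => by exact_mod_cast blk_card hspan (hNi i)
    have h2 : ∑ p : Vr n, h p.1 = ∑ i, ((n i : ℤ) + 1) * h i := by
      rw [Fintype.sum_sigma]
      refine Finset.sum_congr rfl fun i _ => ?_
      change ∑ _y : Fin (n i + 1), h i = _
      rw [Finset.sum_const, Finset.card_univ, Fintype.card_fin, nsmul_eq_mul]
      push_cast
      rfl
    have h3 : ∑ y : υ1, h (u1 y).1 =
        ∑ i, ((Finset.univ.filter fun y => (u1 y).1 = i).card : ℤ) * h i := by
      rw [← Finset.sum_fiberwise (s := Finset.univ) (g := fun y => (u1 y).1)]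
      refine Finset.sum_congr rfl fun i _ => ?_
      rw [Finset.sum_congr rfl (g := fun _ => h i) fun y hy => by rw [(Finset.mem_filter.1 hy).2],
        Finset.sum_const, nsmul_eq_mul]
    have h4 : ∑ y : υ1, h (u1 y).1 ≤ ∑ y, wt h (u y) := by
      rw [hu, Fintype.sum_sum_type]
      simp only [Sum.elim_inl, Sum.elim_inr]
      have h5 : 0 ≤ ∑ y : υ2, wt h (u2 y) := Finset.sum_nonneg fun y _ => by
        rcases u2 y with p | s
        · exact h0 _
        · exact le_rfl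
      have h6 : ∑ y : υ1, wt (n := n) (S := S) h (Sum.inl (u1 y)) = ∑ y : υ1, h (u1 y).1 := rfl
      omega
    have h5 : ∑ i, ((n i : ℤ) + 1) * h i ≤
        ∑ i, (((Finset.univ.filter fun y => (u1 y).1 = i).card : ℤ) * h i +
          ((mi i : ℤ) + 1) * h i) := by
      refine Finset.sum_le_sum fun i _ => ?_
      have h6 := mul_le_mul_of_nonneg_right (h1 i) (h0 i)
      linarith
    rw [Finset.sum_add_distrib, ← h3] at h5
    rw [h2]
    linarith

end Pool.Agent.Run7.h621.MP
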