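import Pool.Agent.Run7.h621.MP.Core
import Pool.Agent.Run7.h621.NG.Data

/-!
The extended derivations for the members of linear systems, some of whose coefficients are generic.
-/

set_option autoImplicit false

open MvPolynomial
open Pool.Agent.Run7.h621.NG (Bt cj sum_Bt sum_split Dr Dr_apply θr)
open Pool.Agent.Run7.h621.FV (cd coeff_cd)

namespace Pool.Agent.Run7.h621.MP

variable {k0 A σ : Type} [Field k0] {J : A → Type} [∀ a, Fintype (J a)]

/-- The forms. -/
noncomputable def NF (P : ∀ a, J a → MvPolynomial σ k0) (j0 : ∀ a, J a)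
    {L : Type} [Field L] [Algebra k0 L] (c : Bt j0 → L) (a : A) : MvPolynomial σ L :=
  ∑ j, C (cj j0 c a j) * map (algebraMap k0 L) (P a j)

variable {P : ∀ a, J a → MvPolynomial σ k0} {j0 : ∀ a, J a}

section

variable [Fintype A] [DecidableEq A] {L : Type} [Field L] [Algebra k0 L]

theorem cd_NF (c : Bt j0 → L) (δ : Derivation ℤ L L) (hδ : ∀ r : k0, δ (algebraMap k0 L r) = 0)
    (b : A) : cd δ (NF P j0 c b) = ∑ᶠ q : Bt j0, if q.1 = b then
      δ (c q) • map (algebraMap k0 L) (P q.1 q.2.1) else 0 := by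
  rw [← sum_Bt (j0 := j0) b (fun j => δ (cj j0 c b j) • map (algebraMap k0 L) (P b j))
    (fun q => δ (c q) • map (algebraMap k0 L) (P q.1 q.2.1)) (by
      rw [cj, dif_pos rfl, δ.map_one_eq_zero, zero_smul]) (fun j hj => by
      rw [cj, dif_neg hj])]
  ext u
  rw [coeff_cd, NF, coeff_sum, coeff_sum, map_sum]
  refine Finset.sum_congr rfl fun j _ => ?_
  rw [coeff_C_mul, coeff_map, coeff_smul, coeff_map, δ.leibniz, hδ, smul_zero, zero_add,
    smul_eq_mul, smul_eq_mul, mul_comm]

/-- The additional polynomials. -/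
noncomputable def Qr (P : ∀ a, J a → MvPolynomial σ k0) (L : Type) [Field L]
    [Algebra k0 L] (B : Set (Bt j0)) (s : {b : Bt j0 // b ∉ B}) (b : A) :
    MvPolynomial σ L :=
  if s.1.1 = b then map (algebraMap k0 L) (P s.1.1 s.1.2.1) else 0

theorem NF_eq (c : Bt j0 → L) (b : A) : NF P j0 c b = map (algebraMap k0 L) (P b (j0 b)) +
    ∑ᶠ q : Bt j0, if q.1 = b then c q • map (algebraMap k0 L) (P q.1 q.2.1) else 0 := by
  classical
  rw [← sum_Bt (j0 := j0) b (fun j => if j = j0 b then 0 else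
    C (cj j0 c b j) * map (algebraMap k0 L) (P b j))
    (fun q => c q • map (algebraMap k0 L) (P q.1 q.2.1)) (if_pos rfl) (fun j hj => by
      rw [if_neg hj, cj, dif_neg hj, smul_eq_C_mul]), NF,
    ← Finset.add_sum_erase _ _ (Finset.mem_univ (j0 b)),
    ← Finset.add_sum_erase Finset.univ (fun j => if j = j0 b then 0 else
      C (cj j0 c b j) * map (algebraMap k0 L) (P b j)) (Finset.mem_univ (j0 b)),
    if_pos rfl, zero_add, cj, dif_pos rfl, C_1, one_mul]
  congr 1
  refine Finset.sum_congr rfl fun j hj => ?_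
  rw [if_neg (Finset.ne_of_mem_erase hj)]

open scoped Classical in
theorem cd_Dr {B : Set (Bt j0)} [Fintype B] [Fintype {b : Bt j0 // b ∉ B}]
    (δ : B → Derivation ℤ L L)
    (hδk : ∀ b (r : k0), δ b (algebraMap k0 L r) = 0) (c : Bt j0 → L)
    (hδ : ∀ b b' : B, δ b (c b') = if b = b' then 1 else 0) (ρ : Bt j0 → L) (b : A) :
    cd (Dr δ ρ) (NF P j0 c b) = (∑ᶠ q : Bt j0, if q.1 = b then
      ρ q • map (algebraMap k0 L) (P q.1 q.2.1) else 0) + ∑ s, θr δ c ρ s • Qr P L B s b := by
  rw [cd_NF c _ (fun r => by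
    rw [Dr_apply]
    exact Finset.sum_eq_zero fun b _ => by rw [hδk, mul_zero])]
  obtain ⟨g, hg⟩ : ∃ g : Bt j0 → MvPolynomial σ L, ∀ q, g q = if q.1 = b then
    map (algebraMap k0 L) (P q.1 q.2.1) else 0 := ⟨_, fun _ => rfl⟩
  have h1 : ∀ (r : Bt j0 → L), (∑ᶠ q : Bt j0, if q.1 = b then
      r q • map (algebraMap k0 L) (P q.1 q.2.1) else 0) =
      ∑ q : B, r q • g q + ∑ s : {b : Bt j0 // b ∉ B}, r s • g s := by
    intro r
    have h2 : (fun q : Bt j0 => if q.1 = b then
        r q • map (algebraMap k0 L) (P q.1 q.2.1) else 0) = fun q => r q • g q := by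
      funext q
      rw [hg]
      split_ifs
      · rfl
      · rw [smul_zero]
    rw [h2, finsum_eq_sum_of_fintype]
    exact sum_split B fun q => r q • g q
  rw [h1, h1, add_assoc]
  congr 1
  · refine Finset.sum_congr rfl fun q _ => ?_
    rw [Dr_apply, Finset.sum_eq_single q, hδ, if_pos rfl, mul_one]
    · intro b' _ hb'
      rw [hδ, if_neg hb', mul_zero]
    · intro h; exact absurd (Finset.mem_univ _) h
  · rw [← Finset.sum_add_distrib]
    refine Finset.sum_congr rfl fun s _ => ?_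
    have h2 : Qr P L B s b = g s := by rw [hg]; rfl
    rw [h2, θr, Dr_apply, sub_smul]
    abel

end

/-- The extended derivations. -/
theorem exists_data [Fintype A] [DecidableEq A] {L : Type} [Field L] [Algebra k0 L]
    {B : Set (Bt j0)} [Fintype B] [Fintype {b : Bt j0 // b ∉ B}] (δ : B → Derivation ℤ L L)
    (hδk : ∀ b (r : k0), δ b (algebraMap k0 L r) = 0) (c : Bt j0 → L)
    (hδ : ∀ b b' : B, b = b' ∧ δ b (c b') = 1 ∨ b ≠ b' ∧ δ b (c b') = 0)
    {G : A → Set (σ →₀ ℕ)} (hSt : ∀ a, ∀ I ∈ G a, ∃ j, P a j = monomial I 1) :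
    ∃ (ρ : A → (σ →₀ ℕ) → Bt j0 → L) (ε : A → (σ →₀ ℕ) → L),
      (∀ a I q, ρ a I q = 0 ∨ ρ a I q = 1 ∨ ρ a I q = - c q) ∧
      (∀ a I, ε a I = 0 ∨ ε a I = 1) ∧
      ∀ a b, ∀ I ∈ G a, cd (Dr δ (ρ a I)) (NF P j0 c b) =
        (if a = b then monomial I 1 - ε a I • NF P j0 c b else 0) +
          ∑ r, θr δ c (ρ a I) r • Qr P L B r b := by
  classical
  have hδ' : ∀ b b' : B, δ b (c b') = if b = b' then 1 else 0 := by
    intro b b'
    rcases hδ b b' with ⟨h1, h2⟩ | ⟨h1, h2⟩
    · rw [if_pos h1, h2]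
    · rw [if_neg h1, h2]
  obtain ⟨jI, hjI⟩ : ∃ jI : ∀ a, (σ →₀ ℕ) → J a, ∀ a, ∀ I ∈ G a,
      P a (jI a I) = monomial I 1 := by
    refine ⟨fun a I => if h : ∃ j, P a j = monomial I 1 then h.choose else j0 a,
      fun a I hI => ?_⟩
    have h := hSt a I hI
    simp only [dif_pos h]
    exact h.choose_spec
  refine ⟨fun a I q => if jI a I = j0 a then (if q.1 = a then - c q else 0) else
    if ∃ h : jI a I ≠ j0 a, q = ⟨a, jI a I, h⟩ then 1 else 0,
    fun a I => if jI a I = j0 a then 1 else 0, fun a I q => ?_, fun a I => ?_,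
    fun a b I hI => ?_⟩
  · dsimp only
    split_ifs
    · exact Or.inr (Or.inr rfl)
    · exact Or.inl rfl
    · exact Or.inr (Or.inl rfl)
    · exact Or.inl rfl
  · dsimp only
    split_ifs
    · exact Or.inr rfl
    · exact Or.inl rfl
  rw [cd_Dr δ hδk c hδ']
  congr 1
  have hm : map (algebraMap k0 L) (P a (jI a I)) = monomial I 1 := by
    rw [hjI a I hI, map_monomial, map_one]
  by_cases hj : jI a I = j0 a
  · simp only [if_pos hj, one_smul]
    by_cases hab : a = b
    · subst hab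
      rw [if_pos rfl, ← hm, hj]
      have h1 := NF_eq (P := P) c a
      have h2 : (∑ᶠ q : Bt j0, if q.1 = a then
          (if q.1 = a then - c q else 0) • map (algebraMap k0 L) (P q.1 q.2.1) else 0) =
          - ∑ᶠ q : Bt j0, if q.1 = a then
            c q • map (algebraMap k0 L) (P q.1 q.2.1) else 0 := by
        rw [← finsum_neg_distrib]
        refine finsum_congr fun q => ?_
        split_ifs
        · rw [neg_smul]
        · rw [neg_zero]
      rw [h2, h1]
      abel
    · rw [if_neg hab]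
      refine (finsum_congr fun q => ?_).trans finsum_zero
      split_ifs with h1 h2
      · exact absurd (h2.symm.trans h1) hab
      · rw [zero_smul]
      · rfl
  · simp only [if_neg hj, zero_smul, sub_zero]
    rw [finsum_eq_single _ (⟨a, jI a I, hj⟩ : Bt j0)]
    · have h1 : (∃ (h : jI a I ≠ j0 a),
          (⟨a, jI a I, hj⟩ : Bt j0) = ⟨a, jI a I, h⟩) := Exists.intro hj rfl
      rw [if_pos h1, one_smul]
      by_cases hab : a = b
      · subst hab
        rw [if_pos rfl, if_pos rfl]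
        exact hm
      · rw [if_neg hab, if_neg hab]
    · intro q hq
      rw [if_neg (c := ∃ h : jI a I ≠ j0 a, q = ⟨a, jI a I, h⟩) (by
        rintro ⟨h, h'⟩
        exact hq h'), zero_smul, ite_self]

end Pool.Agent.Run7.h621.MP
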