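import Pool.Agent.Run7.h621.MP.Tan

/-!
Forms on products of projective spaces; the functionals.
-/

set_option autoImplicit false
set_option linter.unusedSectionVars false

open MvPolynomial FF Pool.Agent.W603.LV Pool.Agent.W603.PV Pool.Agent.TH145.MG Pool.Agent.W602.GT
open Pool.Agent.Run7.h621.FV (cd coeff_cd chain)
open Pool.Agent.Run7.h621.NG (dt)

namespace Pool.Agent.Run7.h621.MP

variable {ι : Type} [DecidableEq ι] {n : ι → ℕ}

/-- `F` is homogeneous of degree `d i` in the coordinates of the factor `i`, for all `i`. -/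
def IsMulti {R : Type} [CommRing R] (F : MvPolynomial (Vr n) R) (d : ι → ℕ) : Prop :=
  ∀ i, F.IsWeightedHomogeneous (fun p : Vr n => if p.1 = i then 1 else 0) (d i)

variable [Fintype ι]

theorem weight_eq (u : Vr n →₀ ℕ) (i : ι) :
    Finsupp.weight (fun p : Vr n => if p.1 = i then 1 else 0) u = ∑ j, u ⟨i, j⟩ := by
  rw [Finsupp.weight_apply, Finsupp.sum_fintype _ (fun (p : Vr n) (c : ℕ) =>
      c • (if p.1 = i then 1 else 0)) (fun _ => zero_smul _ _), Fintype.sum_sigma,
    Finset.sum_eq_single i]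
  · refine Finset.sum_congr rfl fun j _ => ?_
    change u ⟨i, j⟩ • (if i = i then 1 else 0) = _
    rw [if_pos rfl, smul_eq_mul, mul_one]
  · intro i' _ hi'
    refine Finset.sum_eq_zero fun j _ => ?_
    change u ⟨i', j⟩ • (if i' = i then 1 else 0) = _
    rw [if_neg hi', smul_zero]
  · intro h; exact absurd (Finset.mem_univ _) h

theorem mon_sc {R : Type} [CommRing R] (lam : ι → R) (x : Vr n → R) (u : Vr n →₀ ℕ) :
    mon (fun p => lam p.1 * x p) u = (∏ i, lam i ^ ∑ j, u ⟨i, j⟩) * mon x u := by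
  unfold mon
  simp only [mul_pow]
  rw [Finset.prod_mul_distrib]
  congr 1
  rw [Fintype.prod_sigma]
  refine Finset.prod_congr rfl fun i _ => ?_
  change ∏ y, lam i ^ u ⟨i, y⟩ = _
  rw [Finset.prod_pow_eq_pow_sum]

theorem eval_mon {R : Type} [CommRing R] (x : Vr n → R) (F : MvPolynomial (Vr n) R) :
    eval x F = ∑ u ∈ F.support, F.coeff u * mon x u := by
  rw [eval_eq]
  refine Finset.sum_congr rfl fun u _ => ?_
  congr 1
  unfold mon
  rw [← Finset.prod_subset (Finset.subset_univ u.support)]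
  intro p _ hp
  rw [Finsupp.notMem_support_iff.1 hp, pow_zero]

theorem eval_monomial' {R : Type} [CommRing R] (x : Vr n → R) (u : Vr n →₀ ℕ) (a : R) :
    eval x (monomial u a) = a * mon x u := by
  rw [eval_monomial]
  congr 1
  rw [Finsupp.prod_fintype]
  · rfl
  · intro i; rw [pow_zero]

theorem eval_sc {L : Type} [Field L] {F : MvPolynomial (Vr n) L} {d : ι → ℕ} (hF : IsMulti F d)
    (lam : ι → L) (x : Vr n → L) : eval (sc lam x) F = (∏ i, lam i ^ d i) * eval x F := by
  rw [eval_mon, eval_mon, Finset.mul_sum]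
  refine Finset.sum_congr rfl fun u hu => ?_
  have h1 := mon_sc lam x u
  have h2 : ∀ i, ∑ j, u ⟨i, j⟩ = d i := fun i => by
    rw [← weight_eq]
    exact hF i (mem_support_iff.1 hu)
  simp only [h2] at h1
  have h3 : sc lam x = fun p => lam p.1 * x p := rfl
  rw [h3, h1]
  ring

theorem euler {L : Type} [Field L] {F : MvPolynomial (Vr n) L} {d : ι → ℕ} (hF : IsMulti F d)
    (x : Vr n → L) (i : ι) :
    ∑ p, eval x (pderiv p F) * (if p.1 = i then x p else 0) = d i * eval x F := by
  have h1 := congrArg (eval x) (hF i).sum_weight_X_mul_pderiv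
  rw [map_sum, map_nsmul, nsmul_eq_mul] at h1
  rw [← h1]
  refine Finset.sum_congr rfl fun p _ => ?_
  rw [map_nsmul, map_mul, eval_X]
  split_ifs
  · rw [one_smul, mul_comm]
  · rw [mul_zero, zero_smul]

variable {L : Type} [Field L] {A S X : Type}

/-- The functionals. -/
noncomputable def Ph [Fintype S] (F : A → MvPolynomial (Vr n) L) (q : S → A → L) (x : Vr n → L) :
    (Vr n ⊕ S → L) →ₗ[L] (A → L) where
  toFun v b := ∑ p, eval x (pderiv p (F b)) * v (Sum.inl p) + ∑ r, v (Sum.inr r) * q r b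
  map_add' v w := by
    funext b
    simp only [Pi.add_apply, mul_add, add_mul, Finset.sum_add_distrib]
    ring
  map_smul' s v := by
    funext b
    simp only [Pi.smul_apply, smul_eq_mul, RingHom.id_apply, mul_add, Finset.mul_sum]
    congr 1
    · exact Finset.sum_congr rfl fun p _ => by ring
    · exact Finset.sum_congr rfl fun p _ => by ring

theorem Ph_apply [Fintype S] (F : A → MvPolynomial (Vr n) L) (q : S → A → L) (x : Vr n → L)
    (v : Vr n ⊕ S → L) (b : A) : Ph F q x v b =
      ∑ p, eval x (pderiv p (F b)) * v (Sum.inl p) + ∑ r, v (Sum.inr r) * q r b := rfl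

theorem Ph_Eu [Fintype S] {F : A → MvPolynomial (Vr n) L} {q : S → A → L} {dg : A → ι → ℕ}
    (hF : ∀ a, IsMulti (F a) (dg a)) (κ : ι → S → L) (x : Vr n → L) (i : ι) (b : A) :
    Ph F q x (Eu κ x i) b = dg b i * eval x (F b) + ∑ r, κ i r * q r b := by
  rw [Ph_apply, ← euler (hF b) x i]
  rfl

theorem Ph_Rd [Fintype S] (F : A → MvPolynomial (Vr n) L) (q : S → A → L)
    (δ : Derivation ℤ L L) (t : S → L) (x : Vr n → L) (b : A) :
    Ph F q x (Rd δ t x) b = δ (eval x (F b)) - eval x (cd δ (F b)) + ∑ r, t r * q r b := by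
  have h1 := chain (d := δ) (fun a b => map_add δ a b) (fun a b => by
    rw [δ.leibniz, smul_eq_mul, smul_eq_mul]) (RingHom.id L) δ (fun _ => rfl) x (F b)
  have h2 : δ (eval x (F b)) = eval x (cd δ (F b)) + ∑ j, eval x (pderiv j (F b)) * δ (x j) := h1
  rw [Ph_apply, h2]
  have h3 : ∑ p, eval x (pderiv p (F b)) * Rd δ t x (Sum.inl p) =
      ∑ j, eval x (pderiv j (F b)) * δ (x j) := rfl
  have h4 : ∑ r, Rd δ t x (Sum.inr r) * q r b = ∑ r, t r * q r b := rfl
  rw [h3, h4]
  ring

theorem logder {κ : Type} (δ : Derivation ℤ L L) (s : Finset κ) (lam : κ → L) (d : κ → ℕ)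
    (hl : ∀ i ∈ s, lam i ≠ 0) {g : L} (hg : g ≠ 0) :
    δ ((∏ i ∈ s, lam i ^ d i) * g) / ((∏ i ∈ s, lam i ^ d i) * g) =
      ∑ i ∈ s, (d i : L) * (δ (lam i) / lam i) + δ g / g := by
  classical
  induction s using Finset.induction_on with
  | empty => rw [Finset.prod_empty, Finset.sum_empty, one_mul, zero_add]
  | insert a s ha ih =>
    have ih' := ih fun i hi => hl i (Finset.mem_insert_of_mem hi)
    have hla := hl a (Finset.mem_insert_self _ _)
    rw [Finset.prod_insert ha, Finset.sum_insert ha, add_assoc, ← ih']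
    obtain ⟨P, hP⟩ : ∃ P, P = (∏ i ∈ s, lam i ^ d i) * g := ⟨_, rfl⟩
    have hP0 : P ≠ 0 := by
      rw [hP]
      exact mul_ne_zero (Finset.prod_ne_zero_iff.2 fun i hi =>
        pow_ne_zero _ (hl i (Finset.mem_insert_of_mem hi))) hg
    rw [mul_assoc, ← hP, δ.leibniz, δ.leibniz_pow, smul_eq_mul, smul_eq_mul]
    have h1 : (d a • lam a ^ (d a - 1) • δ (lam a) : L) = d a * lam a ^ d a * (δ (lam a) / lam a) := by
      rw [nsmul_eq_mul, smul_eq_mul]
      rcases Nat.eq_zero_or_pos (d a) with h | h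
      · rw [h, Nat.cast_zero, zero_mul, zero_mul, zero_mul]
      · have h2 : lam a ^ d a = lam a ^ (d a - 1) * lam a := by
          rw [← pow_succ, Nat.sub_add_cancel h]
        rw [h2]
        field_simp
    rw [h1]
    field_simp
    ring

end Pool.Agent.Run7.h621.MP
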