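import Pool.Agent.Run7.h621.MP.LogFinal
import Pool.Agent.N115.IM.Img
import Pool.Agent.N813.IM.Images

/-!
Varieties with a correspondence of bounded degree with a subvariety.
-/

set_option autoImplicit false
set_option linter.unusedSectionVars false

open MvPolynomial FF Pool.Agent.W603.LV Pool.Agent.W603.PV Pool.Agent.TH145.GH
open Pool.Agent.W602.GT Pool.Agent.TH145.GF Pool.Agent.TH145.MG Algebra
open Pool.Agent.Run7.h621.FV (cd coeff_cd exists_tb)
open Pool.Agent.Run7.h621.NG (Bt cj)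

namespace Pool.Agent.Run7.h621.MP

theorem alg_down {K M M1 σ : Type} [Field K] [Field M] [Field M1] [Algebra K M] [Algebra K M1]
    [Algebra M1 M] [IsScalarTower K M1 M] (x : σ → M1)
    (h : Algebra.IsAlgebraic (IntermediateField.adjoin K (Set.range fun p => algebraMap M1 M (x p)))
      M) : Algebra.IsAlgebraic (IntermediateField.adjoin K (Set.range x)) M1 := by
  have h0 : IntermediateField.adjoin K (Set.range fun p => algebraMap M1 M (x p)) =
      (IntermediateField.adjoin K (Set.range x)).map (IsScalarTower.toAlgHom K M1 M) := by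
    rw [IntermediateField.adjoin_map, ← Set.range_comp]
    rfl
  rw [h0] at h
  obtain ⟨f, hf, hfs⟩ : ∃ f : IntermediateField.adjoin K (Set.range x) →+*
      (IntermediateField.adjoin K (Set.range x)).map (IsScalarTower.toAlgHom K M1 M),
      (∀ y, ((f y : (IntermediateField.adjoin K (Set.range x)).map
        (IsScalarTower.toAlgHom K M1 M)) : M) = algebraMap M1 M y) ∧ Function.Surjective f := by
    refine ⟨{ toFun := fun y => ⟨algebraMap M1 M y, ⟨y, y.2, rfl⟩⟩
              map_one' := Subtype.ext (map_one _)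
              map_mul' := fun _ _ => Subtype.ext (map_mul _ _ _)
              map_zero' := Subtype.ext (map_zero _)
              map_add' := fun _ _ => Subtype.ext (map_add _ _ _) }, fun _ => rfl, ?_⟩
    rintro ⟨z, y, hy, rfl⟩
    exact ⟨⟨y, hy⟩, rfl⟩
  refine ⟨fun y => ?_⟩
  have h1 := h.isAlgebraic (algebraMap M1 M y)
  refine IsAlgebraic.of_ringHom_of_comp_eq (f := f) (g := algebraMap M1 M) h1 hfs
    (algebraMap M1 M).injective ?_
  ext z
  exact hf z

variable {k0 A ι : Type} [Field k0] [Fintype ι] [DecidableEq ι] {n : ι → ℕ} {J : A → Type}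
  [∀ a, Fintype (J a)] {P : ∀ a, J a → MvPolynomial (Vr n) k0} {j0 : ∀ a, J a}

/-- The varieties with a correspondence of bounded degree, in a chart. -/
theorem image_chart {K M L : Type} [Field K] [Field M] [Field L] [Algebra k0 K] [Algebra K M]
    [Algebra K L] [Algebra L M] [IsScalarTower K L M] [FiniteDimensional L M]
    [Algebra.EssFiniteType K M]
    [IsAlgClosed K] [CharZero K] [Fintype A] [DecidableEq A]
    {dg : A → ι → ℕ} (hP : ∀ a j, IsMulti (P a j) (dg a))
    {V : Set (MvPolynomial (Vr n) k0)} {m s w r : ℕ} {mi : ι → ℕ} (hV : MDimLE k0 V m)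
    (hVi : ∀ i, PrDimLE k0 V i (mi i))
    {c0 : ∀ i, Fin (n i + 1)} (hSt : ∀ a j e, (∀ i, e i ≤ dg a i) →
      ∃ j', P a j' = monomial (sM c0 (dg a) j e) 1) (hw : 0 < w)
    {c : Bt j0 → K} {B : Set (Bt j0)} (hB : Nat.card {b : Bt j0 // b ∉ B} ≤ s)
    (hind : AlgebraicIndependent k0 fun b : B => c b) (htr : Algebra.trdeg K M = w)
    {x : Vr n → M} (hx : ∀ i, x ⟨i, c0 i⟩ = 1)
    (hr : Module.finrank L M ≤ r)
    (hnum : ∀ i, (∀ j, ∃ z : K, x ⟨i, j⟩ = algebraMap K M z) ∨
      m + mi i + s + 2 * r ≤ ∑ a, dg a i + Fintype.card A + w)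
    (hgen : Algebra.IsAlgebraic (IntermediateField.adjoin K (Set.range x)) M)
    (hML : IntermediateField.adjoin L (Set.range x) = ⊤)
    (hxV : ∀ f ∈ V, aeval x (map (algebraMap k0 K) f) = 0)
    {F : A → MvPolynomial (Vr n) K} (hF : ∀ a, F a = NF P j0 c a)
    (hC : ∀ a, aeval x (F a) = 0) :
    GeneralType K L w := by
  classical
  let _ : Algebra k0 M := ((algebraMap K M).comp (algebraMap k0 K)).toAlgebra
  have hst : IsScalarTower k0 K M := IsScalarTower.of_algebraMap_eq fun _ => rfl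
  have hx0 : ∀ i, ∃ j, x ⟨i, j⟩ ≠ 0 := fun i => ⟨c0 i, by rw [hx]; exact one_ne_zero⟩
  have hxV' : ∀ f ∈ V, aeval x f = 0 := by
    intro f hf
    have h1 := hxV f hf
    rwa [aeval_map_algebraMap] at h1
  have hev : ∀ a, aeval x (F a) = eval x (map (algebraMap K M) (F a)) := fun a => by
    rw [eval_map, aeval_def]
  obtain ⟨Δ, l, E, hl, hΔE, hlin, hΔ⟩ := core_forms (c := c)
    (F := fun a => map (algebraMap K M) (F a)) (C := Finset.univ)
    (s := s) hP hSt hw hB hind htr hx hgen
    (hV M x hx0 hxV') (fun i => hVi i M x hx0 hxV') (fun a => by rw [hF])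
    (fun a _ => by rw [← hev]; exact hC a) (fun a ha => absurd (Finset.mem_univ a) ha)
  obtain ⟨t, ht⟩ : ∃ t : Fin w → M, ∀ i, t i = x (l i) := ⟨_, fun _ => rfl⟩
  have htb : IsTranscendenceBasis K t := by
    have : t = fun i => x (l i) := funext ht
    rw [this]
    exact hl
  -- the generator
  obtain ⟨en⟩ : Nonempty (Fin (Fintype.card (Vr n)) ≃ Vr n) := ⟨(Fintype.equivFin _).symm⟩
  have hLc : CharZero L := charZero_of_injective_algebraMap (algebraMap K L).injective
  obtain ⟨lam, hlam⟩ := Pool.Agent.N813.IM.exists_prim (k := K) (L := L) (E := M)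
    (fun i => x (en i)) (by
      have h1 : Set.range (fun i => x (en i)) = Set.range x := Set.ext fun z =>
        ⟨fun ⟨i, h⟩ => ⟨en i, h⟩, fun ⟨p, h⟩ => ⟨en.symm p, by
          change x (en (en.symm p)) = z
          rw [en.apply_symm_apply]
          exact h⟩⟩
      rw [h1]
      exact hML)
  obtain ⟨f, hf⟩ : ∃ f, f = ∑ i, lam i • x (en i) := ⟨_, rfl⟩
  rw [← hf] at hlam
  have hph : ∀ Q : Place K M, 0 ≤ ∑ i, ph Q x i := fun Q =>
    Finset.sum_nonneg fun i _ => ph_nonneg Q hx i
  have hxp : ∀ (Q : Place K M) (p : Vr n), Ge Q (-(∑ i, ph Q x i)) (x p) := by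
    intro Q p
    refine (ge_ph Q x p).mono ?_
    have := Finset.single_le_sum (f := fun i => ph Q x i) (fun i _ => ph_nonneg Q hx i)
      (Finset.mem_univ p.1)
    omega
  have hr1 : 1 ≤ Module.finrank L M := Module.finrank_pos
  refine Pool.Agent.N115.IM.image_lemma K M L w 1 hw one_pos htr f hlam
    (fun Q => ∑ i, ph Q x i) (fun Q => ⟨hph Q, ?_⟩)
    (fun j Dd => Δ Dd * (Fin.cons 1 t : Fin (w + 1) → M) j) t htb (fun j N Dd => ?_)
    ⟨E, ?_⟩ (fun i Dd => ?_) (fun Q hQ j Dd hDd => ?_)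
  · rw [hf]
    refine Ge.sum _ _ fun i _ => ?_
    rw [Algebra.smul_def]
    have h1 := (Ge.const (P := Q) (lam i)).mul (hxp Q (en i))
    rwa [zero_add] at h1
  · change Δ _ * _ = N.det ^ 1 * (Δ Dd * _)
    rw [pow_one, hlin N _ Dd (fun i f => ?_)]
    · ring
    · rw [← Derivation.coeFnAddMonoidHom_apply, map_sum, Finset.sum_apply]
      rfl
  · change Δ E * (Fin.cons 1 t : Fin (w + 1) → M) 0 ≠ 0
    rw [Fin.cons_zero, mul_one]
    exact hΔE
  · change Δ Dd * (Fin.cons 1 t : Fin (w + 1) → M) i.succ =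
      Δ Dd * (Fin.cons 1 t : Fin (w + 1) → M) 0 * t i
    rw [Fin.cons_succ, Fin.cons_zero, mul_one]
  · have h1 := hΔ Q hQ Dd (Or.inr ⟨hDd, fun b hb => absurd (Finset.mem_univ b) hb⟩)
    have h2 : Ge Q (-(∑ i, ph Q x i)) ((Fin.cons 1 t : Fin (w + 1) → M) j) := by
      refine Fin.cases ?_ (fun i => ?_) j
      · rw [Fin.cons_zero]
        exact Ge.one.mono (by have := hph Q; omega)
      · rw [Fin.cons_succ, ht]
        exact hxp Q _
    refine (h1.mul h2).mono ?_
    have h3 : ∑ i, (2 * ((Module.finrank L M : ℤ) - 1) + 1) * ph Q x i ≤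
        ∑ i, num Finset.univ dg mi w m s i * ph Q x i := by
      refine Finset.sum_le_sum fun i _ => ?_
      rcases hnum i with h | h
      · rw [ph_const Q h (j := c0 i) (by rw [hx]; exact one_ne_zero), mul_zero, mul_zero]
      · refine mul_le_mul_of_nonneg_right ?_ (ph_nonneg Q hx i)
        unfold num
        rw [Finset.card_univ]
        zify at h hr
        linarith
    rw [← Finset.mul_sum] at h3
    push_cast
    linarith

theorem adj_top {L M σ : Type} [Field L] [Field M] [Algebra L M] {x : σ → M}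
    {x1 : σ → IntermediateField.adjoin L (Set.range x)} (h : ∀ p, (x1 p : M) = x p) :
    IntermediateField.adjoin L (Set.range x1) = ⊤ := by
  rw [_root_.eq_top_iff]
  rintro ⟨y, hy⟩ -
  induction hy using IntermediateField.adjoin_induction with
  | mem y hy =>
    obtain ⟨p, rfl⟩ := hy
    refine IntermediateField.subset_adjoin _ _ ⟨p, Subtype.ext (h p)⟩
  | algebraMap r =>
    exact (IntermediateField.adjoin L (Set.range x1)).algebraMap_mem r
  | add y z hy hz h1 h2 => exact add_mem h1 h2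
  | inv y hy h1 => exact inv_mem h1
  | mul y z hy hz h1 h2 => exact mul_mem h1 h2

/-- The varieties with a correspondence of bounded degree with a subvariety. -/
theorem image_sub {K M L : Type} [Field K] [Field M] [Field L] [Algebra k0 K] [Algebra K M]
    [Algebra K L] [Algebra L M] [IsScalarTower K L M] [FiniteDimensional L M]
    [Algebra.EssFiniteType K M]
    [IsAlgClosed K] [CharZero K] [Fintype A] [DecidableEq A]
    {dg : A → ι → ℕ} (hP : ∀ a j, IsMulti (P a j) (dg a))
    {V : Set (MvPolynomial (Vr n) k0)} (hVh : ∀ f ∈ V, ∃ d, IsMulti f d)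
    {m s w r : ℕ} {mi : ι → ℕ} (hV : MDimLE k0 V m)
    (hVi : ∀ i, PrDimLE k0 V i (mi i))
    {c0 : ∀ i, Fin (n i + 1)} (hSt : ∀ a j e, (∀ i, e i ≤ dg a i) →
      ∃ j', P a j' = monomial (sM c0 (dg a) j e) 1) (hw : 0 < w)
    (t : ∀ a, J a → K) (h0 : ∀ a, t a (j0 a) ≠ 0)
    {B : Set (Bt j0)} (hB : Nat.card {b : Bt j0 // b ∉ B} ≤ s)
    (hind : AlgebraicIndependent k0 fun p : B => t p.1.1 p.1.2.1 / t p.1.1 (j0 p.1.1))
    {F : A → MvPolynomial (Vr n) K}
    (hF : ∀ a, F a = ∑ j, MvPolynomial.C (t a j) * map (algebraMap k0 K) (P a j))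
    (htr : Algebra.trdeg K M = w)
    {x : Vr n → M} (hx : ∀ i, x ⟨i, c0 i⟩ ≠ 0) (hr : Module.finrank L M ≤ r)
    (hnum : ∀ i, CstAt K x i ∨ m + mi i + s + 2 * r ≤ ∑ a, dg a i + Fintype.card A + w)
    (hgen : Algebra.IsAlgebraic (mcoords K x) M)
    (hxV : ∀ f ∈ V, aeval x (map (algebraMap k0 K) f) = 0)
    (hC : ∀ a, aeval x (F a) = 0) :
    GeneralType K L w := by
  obtain ⟨lam, hlam⟩ : ∃ lam : ι → M, ∀ i, lam i = x ⟨i, c0 i⟩ := ⟨_, fun _ => rfl⟩
  have hl : ∀ i, lam i ≠ 0 := fun i => by rw [hlam]; exact hx i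
  obtain ⟨x', hx'⟩ : ∃ x' : Vr n → M, x' = sc (fun i => (lam i)⁻¹) x := ⟨_, rfl⟩
  have hxx : x = sc lam x' := by
    funext p
    rw [hx']
    change x p = lam p.1 * ((lam p.1)⁻¹ * x p)
    rw [mul_inv_cancel_left₀ (hl _)]
  have hx1 : ∀ i, x' ⟨i, c0 i⟩ = 1 := fun i => by
    rw [hx']
    change (lam i)⁻¹ * x ⟨i, c0 i⟩ = 1
    rw [← hlam, inv_mul_cancel₀ (hl i)]
  obtain ⟨c, hc⟩ : ∃ c : Bt j0 → K, ∀ p, c p = t p.1 p.2.1 / t p.1 (j0 p.1) := ⟨_, fun _ => rfl⟩
  have hc' : c = fun p : Bt j0 => t p.1 p.2.1 / t p.1 (j0 p.1) := funext hc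
  have hFa : ∀ a, F a = MvPolynomial.C (t a (j0 a)) * NF P j0 c a := fun a => by
    rw [hF, form_eq t h0, ← hc']
  have hFx : ∀ a, aeval x (F a) = algebraMap K M (t a (j0 a)) * ((∏ i, lam i ^ dg a i) *
      aeval x' (NF P j0 c a)) := fun a => by
    rw [hFa, map_mul, aeval_C]
    congr 1
    conv_lhs => rw [hxx]
    exact aeval_sc (NF_multi hP c a) lam x'
  have ht0 : ∀ a, algebraMap K M (t a (j0 a)) ≠ 0 := fun a h => h0 a ((map_eq_zero _).1 h)
  have hl0 : ∀ a, (∏ i, lam i ^ dg a i) ≠ 0 := fun a =>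
    Finset.prod_ne_zero_iff.2 fun i _ => pow_ne_zero _ (hl i)
  have hmc : IntermediateField.adjoin K (Set.range x') = mcoords K x := by
    apply le_antisymm
    · rw [IntermediateField.adjoin_le_iff]
      rintro _ ⟨⟨i, j⟩, rfl⟩
      refine IntermediateField.subset_adjoin _ _ ⟨i, j, c0 i, hx i, ?_⟩
      rw [hx']
      change (lam i)⁻¹ * x ⟨i, j⟩ = _
      rw [hlam, div_eq_inv_mul]
    · rw [mcoords, IntermediateField.adjoin_le_iff]
      rintro _ ⟨i, j, l, h, rfl⟩
      have h1 : x ⟨i, j⟩ / x ⟨i, l⟩ = x' ⟨i, j⟩ / x' ⟨i, l⟩ := by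
        rw [hxx]
        change lam i * x' ⟨i, j⟩ / (lam i * x' ⟨i, l⟩) = _
        rw [mul_div_mul_left _ _ (hl i)]
      rw [h1]
      exact div_mem (IntermediateField.subset_adjoin _ _ ⟨_, rfl⟩)
        (IntermediateField.subset_adjoin _ _ ⟨_, rfl⟩)
  -- the field generated by the point
  obtain ⟨x1, hx1'⟩ : ∃ x1 : Vr n → IntermediateField.adjoin L (Set.range x'),
      ∀ p, (x1 p : M) = x' p :=
    ⟨fun p => ⟨x' p, IntermediateField.subset_adjoin _ _ ⟨p, rfl⟩⟩, fun _ => rfl⟩
  have hfd : FiniteDimensional (IntermediateField.adjoin L (Set.range x')) M := inferInstance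
  have htw : IsScalarTower K (IntermediateField.adjoin L (Set.range x')) M :=
    IsScalarTower.of_algebraMap_eq fun r => by
      rw [IsScalarTower.algebraMap_apply K L M,
        IsScalarTower.algebraMap_apply K L (IntermediateField.adjoin L (Set.range x'))]
      rfl
  have hess : Algebra.EssFiniteType K (IntermediateField.adjoin L (Set.range x')) :=
    Pool.Agent.N813.IM.ess_below (K := M)
  have htr1 : Algebra.trdeg K (IntermediateField.adjoin L (Set.range x')) = w := by
    have h1 := trdeg_add_eq K (IntermediateField.adjoin L (Set.range x')) (A := M)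
    rw [trdeg_eq_zero (R := IntermediateField.adjoin L (Set.range x')) (A := M),
      add_zero] at h1
    rw [h1, htr]
  have hae : ∀ G : MvPolynomial (Vr n) K, ((aeval x1 G :
      IntermediateField.adjoin L (Set.range x')) : M) = aeval x' G := by
    intro G
    have h1 : algebraMap (IntermediateField.adjoin L (Set.range x')) M (aeval x1 G) =
        aeval (fun p => algebraMap (IntermediateField.adjoin L (Set.range x')) M (x1 p)) G := by
      rw [← aeval_algebraMap_apply]
      rfl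
    have h2 : (fun p => algebraMap (IntermediateField.adjoin L (Set.range x')) M (x1 p)) = x' :=
      funext hx1'
    rw [h2] at h1
    exact h1
  have hae0 : ∀ G : MvPolynomial (Vr n) K, aeval x' G = 0 → aeval x1 G = 0 := by
    intro G hG
    apply Subtype.ext
    rw [hae, hG]
    rfl
  refine image_chart (c := c) (M := IntermediateField.adjoin L (Set.range x')) hP hV hVi hSt hw hB
    (by simpa only [hc] using hind) htr1 (x := x1) (fun i => Subtype.ext (by rw [hx1', hx1]; rfl))
    (r := r) ?_ (fun i => ?_) (alg_down (M := M) x1 ?_) (adj_top hx1')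
    (fun f hf => hae0 _ ?_) (F := NF P j0 c) (fun _ => rfl) fun a => hae0 _ ?_
  · refine le_trans ?_ hr
    exact Submodule.finrank_le (Subalgebra.toSubmodule
      (IntermediateField.adjoin L (Set.range x')).toSubalgebra)
  · rcases hnum i with ⟨z, r, h⟩ | h
    · left
      intro j
      have h2 : r ≠ 0 := by
        rintro rfl
        apply hx i
        rw [h, zero_mul]
      refine ⟨z j / z (c0 i), Subtype.ext ?_⟩
      rw [hx1', hx']
      change (lam i)⁻¹ * x ⟨i, j⟩ = algebraMap K M (z j / z (c0 i))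
      rw [map_div₀, hlam, h, h, mul_inv, ← mul_assoc, mul_assoc r⁻¹, mul_comm _ r, ← mul_assoc,
        inv_mul_cancel₀ h2, one_mul, div_eq_inv_mul]
    · exact Or.inr h
  · have h1 : (fun p => algebraMap (IntermediateField.adjoin L (Set.range x')) M (x1 p)) = x' :=
      funext hx1'
    rw [h1, hmc]
    exact hgen
  · obtain ⟨d, hd⟩ := hVh f hf
    rw [hx', aeval_sc (hd.map _), hxV f hf, mul_zero]
  · have h2 := hC a
    rw [hFx] at h2
    exact (mul_eq_zero.1 ((mul_eq_zero.1 h2).resolve_left (ht0 a))).resolve_left (hl0 a)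

end Pool.Agent.Run7.h621.MP
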