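import Pool.Agent.Run7.h621.NG.Det
import Pool.Agent.Run7.h621.FV.Pick

/-!
The rows: derivatives of a point of a product of projective spaces, extended by additional
components.
-/

set_option autoImplicit false
set_option linter.unusedSectionVars false

open MvPolynomial
open Pool.Agent.Run7.h621.NG (dt dt_lin dt_cols dt_rows dt_tri dt_diag dt_ne_zero)

namespace Pool.Agent.Run7.h621.MP

/-- The homogeneous coordinates of a product of projective spaces. -/
abbrev Vr {ι : Type} (n : ι → ℕ) : Type := (i : ι) × Fin (n i + 1)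

variable {ι : Type} [Fintype ι] [DecidableEq ι] {n : ι → ℕ}

/-- The monomial `∏ x_{i, c_i} ^ (d_i - e_i) x_{i, j_i} ^ e_i`. -/
noncomputable def sM (c : ∀ i, Fin (n i + 1)) (d : ι → ℕ) (j : ∀ i, Fin (n i + 1)) (e : ι → ℕ) :
    Vr n →₀ ℕ :=
  ∑ i, (Finsupp.single ⟨i, c i⟩ (d i - e i) + Finsupp.single ⟨i, j i⟩ (e i))

/-- The monomial `∏ x_{i, c_i} ^ d_i`. -/
noncomputable def cor (c : ∀ i, Fin (n i + 1)) (d : ι → ℕ) : Vr n →₀ ℕ :=
  ∑ i, Finsupp.single ⟨i, c i⟩ (d i)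

theorem sM_zero (c : ∀ i, Fin (n i + 1)) (d : ι → ℕ) (j : ∀ i, Fin (n i + 1)) :
    sM c d j 0 = cor c d := by
  unfold sM cor
  refine Finset.sum_congr rfl fun i _ => ?_
  rw [Pi.zero_apply, Nat.sub_zero, Finsupp.single_zero, add_zero]

theorem sM_top (c : ∀ i, Fin (n i + 1)) (d : ι → ℕ) (j : ∀ i, Fin (n i + 1)) :
    sM c d j d = cor j d := by
  unfold sM cor
  refine Finset.sum_congr rfl fun i _ => ?_
  rw [Nat.sub_self, Finsupp.single_zero, zero_add]

section mon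

variable {R : Type} [CommRing R]

/-- The value of a monomial. -/
def mon (x : Vr n → R) (u : Vr n →₀ ℕ) : R := ∏ p, x p ^ u p

theorem mon_add (x : Vr n → R) (u v : Vr n →₀ ℕ) : mon x (u + v) = mon x u * mon x v := by
  unfold mon
  rw [← Finset.prod_mul_distrib]
  exact Finset.prod_congr rfl fun i _ => by rw [Finsupp.add_apply, pow_add]

theorem mon_zero (x : Vr n → R) : mon x 0 = 1 := by
  unfold mon
  exact Finset.prod_eq_one fun p _ => by rw [Finsupp.zero_apply, pow_zero]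

theorem mon_sum {κ : Type} (s : Finset κ) (x : Vr n → R) (u : κ → Vr n →₀ ℕ) :
    mon x (∑ i ∈ s, u i) = ∏ i ∈ s, mon x (u i) := by
  classical
  induction s using Finset.induction_on with
  | empty => rw [Finset.sum_empty, Finset.prod_empty, mon_zero]
  | insert a s ha ih => rw [Finset.sum_insert ha, Finset.prod_insert ha, mon_add, ih]

theorem mon_single (x : Vr n → R) (p : Vr n) (m : ℕ) : mon x (Finsupp.single p m) = x p ^ m := by
  unfold mon
  rw [Finset.prod_eq_single p]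
  · rw [Finsupp.single_eq_same]
  · intro q _ hq
    rw [Finsupp.single_eq_of_ne hq, pow_zero]
  · intro h; exact absurd (Finset.mem_univ _) h

theorem mon_sM (x : Vr n → R) (c : ∀ i, Fin (n i + 1)) (d : ι → ℕ) (j : ∀ i, Fin (n i + 1))
    (e : ι → ℕ) : mon x (sM c d j e) = ∏ i, (x ⟨i, c i⟩ ^ (d i - e i) * x ⟨i, j i⟩ ^ e i) := by
  rw [sM, mon_sum]
  refine Finset.prod_congr rfl fun i _ => ?_
  rw [mon_add, mon_single, mon_single]

theorem mon_cor (x : Vr n → R) (c : ∀ i, Fin (n i + 1)) (d : ι → ℕ) :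
    mon x (cor c d) = ∏ i, x ⟨i, c i⟩ ^ d i := by
  rw [cor, mon_sum]
  exact Finset.prod_congr rfl fun i _ => mon_single x _ _

theorem mon_step (x : Vr n → R) (c : ∀ i, Fin (n i + 1)) {d : ι → ℕ} (j : ∀ i, Fin (n i + 1))
    {e : ι → ℕ} {i : ι} (he : e i < d i) :
    x ⟨i, c i⟩ * mon x (sM c d j (Function.update e i (e i + 1))) =
      x ⟨i, j i⟩ * mon x (sM c d j e) := by
  rw [mon_sM, mon_sM, Fintype.prod_eq_mul_prod_compl i, Fintype.prod_eq_mul_prod_compl i,
    Function.update_self]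
  have h1 : ∏ i' ∈ {i}ᶜ, (x ⟨i', c i'⟩ ^ (d i' - Function.update e i (e i + 1) i') *
      x ⟨i', j i'⟩ ^ Function.update e i (e i + 1) i') =
      ∏ i' ∈ {i}ᶜ, (x ⟨i', c i'⟩ ^ (d i' - e i') * x ⟨i', j i'⟩ ^ e i') := by
    refine Finset.prod_congr rfl fun i' hi' => ?_
    rw [Finset.mem_compl, Finset.mem_singleton] at hi'
    rw [Function.update_of_ne hi']
  rw [h1]
  have h2 : d i - e i = d i - (e i + 1) + 1 := by omega
  rw [h2, pow_succ, pow_succ]
  ring

end mon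

variable {L : Type} [Field L] {A S X τ υ : Type}

/-- The vector of a derivation, with the additional components `t`. -/
def Rd (δ : Derivation ℤ L L) (t : S → L) (x : Vr n → L) : Vr n ⊕ S → L :=
  Sum.elim (fun p => δ (x p)) t

/-- The row of a derivation. -/
def R (D : A → (Vr n →₀ ℕ) → Derivation ℤ L L) (θ : A → (Vr n →₀ ℕ) → S → L) (x : Vr n → L) (a : A)
    (I : Vr n →₀ ℕ) : Vr n ⊕ S → L := Rd (D a I) (θ a I) x

/-- The Euler vectors. -/
def Eu (κ : ι → S → L) (x : Vr n → L) (i : ι) : Vr n ⊕ S → L :=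
  Sum.elim (fun p => if p.1 = i then x p else 0) (κ i)

/-- The indices of the tangent vectors. -/
abbrev Ti (A : Type) (n : ι → ℕ) : Type := A × (∀ i, Fin (n i + 1)) × (ι → ℕ) × ι

/-- The indices of the tangent vectors that are used. -/
def Ok (dg : A → ι → ℕ) (p : Ti A n) : Prop :=
  (∀ i, p.2.2.1 i ≤ dg p.1 i) ∧ p.2.2.1 p.2.2.2 < dg p.1 p.2.2.2

omit [Fintype ι] in
theorem Ok.up {dg : A → ι → ℕ} {p : Ti A n} (h : Ok dg p) (i : ι) :
    Function.update p.2.2.1 p.2.2.2 (p.2.2.1 p.2.2.2 + 1) i ≤ dg p.1 i := by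
  by_cases hi : i = p.2.2.2
  · subst hi
    rw [Function.update_self]
    exact h.2
  · rw [Function.update_of_ne hi]
    exact h.1 i

open scoped Classical in
/-- The tangent vectors. -/
noncomputable def T (c : ∀ i, Fin (n i + 1)) (dg : A → ι → ℕ)
    (D : A → (Vr n →₀ ℕ) → Derivation ℤ L L) (θ : A → (Vr n →₀ ℕ) → S → L) (x : Vr n → L)
    (p : Ti A n) : Vr n ⊕ S → L :=
  if Ok dg p then
    x ⟨p.2.2.2, c p.2.2.2⟩ • R D θ x p.1
      (sM c (dg p.1) p.2.1 (Function.update p.2.2.1 p.2.2.2 (p.2.2.1 p.2.2.2 + 1))) -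
      x ⟨p.2.2.2, p.2.1 p.2.2.2⟩ • R D θ x p.1 (sM c (dg p.1) p.2.1 p.2.2.1) else 0

/-- The base rows. -/
noncomputable def brow (c : ∀ i, Fin (n i + 1)) (dg : A → ι → ℕ)
    (D : A → (Vr n →₀ ℕ) → Derivation ℤ L L) (θ : A → (Vr n →₀ ℕ) → S → L) (κ : ι → S → L)
    (E : X → Derivation ℤ L L) (η : X → S → L) (t : τ → Ti A n) (x : Vr n → L) :
    ι ⊕ (X ⊕ τ) → Vr n ⊕ S → L
  | Sum.inl i => Eu κ x i
  | Sum.inr (Sum.inl ξ) => Rd (E ξ) (η ξ) x
  | Sum.inr (Sum.inr y) => T c dg D θ x (t y)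

/-- The rows. -/
noncomputable def row (c : ∀ i, Fin (n i + 1)) (dg : A → ι → ℕ)
    (D : A → (Vr n →₀ ℕ) → Derivation ℤ L L) (θ : A → (Vr n →₀ ℕ) → S → L) (κ : ι → S → L)
    (E : X → Derivation ℤ L L) (η : X → S → L) (t : τ → Ti A n) (I : A → Vr n →₀ ℕ)
    (u : υ → Vr n ⊕ S → L) (x : Vr n → L) : (ι ⊕ (X ⊕ τ)) ⊕ (A ⊕ υ) → Vr n ⊕ S → L
  | Sum.inl i => brow c dg D θ κ E η t x i
  | Sum.inr (Sum.inl a) => R D θ x a (I a)
  | Sum.inr (Sum.inr y) => u y

section mod

variable {c : ∀ i, Fin (n i + 1)} {dg : A → ι → ℕ} {D : A → (Vr n →₀ ℕ) → Derivation ℤ L L}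
  {θ : A → (Vr n →₀ ℕ) → S → L}

/-- The rows, modulo the tangent vectors. -/
theorem R_mod (x : Vr n → L) (hc : ∀ i, x ⟨i, c i⟩ ≠ 0) (a : A) (j : ∀ i, Fin (n i + 1))
    {N : ℕ} {e : ι → ℕ} (he : ∀ i, e i ≤ dg a i) (hN : ∑ i, e i = N) :
    R D θ x a (sM c (dg a) j e) -
      (mon x (sM c (dg a) j e) / mon x (cor c (dg a))) • R D θ x a (cor c (dg a)) ∈
      Submodule.span L (Set.range (T c dg D θ x)) := by
  classical
  obtain ⟨W, hW⟩ : ∃ W, W = Submodule.span L (Set.range (T c dg D θ x)) := ⟨_, rfl⟩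
  have hgW : ∀ o, T c dg D θ x o ∈ W := fun o => hW ▸ Submodule.subset_span ⟨o, rfl⟩
  have hm0 : mon x (cor c (dg a)) ≠ 0 := by
    rw [mon_cor]
    exact Finset.prod_ne_zero_iff.2 fun i _ => pow_ne_zero _ (hc i)
  rw [← hW]
  induction N generalizing e with
  | zero =>
    have h0 : e = 0 := by
      funext i
      exact (Finset.sum_eq_zero_iff.1 hN) i (Finset.mem_univ _)
    rw [h0, sM_zero, div_self hm0, one_smul, sub_self]
    exact zero_mem _
  | succ N ih =>
    obtain ⟨i, hi⟩ : ∃ i, e i ≠ 0 := by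
      by_contra hcon
      push Not at hcon
      rw [Finset.sum_eq_zero fun i _ => hcon i] at hN
      omega
    obtain ⟨e', he'⟩ : ∃ e', e' = Function.update e i (e i - 1) := ⟨_, rfl⟩
    have hei : e' i = e i - 1 := by rw [he', Function.update_self]
    have hup : Function.update e' i (e' i + 1) = e := by
      rw [he', Function.update_self, Function.update_idem, Nat.sub_add_cancel (by omega),
        Function.update_eq_self]
    have hle : ∀ k, e' k ≤ dg a k := fun k => by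
      by_cases hk : k = i
      · rw [hk, hei]
        have := he i
        omega
      · rw [he', Function.update_of_ne hk]
        exact he k
    have hs : ∑ k, e' k = N := by
      have h1 : ∑ k, e k = e i + ∑ k ∈ {i}ᶜ, e k := Fintype.sum_eq_add_sum_compl i _
      have h2 : ∑ k, e' k = e' i + ∑ k ∈ {i}ᶜ, e' k := Fintype.sum_eq_add_sum_compl i _
      have h3 : ∑ k ∈ {i}ᶜ, e' k = ∑ k ∈ {i}ᶜ, e k := Finset.sum_congr rfl fun k hk => by
        rw [Finset.mem_compl, Finset.mem_singleton] at hk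
        rw [he', Function.update_of_ne hk]
      omega
    have h1 := ih hle hs
    have hlt : e' i < dg a i := by
      have := he i
      omega
    have h2 := hgW (a, j, e', i)
    simp only [T] at h2
    rw [if_pos ⟨hle, hlt⟩, hup] at h2
    have h3 := mon_step x c j (d := dg a) hlt
    rw [hup] at h3
    have hci := hc i
    have h4 : R D θ x a (sM c (dg a) j e) - (mon x (sM c (dg a) j e) / mon x (cor c (dg a))) •
        R D θ x a (cor c (dg a)) =
        (x ⟨i, c i⟩)⁻¹ • (x ⟨i, c i⟩ • R D θ x a (sM c (dg a) j e) -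
          x ⟨i, j i⟩ • R D θ x a (sM c (dg a) j e')) +
        (x ⟨i, j i⟩ / x ⟨i, c i⟩) • (R D θ x a (sM c (dg a) j e') -
          (mon x (sM c (dg a) j e') / mon x (cor c (dg a))) • R D θ x a (cor c (dg a))) := by
      have h5 : mon x (sM c (dg a) j e) = x ⟨i, j i⟩ * mon x (sM c (dg a) j e') / x ⟨i, c i⟩ := by
        rw [← h3]
        field_simp
      rw [h5]
      funext l
      simp only [Pi.add_apply, Pi.sub_apply, Pi.smul_apply, smul_eq_mul]
      field_simp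
      ring
    rw [h4]
    exact add_mem (Submodule.smul_mem _ _ h2) (Submodule.smul_mem _ _ h1)

/-- The rows of the corners. -/
theorem R_cor (x : Vr n → L) (hc : ∀ i, x ⟨i, c i⟩ ≠ 0) (a : A) (j : ∀ i, Fin (n i + 1))
    (hj : ∀ i, x ⟨i, j i⟩ ≠ 0) :
    R D θ x a (cor c (dg a)) - (mon x (cor c (dg a)) / mon x (cor j (dg a))) •
      R D θ x a (cor j (dg a)) ∈ Submodule.span L (Set.range (T c dg D θ x)) := by
  have h1 := R_mod (D := D) (θ := θ) (dg := dg) (c := c) x hc a j (e := dg a) (fun _ => le_rfl) rfl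
  rw [sM_top] at h1
  have hc0 : mon x (cor c (dg a)) ≠ 0 := by
    rw [mon_cor]
    exact Finset.prod_ne_zero_iff.2 fun i _ => pow_ne_zero _ (hc i)
  have hj0 : mon x (cor j (dg a)) ≠ 0 := by
    rw [mon_cor]
    exact Finset.prod_ne_zero_iff.2 fun i _ => pow_ne_zero _ (hj i)
  have h2 : R D θ x a (cor c (dg a)) - (mon x (cor c (dg a)) / mon x (cor j (dg a))) •
      R D θ x a (cor j (dg a)) = -(mon x (cor c (dg a)) / mon x (cor j (dg a))) •
      (R D θ x a (cor j (dg a)) - (mon x (cor j (dg a)) / mon x (cor c (dg a))) •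
        R D θ x a (cor c (dg a))) := by
    funext l
    simp only [Pi.sub_apply, Pi.smul_apply, smul_eq_mul]
    field_simp
    ring
  rw [h2]
  exact Submodule.smul_mem _ _ h1

end mod

/-- The scaling of the columns. -/
noncomputable def cS (S : Type) (lam : ι → L) : Vr n ⊕ S → L :=
  Sum.elim (fun p => (lam p.1)⁻¹) fun _ => 1

/-- The scaled point. -/
def sc (lam : ι → L) (x : Vr n → L) : Vr n → L := fun p => lam p.1 * x p

/-- The scaled additional components. -/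
noncomputable def sT (κ : ι → S → L) (lam : ι → L) (δ : Derivation ℤ L L) (t : S → L) : S → L :=
  fun s => t s - ∑ i, κ i s * (δ (lam i) / lam i)

theorem Rd_scale (κ : ι → S → L) {lam : ι → L} (hl : ∀ i, lam i ≠ 0) (δ : Derivation ℤ L L)
    (t : S → L) (x : Vr n → L) :
    (fun q => cS (n := n) S lam q * Rd δ t (sc lam x) q) =
      Rd δ (sT κ lam δ t) x + ∑ i, (δ (lam i) / lam i) • Eu κ x i := by
  funext q
  rw [Pi.add_apply, Finset.sum_apply]
  rcases q with p | s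
  · have h1 : ∑ i, ((δ (lam i) / lam i) • Eu κ x i) (Sum.inl p) =
        δ (lam p.1) / lam p.1 * x p := by
      rw [Finset.sum_eq_single p.1]
      · change δ (lam p.1) / lam p.1 * (if p.1 = p.1 then x p else 0) = _
        rw [if_pos rfl]
      · intro i _ hi
        change δ (lam i) / lam i * (if p.1 = i then x p else 0) = _
        rw [if_neg (Ne.symm hi), mul_zero]
      · intro h; exact absurd (Finset.mem_univ _) h
    rw [h1]
    change (lam p.1)⁻¹ * δ (lam p.1 * x p) = δ (x p) + _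
    rw [δ.leibniz, smul_eq_mul, smul_eq_mul]
    have := hl p.1
    field_simp
  · change 1 * t s = sT κ lam δ t s + ∑ i, δ (lam i) / lam i * κ i s
    have h1 : ∑ i, δ (lam i) / lam i * κ i s = ∑ i, κ i s * (δ (lam i) / lam i) :=
      Finset.sum_congr rfl fun i _ => mul_comm _ _
    rw [one_mul, sT, h1, sub_add_cancel]

omit [Fintype ι] in
theorem Eu_scale (κ : ι → S → L) {lam : ι → L} (hl : ∀ i, lam i ≠ 0) (x : Vr n → L) (i : ι) :
    (fun q => cS (n := n) S lam q * Eu κ (sc lam x) i q) = Eu κ x i := by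
  funext q
  rcases q with p | s
  · change (lam p.1)⁻¹ * (if p.1 = i then lam p.1 * x p else 0) = if p.1 = i then x p else 0
    split_ifs
    · rw [inv_mul_cancel_left₀ (hl _)]
    · rw [mul_zero]
  · exact one_mul _

theorem T_scale {c : ∀ i, Fin (n i + 1)} {dg : A → ι → ℕ}
    {D : A → (Vr n →₀ ℕ) → Derivation ℤ L L} {θ : A → (Vr n →₀ ℕ) → S → L}
    (κ : ι → S → L) {lam : ι → L} (hl : ∀ i, lam i ≠ 0) (x : Vr n → L) (p : Ti A n) :
    ∃ s : ι → L, (fun q => cS (n := n) S lam q * T c dg D θ (sc lam x) p q) =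
      lam p.2.2.2 • T c dg D (fun a I => sT κ lam (D a I) (θ a I)) x p +
        ∑ i, s i • Eu κ x i := by
  by_cases hp : Ok dg p
  · obtain ⟨I1, hI1⟩ : ∃ I1, I1 = sM c (dg p.1) p.2.1
      (Function.update p.2.2.1 p.2.2.2 (p.2.2.1 p.2.2.2 + 1)) := ⟨_, rfl⟩
    obtain ⟨I2, hI2⟩ : ∃ I2, I2 = sM c (dg p.1) p.2.1 p.2.2.1 := ⟨_, rfl⟩
    obtain ⟨y1, hy1⟩ : ∃ y1, y1 = x ⟨p.2.2.2, c p.2.2.2⟩ := ⟨_, rfl⟩
    obtain ⟨y2, hy2⟩ : ∃ y2, y2 = x ⟨p.2.2.2, p.2.1 p.2.2.2⟩ := ⟨_, rfl⟩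
    refine ⟨fun i => lam p.2.2.2 * y1 * (D p.1 I1 (lam i) / lam i) -
      lam p.2.2.2 * y2 * (D p.1 I2 (lam i) / lam i), ?_⟩
    have h1 := Rd_scale (n := n) κ hl (D p.1 I1) (θ p.1 I1) x
    have h2 := Rd_scale (n := n) κ hl (D p.1 I2) (θ p.1 I2) x
    simp only [T, if_pos hp, ← hI1, ← hI2, ← hy1, ← hy2]
    have e1 : sc lam x ⟨p.2.2.2, c p.2.2.2⟩ = lam p.2.2.2 * y1 := by rw [hy1]; rfl
    have e2 : sc lam x ⟨p.2.2.2, p.2.1 p.2.2.2⟩ = lam p.2.2.2 * y2 := by rw [hy2]; rfl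
    rw [e1, e2]
    have e3 : ∑ i, (lam p.2.2.2 * y1 * (D p.1 I1 (lam i) / lam i) -
        lam p.2.2.2 * y2 * (D p.1 I2 (lam i) / lam i)) • Eu κ x i =
        (lam p.2.2.2 * y1) • ∑ i, (D p.1 I1 (lam i) / lam i) • Eu κ x i -
        (lam p.2.2.2 * y2) • ∑ i, (D p.1 I2 (lam i) / lam i) • Eu κ x i := by
      rw [Finset.smul_sum, Finset.smul_sum, ← Finset.sum_sub_distrib]
      refine Finset.sum_congr rfl fun i _ => ?_
      rw [sub_smul, smul_smul, smul_smul]
    rw [e3]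
    funext q
    have h3 := congrFun h1 q
    have h4 := congrFun h2 q
    simp only [R, Pi.add_apply, Pi.sub_apply, Pi.smul_apply, smul_eq_mul] at h3 h4 ⊢
    linear_combination lam p.2.2.2 * y1 * h3 - lam p.2.2.2 * y2 * h4
  · refine ⟨0, ?_⟩
    funext q
    simp [T, if_neg hp]

end Pool.Agent.Run7.h621.MP
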