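import Pool.Agent.Run7.h621.MP.Curve

/-!
Generic and nearly generic pairs in closed subsets of products of projective spaces: the
definitions for the statements, and the main theorems.
-/

set_option autoImplicit false

namespace Pool.Agent.Run7.h621.MP.Stm

open MvPolynomial FF Pool.Agent.W603.LV Pool.Agent.W603.PV Pool.Agent.W602.GT

/-- The coordinates of a product of projective spaces of dimensions `n i`. -/
abbrev Coords {ι : Type} (n : ι → ℕ) : Type := (i : ι) × Fin (n i + 1)

/-- The point with the coordinates `x` over an extension `Ω` of `k` is a point of the closed subset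
of the product of projective spaces given by the equations in `V`. -/
def OnSet {k : Type} [Field k] {ι : Type} {n : ι → ℕ} (V : Set (MvPolynomial (Coords n) k))
    {Ω : Type} [Field Ω] [Algebra k Ω] (x : Coords n → Ω) : Prop :=
  (∀ i, ∃ j, x ⟨i, j⟩ ≠ 0) ∧ ∀ f ∈ V, aeval x f = 0

/-- The field generated over `k` by the point with the coordinates `x`: by all ratios of coordinates
of the same factor. -/
def pointField (k : Type) [Field k] {ι : Type} {n : ι → ℕ} {Ω : Type} [Field Ω] [Algebra k Ω]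
    (x : Coords n → Ω) : IntermediateField k Ω :=
  IntermediateField.adjoin k {z | ∃ (i : ι) (j l : Fin (n i + 1)), x ⟨i, l⟩ ≠ 0 ∧
    z = x ⟨i, j⟩ / x ⟨i, l⟩}

/-- The forms of degrees `d i` in the coordinates of the factor `i`. -/
def IsForm {R : Type} [CommRing R] {ι : Type} [DecidableEq ι] {n : ι → ℕ} (F : MvPolynomial (Coords n) R)
    (d : ι → ℕ) : Prop :=
  ∀ i, F.IsWeightedHomogeneous (fun p : Coords n => if p.1 = i then 1 else 0) (d i)

/-- The set `V` of multihomogeneous equations over `k` defines a closed subset of dimension at most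
`m`, whose projection to the factor `i` has dimension at most `mi i`. -/
def SetDim {k : Type} [Field k] {ι : Type} [DecidableEq ι] {n : ι → ℕ}
    (V : Set (MvPolynomial (Coords n) k)) (m : ℕ) (mi : ι → ℕ) : Prop :=
  (∀ f ∈ V, ∃ e, IsForm f e) ∧ ∀ (Ω : Type) [Field Ω] [Algebra k Ω] (x : Coords n → Ω),
    OnSet V x → Algebra.trdeg k (pointField k x) ≤ m ∧
      ∀ i, Algebra.trdeg k (coords k fun j => x ⟨i, j⟩) ≤ mi i

/-- The family `P` of forms of degrees `d i` contains all products over the factors of monomials of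
degree `d i` in `x_{i, c i}` and another coordinate of the factor `i`. -/
def HasMonomials {k : Type} [Field k] {ι : Type} [Fintype ι] {n : ι → ℕ} {J : Type}
    (P : J → MvPolynomial (Coords n) k) (d : ι → ℕ) (c : ∀ i, Fin (n i + 1)) : Prop :=
  ∀ (l : ∀ i, Fin (n i + 1)) (e : ι → ℕ), (∀ i, e i ≤ d i) →
    ∃ j, P j = ∏ i, (X ⟨i, c i⟩ ^ (d i - e i) * X ⟨i, l i⟩ ^ e i)

/-- The ratios of the coefficients `t a j` of the forms to those with `j = j0 a`, which are not `0`,
generate a field of transcendence degree at least their number minus `s` over `k`. -/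
def CodimLE (k : Type) {K A : Type} [Field k] [Field K] [Algebra k K] {J : A → Type}
    (t : ∀ a, J a → K) (j0 : ∀ a, J a) (s : ℕ) : Prop :=
  (∀ a, t a (j0 a) ≠ 0) ∧ (Nat.card ((a : A) × {j : J a // j ≠ j0 a}) : Cardinal) ≤
    Algebra.trdeg k (IntermediateField.adjoin k (Set.range
      fun p : (a : A) × {j : J a // j ≠ j0 a} => t p.1 p.2.1 / t p.1 (j0 p.1))) + s

/-- The point `x` over the extension `L` of `K` satisfies the equations in `V`, and `F a = 0` exactly
for `a ∈ C`. -/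
def OnPair {k K : Type} [Field k] [Field K] [Algebra k K] {A ι : Type} {n : ι → ℕ}
    (V : Set (MvPolynomial (Coords n) k)) (F : A → MvPolynomial (Coords n) K) (C : Finset A)
    {L : Type} [Field L] [Algebra K L] (x : Coords n → L) : Prop :=
  (∀ f ∈ V, aeval x (map (algebraMap k K) f) = 0) ∧ ∀ a, aeval x (F a) = 0 ↔ a ∈ C

/-- The projection of the point `x` to the factor `i` is constant, that is, defined over `K`. -/
def ConstAt (K : Type) {L ι : Type} [Field K] [Field L] [Algebra K L] {n : ι → ℕ}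
    (x : Coords n → L) (i : ι) : Prop :=
  ∃ (z : Fin (n i + 1) → K) (r : L), ∀ j, x ⟨i, j⟩ = r * algebraMap K L (z j)

/-- The places `Q` that are mapped to the boundary: `x` meets the hypersurface `F b = 0` at `Q` for
some `b` not in `C`. -/
def toBoundary {K : Type} [Field K] {A ι : Type} [Fintype ι] {n : ι → ℕ} (C : Finset A)
    (F : A → MvPolynomial (Coords n) K) (d : A → ι → ℕ) {L : Type} [Field L] [Algebra K L]
    (x : Coords n → L) : Set (Place K L) :=
  {Q | ∃ b, b ∉ C ∧ ∑ i, (d b i : ℤ) * pord Q (fun j => x ⟨i, j⟩) < Q.ord (aeval x (F b))}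

section

variable {k K : Type} [Field k] [Field K] [IsAlgClosed K] [CharZero K] [Algebra k K]
  {ι : Type} [Fintype ι] [DecidableEq ι] {n : ι → ℕ} {m s : ℕ} {mi : ι → ℕ}
  {V : Set (MvPolynomial (Coords n) (algebraicClosure k K))}
  {A : Type} [Fintype A] {d : A → ι → ℕ} {J : A → Type} [∀ a, Fintype (J a)]
  {P : ∀ a, J a → MvPolynomial (Coords n) (algebraicClosure k K)}
  {Z : Set (∀ i, Fin (n i + 1))} {t : ∀ a, J a → K} {j0 : ∀ a, J a}
  {F : A → MvPolynomial (Coords n) K}

omit [IsAlgClosed K] [CharZero K] [Fintype A] [∀ a, Fintype (J a)] in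
theorem hSt_of {a : A} {c : ∀ i, Fin (n i + 1)} (h : HasMonomials (P a) (d a) c)
    (l : ∀ i, Fin (n i + 1)) (e : ι → ℕ) (he : ∀ i, e i ≤ d a i) :
    ∃ j', P a j' = monomial (Pool.Agent.Run7.h621.MP.sM c (d a) l e) 1 := by
  classical
  obtain ⟨j, hj⟩ := h l e he
  refine ⟨j, ?_⟩
  rw [hj, Pool.Agent.Run7.h621.MP.sM]
  rw [show (monomial (∑ i, (Finsupp.single (⟨i, c i⟩ : Coords n) (d a i - e i) +
    Finsupp.single ⟨i, l i⟩ (e i))) (1 : algebraicClosure k K)) =
    ∏ i, monomial (Finsupp.single (⟨i, c i⟩ : Coords n) (d a i - e i) +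
    Finsupp.single ⟨i, l i⟩ (e i)) (1 : algebraicClosure k K) from
      monomial_sum_one _ _]
  refine Finset.prod_congr rfl fun i _ => ?_
  rw [X_pow_eq_monomial, X_pow_eq_monomial, monomial_mul, one_mul]

/-- The degrees of curves. -/
theorem degrees (hV : SetDim V m mi) (hP : ∀ a j, IsForm (P a j) (d a))
    (hZ : ∀ c ∈ Z, ∀ a, HasMonomials (P a) (d a) c) (hgen : CodimLE k t j0 s)
    (hF : ∀ a, F a =
      ∑ j, MvPolynomial.C (t a j) * map (algebraMap (algebraicClosure k K) K) (P a j))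
    (C : Finset A) {L : Type} [Field L] [Algebra K L] [IsFF K L] {x : Coords n → L}
    (hx0 : ∃ c ∈ Z, ∀ i, x ⟨i, c i⟩ ≠ 0) (hx : OnPair V F C x)
    (hnc : ∃ (i : ι) (j l : Fin (n i + 1)), Transcendental K (x ⟨i, j⟩ / x ⟨i, l⟩)) :
    (toBoundary C F d x).Finite ∧
      ∑ i, ((∑ a, (d a i : ℤ)) + C.card - m - mi i - s) * pht K (fun j => x ⟨i, j⟩) ≤
        canDeg K L + (toBoundary C F d x).ncard := by
  classical
  have hac : IsAlgClosed (algebraicClosure k K) := (algebraicClosure.isAlgClosure k K).isAlgClosed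
  obtain ⟨B, hB, hBs⟩ := Pool.Agent.Run7.h621.NG.exists_indep _ hgen.2
  obtain ⟨c, hc, hxc⟩ := hx0
  have h1 := Pool.Agent.Run7.h621.MP.curve_sub hP C hV.1
    (fun Ω _ _ x hx hxV => (hV.2 Ω x ⟨hx, hxV⟩).1)
    (fun i Ω _ _ x hx hxV => (hV.2 Ω x ⟨hx, hxV⟩).2 i)
    (fun a => hSt_of (hZ c hc a)) t hgen.1 hBs hB.algebraicClosure hF hxc hnc hx.1
    (fun a ha => (hx.2 a).2 ha) (fun a ha h => ha ((hx.2 a).1 h))
  refine ⟨h1.1, le_trans (le_of_eq ?_) h1.2⟩
  refine Finset.sum_congr rfl fun i _ => ?_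
  unfold Pool.Agent.Run7.h621.MP.num
  push_cast
  ring

/-- Closed subvarieties. -/
theorem subvarieties (hV : SetDim V m mi) (hP : ∀ a j, IsForm (P a j) (d a))
    (hZ : ∀ c ∈ Z, ∀ a, HasMonomials (P a) (d a) c) (hgen : CodimLE k t j0 s)
    (hF : ∀ a, F a =
      ∑ j, MvPolynomial.C (t a j) * map (algebraMap (algebraicClosure k K) K) (P a j))
    (C : Finset A) {L : Type} [Field L] [Algebra K L] {w : ℕ} {x : Coords n → L} (hw : 0 < w)
    (htr : Algebra.trdeg K L = w) (hx0 : ∃ c ∈ Z, ∀ i, x ⟨i, c i⟩ ≠ 0)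
    (hxL : Algebra.IsAlgebraic (pointField K x) L) (hx : OnPair V F C x)
    (hnum : ∀ i, ConstAt K x i ∨ m + mi i + s + 2 ≤ ∑ a, d a i + C.card + w) :
    LogGeneralType K L w fun Q => Q ∈ toBoundary C F d x := by
  classical
  have hac : IsAlgClosed (algebraicClosure k K) := (algebraicClosure.isAlgClosure k K).isAlgClosed
  obtain ⟨B, hB, hBs⟩ := Pool.Agent.Run7.h621.NG.exists_indep _ hgen.2
  obtain ⟨c, hc, hxc⟩ := hx0
  exact Pool.Agent.Run7.h621.MP.log_sub hP C hV.1
    (fun Ω _ _ x hx hxV => (hV.2 Ω x ⟨hx, hxV⟩).1)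
    (fun i Ω _ _ x hx hxV => (hV.2 Ω x ⟨hx, hxV⟩).2 i)
    (fun a => hSt_of (hZ c hc a)) hw t hgen.1 hBs hB.algebraicClosure hF htr hxc hnum hxL hx.1
    (fun a ha => (hx.2 a).2 ha) (fun a ha h => ha ((hx.2 a).1 h))

end

end Pool.Agent.Run7.h621.MP.Stm
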