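import Pool.Agent.Run7.h621.MP.Surf
import Pool.Agent.Run7.h621.MP.Arith

/-!
Finiteness of the points over finitely generated fields.
-/

set_option autoImplicit false
set_option linter.unusedSectionVars false

namespace Pool.Agent.Run7.h621.MP.Stm

open MvPolynomial FF Pool.Agent.W603.LV Pool.Agent.W603.PV Pool.Agent.W602.GT

/-- The points over the field generated over `k` by the set `T` of the complete intersection of the
closed subset `V` with the hypersurfaces `F a = 0`, such that, for some choice `c` of coordinates in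
`Z`, none of the coordinates `c i` of the factors `i` is zero. -/
def PointsOver {k K : Type} [Field k] [Field K] [Algebra k K] {A ι : Type} {n : ι → ℕ}
    (V : Set (MvPolynomial (Coords n) k)) (F : A → MvPolynomial (Coords n) K)
    (Z : Set (∀ i, Fin (n i + 1))) (T : Set K) :
    Set (∀ i, Projectivization K (Fin (n i + 1) → K)) :=
  {p | (∃ c ∈ Z, ∀ i, (p i).rep (c i) ≠ 0) ∧ ∃ x : Coords n → K,
    (∀ q, x q ∈ IntermediateField.adjoin k T) ∧ (∀ f ∈ V, aeval x f = 0) ∧
    (∀ a, aeval x (F a) = 0) ∧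
    ∃ hx : ∀ i, (fun j => x ⟨i, j⟩) ≠ 0, ∀ i, p i = Projectivization.mk K _ (hx i)}

variable {k K : Type} [Field k] [Field K] [IsAlgClosed K] [CharZero K] [Algebra k K]
    {ι : Type} [Fintype ι] [DecidableEq ι] {n : ι → ℕ} {m s : ℕ} {mi : ι → ℕ}
    {V : Set (MvPolynomial (Coords n) (algebraicClosure k K))}
    {A : Type} [Fintype A] {d : A → ι → ℕ} {J : A → Type} [∀ a, Fintype (J a)]
    {P : ∀ a, J a → MvPolynomial (Coords n) (algebraicClosure k K)} {Z : Set (∀ i, Fin (n i + 1))}
    {t : ∀ a, J a → K} {j0 : ∀ a, J a} {F : A → MvPolynomial (Coords n) K}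

/-- Finiteness of the points over finitely generated fields. -/
theorem finite_points (hV : SetDim V m mi)
    (hP : ∀ a j, IsForm (P a j) (d a)) (hZ : ∀ c ∈ Z, ∀ a, HasMonomials (P a) (d a) c)
    (hgen : CodimLE k t j0 s)
    (hF : ∀ a, F a =
      ∑ j, MvPolynomial.C (t a j) * map (algebraMap (algebraicClosure k K) K) (P a j))
    (hnum : ∀ i, m + mi i + s + 2 ≤ ∑ a, (d a i + 1)) (T : Finset K) :
    (PointsOver V F Z (T : Set K)).Finite := by
  classical
  have hac : IsAlgClosed (algebraicClosure k K) := (algebraicClosure.isAlgClosure k K).isAlgClosed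
  obtain ⟨B, hB, hBs⟩ := Pool.Agent.Run7.h621.NG.exists_indep _ hgen.2
  have h1 := Pool.Agent.Run7.h621.MP.fin_points hP hV.1
    (fun Ω _ _ x hx hxV => (hV.2 Ω x ⟨hx, hxV⟩).1)
    (fun i Ω _ _ x hx hxV => (hV.2 Ω x ⟨hx, hxV⟩).2 i) Z
    (fun c hc a => hSt_of (hZ c hc a)) hnum t hgen.1 hBs hB.algebraicClosure hF T
  refine h1.subset ?_
  rintro p ⟨hc, x, h2, h3, h4, h5⟩
  refine ⟨hc, x, h2, h3, fun a => ?_, h5⟩
  rw [← h4 a, aeval_def]
  rfl

end Pool.Agent.Run7.h621.MP.Stm
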