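import Pool.Agent.Run7.h621.MP.Stm
import Pool.Agent.Y735.MainL

/-!
Curves on surfaces.
-/

set_option autoImplicit false
set_option linter.unusedSectionVars false

namespace Pool.Agent.Run7.h621.MP.Stm

open MvPolynomial FF Pool.Agent.W603.LV Pool.Agent.W603.PV Pool.Agent.W602.GT

/-- Products of projective spaces. -/
theorem setDim_top (k : Type) [Field k] {ι : Type} [Fintype ι] [DecidableEq ι] (n : ι → ℕ) :
    SetDim (∅ : Set (MvPolynomial (Coords n) k)) (∑ i, n i) n := by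
  classical
  refine ⟨fun f hf => hf.elim, fun Ω _ _ x hx => ⟨?_, fun i => ?_⟩⟩
  · choose c hc using hx.1
    obtain ⟨y, hy⟩ : ∃ y : ((i : ι) × {j : Fin (n i + 1) // j ≠ c i}) → Ω,
      ∀ p, y p = x ⟨p.1, p.2.1⟩ / x ⟨p.1, c p.1⟩ := ⟨_, fun _ => rfl⟩
    have hmem : ∀ i j, x ⟨i, j⟩ / x ⟨i, c i⟩ ∈ IntermediateField.adjoin k (Set.range y) := by
      intro i j
      by_cases hj : j = c i
      · rw [hj, div_self (hc i)]
        exact one_mem _
      · exact IntermediateField.subset_adjoin _ _ ⟨⟨i, j, hj⟩, hy _⟩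
    have h1 : pointField k x ≤ IntermediateField.adjoin k (Set.range y) := by
      rw [pointField, IntermediateField.adjoin_le_iff]
      rintro _ ⟨i, j, l, hl, rfl⟩
      have h2 : x ⟨i, j⟩ / x ⟨i, l⟩ = (x ⟨i, j⟩ / x ⟨i, c i⟩) / (x ⟨i, l⟩ / x ⟨i, c i⟩) := by
        have := hc i
        field_simp
      rw [h2]
      exact div_mem (hmem i j) (hmem i l)
    refine (Pool.Agent.Run7.h621.FV.trdeg_le_card y _ h1).trans ?_
    rw [Fintype.card_sigma]
    have h2 : ∀ i, Fintype.card {j : Fin (n i + 1) // j ≠ c i} = n i := fun i => by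
      rw [Fintype.card_subtype_compl, Fintype.card_fin, Fintype.card_subtype_eq]
      omega
    rw [Finset.sum_congr rfl fun i _ => h2 i]
  · refine Pool.Agent.Y735.dim_top k (n i) Ω (fun j => x ⟨i, j⟩) ?_ fun f hf => hf.elim
    obtain ⟨j, hj⟩ := hx.1 i
    exact Function.ne_iff.2 ⟨j, hj⟩

theorem pht_nonneg {K L : Type} [Field K] [Field L] [Algebra K L] [IsAlgClosed K] [CharZero K]
    [IsFF K L] {n : ℕ} {f : Fin (n + 1) → L} {j : Fin (n + 1)} (hj : f j ≠ 0) : 0 ≤ pht K f :=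
  (hgt_nonneg _).trans (Pool.Agent.W603.CX.hgt_le_pht (k := K) f hj hj)

/-- Curves on surfaces, with a real constant. -/
theorem surface {k K : Type} [Field k] [Field K] [IsAlgClosed K] [CharZero K] [Algebra k K]
    {ι : Type} [Fintype ι] [DecidableEq ι] {n : ι → ℕ} {m s : ℕ} {mi : ι → ℕ}
    {V : Set (MvPolynomial (Coords n) (algebraicClosure k K))} (hV : SetDim V m mi)
    {A : Type} [Fintype A] {d : A → ι → ℕ} {J : A → Type} [∀ a, Fintype (J a)]
    {P : ∀ a, J a → MvPolynomial (Coords n) (algebraicClosure k K)}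
    (hP : ∀ a j, IsForm (P a j) (d a)) {Z : Set (∀ i, Fin (n i + 1))}
    (hZ : ∀ c ∈ Z, ∀ a, HasMonomials (P a) (d a) c)
    {t : ∀ a, J a → K} {j0 : ∀ a, J a} (hgen : CodimLE k t j0 s)
    {F : A → MvPolynomial (Coords n) K}
    (hF : ∀ a, F a =
      ∑ j, MvPolynomial.C (t a j) * map (algebraMap (algebraicClosure k K) K) (P a j))
    (hA : Fintype.card A + 2 = m) (v : ι → ℤ) {α : ℝ} (hα : 0 ≤ α)
    (hv : ∀ i, ((v i : ℝ) + ∑ a, (d a i : ℝ)) ≤ α * (∑ a, (d a i : ℝ) - 2 - mi i - s))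
    {L : Type} [Field L] [Algebra K L] [IsFF K L] {x : Coords n → L}
    (hx0 : ∃ c ∈ Z, ∀ i, x ⟨i, c i⟩ ≠ 0) (hx : OnPair V F Finset.univ x)
    (hnc : ∃ (i : ι) (j l : Fin (n i + 1)), Transcendental K (x ⟨i, j⟩ / x ⟨i, l⟩)) :
    ((∑ i, (v i + ∑ a, (d a i : ℤ)) * pht K (fun j => x ⟨i, j⟩) : ℤ) : ℝ) ≤ α * canDeg K L := by
  classical
  obtain ⟨h1, h2⟩ := degrees hV hP hZ hgen hF Finset.univ hx0 hx hnc
  have h3 : toBoundary Finset.univ F d x = ∅ := by
    rw [Set.eq_empty_iff_forall_notMem]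
    rintro Q ⟨b, hb, -⟩
    exact hb (Finset.mem_univ b)
  rw [h3, Set.ncard_empty, Nat.cast_zero, add_zero] at h2
  obtain ⟨c, -, hc⟩ := hx0
  have h4 : ∀ i, (0 : ℝ) ≤ (pht K fun j => x ⟨i, j⟩ : ℤ) := fun i => by
    exact_mod_cast pht_nonneg (K := K) (f := fun j => x ⟨i, j⟩) (hc i)
  have h5 : (α * ∑ i, ((∑ a, (d a i : ℝ)) - 2 - mi i - s) * (pht K fun j => x ⟨i, j⟩ : ℤ)) ≤
      α * canDeg K L := by
    refine mul_le_mul_of_nonneg_left ?_ hα
    have h6 : ((∑ i, ((∑ a, (d a i : ℤ)) + (Finset.univ : Finset A).card - m - mi i - s) *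
        pht K (fun j => x ⟨i, j⟩) : ℤ) : ℝ) ≤ (canDeg K L : ℤ) := by exact_mod_cast h2
    refine le_trans (le_of_eq ?_) h6
    push_cast
    refine Finset.sum_congr rfl fun i _ => ?_
    rw [← hA, Finset.card_univ]
    push_cast
    ring
  refine le_trans ?_ h5
  push_cast
  rw [Finset.mul_sum]
  refine Finset.sum_le_sum fun i _ => ?_
  rw [← mul_assoc]
  exact mul_le_mul_of_nonneg_right (hv i) (h4 i)

theorem boundary_univ {K : Type} [Field K] {A ι : Type} [Fintype A] [Fintype ι] {n : ι → ℕ}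
    (F : A → MvPolynomial (Coords n) K) (d : A → ι → ℕ) {L : Type} [Field L] [Algebra K L]
    (x : Coords n → L) : toBoundary Finset.univ F d x = ∅ := by
  rw [Set.eq_empty_iff_forall_notMem]
  rintro Q ⟨b, hb, -⟩
  exact hb (Finset.mem_univ b)

theorem general_of_log {K L : Type} [Field K] [Field L] [Algebra K L] {w : ℕ}
    {Bd : Place K L → Prop} (h : LogGeneralType K L w Bd) (hB : ∀ Q, ¬ Bd Q) :
    GeneralType K L w := by
  obtain ⟨htr, N, hN, ω, h1, -, h2, h3⟩ := h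
  exact ⟨htr, N, hN, ω, h1, fun Q hQ => h2 Q hQ (hB Q), h3⟩

section proj

variable {k K : Type} [Field k] [Field K] [IsAlgClosed K] [CharZero K] [Algebra k K]
    {ι : Type} [Fintype ι] [DecidableEq ι] {n : ι → ℕ} {m s : ℕ} {mi : ι → ℕ}
    {V : Set (MvPolynomial (Coords n) (algebraicClosure k K))}
    {A : Type} [Fintype A] {d : A → ι → ℕ} {J : A → Type} [∀ a, Fintype (J a)]
    {P : ∀ a, J a → MvPolynomial (Coords n) (algebraicClosure k K)} {Z : Set (∀ i, Fin (n i + 1))}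
    {t : ∀ a, J a → K} {j0 : ∀ a, J a} {F : A → MvPolynomial (Coords n) K}

/-- The degrees of curves on complete intersections. -/
theorem proj_degrees (hV : SetDim V m mi)
    (hP : ∀ a j, IsForm (P a j) (d a)) (hZ : ∀ c ∈ Z, ∀ a, HasMonomials (P a) (d a) c)
    (hgen : CodimLE k t j0 s)
    (hF : ∀ a, F a =
      ∑ j, MvPolynomial.C (t a j) * map (algebraMap (algebraicClosure k K) K) (P a j))
    {L : Type} [Field L] [Algebra K L] [IsFF K L] {x : Coords n → L}
    (hx0 : ∃ c ∈ Z, ∀ i, x ⟨i, c i⟩ ≠ 0) (hx : OnPair V F Finset.univ x)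
    (hnc : ∃ (i : ι) (j l : Fin (n i + 1)), Transcendental K (x ⟨i, j⟩ / x ⟨i, l⟩)) :
    ∑ i, ((∑ a, ((d a i : ℤ) + 1)) - m - mi i - s) * pht K (fun j => x ⟨i, j⟩) ≤
      canDeg K L := by
  obtain ⟨-, h2⟩ := degrees hV hP hZ hgen hF Finset.univ hx0 hx hnc
  rw [boundary_univ, Set.ncard_empty, Nat.cast_zero, add_zero] at h2
  refine le_trans (le_of_eq ?_) h2
  refine Finset.sum_congr rfl fun i _ => ?_
  rw [Finset.sum_add_distrib, Finset.sum_const, nsmul_eq_mul, mul_one]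

/-- Closed subvarieties of complete intersections. -/
theorem proj_subvarieties (hV : SetDim V m mi)
    (hP : ∀ a j, IsForm (P a j) (d a)) (hZ : ∀ c ∈ Z, ∀ a, HasMonomials (P a) (d a) c)
    (hgen : CodimLE k t j0 s)
    (hF : ∀ a, F a =
      ∑ j, MvPolynomial.C (t a j) * map (algebraMap (algebraicClosure k K) K) (P a j))
    {L : Type} [Field L] [Algebra K L] {w : ℕ} {x : Coords n → L} (hw : 0 < w)
    (htr : Algebra.trdeg K L = w) (hx0 : ∃ c ∈ Z, ∀ i, x ⟨i, c i⟩ ≠ 0)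
    (hxL : Algebra.IsAlgebraic (pointField K x) L) (hx : OnPair V F Finset.univ x)
    (hnum : ∀ i, ConstAt K x i ∨ m + mi i + s + 2 ≤ ∑ a, (d a i + 1) + w) :
    GeneralType K L w := by
  refine general_of_log (subvarieties hV hP hZ hgen hF Finset.univ hw htr hx0 hxL hx fun i => ?_)
    fun Q hQ => ?_
  · rcases hnum i with h | h
    · exact Or.inl h
    · right
      rwa [Finset.sum_add_distrib, Finset.sum_const, smul_eq_mul, mul_one] at h
  · rw [boundary_univ] at hQ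
    exact hQ

end proj

end Pool.Agent.Run7.h621.MP.Stm
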