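import Pool.Agent.Run7.h621.MP.Pick
import Pool.Agent.Run7.h621.FV.Rank
import Pool.Agent.TH145.GE.Duals

/-!
The dimension of the space of the tangent vectors.
-/

set_option autoImplicit false
set_option linter.unusedSectionVars false

open MvPolynomial Pool.Agent.TH145.MG Pool.Agent.W602.GT
open Pool.Agent.TH145.GC (Tan der_zero_of_alg)
open Pool.Agent.TH145.GE (tan_rank)
open Pool.Agent.Run7.h621.FV (exists_tr)

namespace Pool.Agent.Run7.h621.MP

variable {ι : Type} {n : ι → ℕ}

/-- The field generated by the ratios of the homogeneous coordinates of a point of a product of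
projective spaces. -/
def mcoords (k : Type) {ι : Type} {n : ι → ℕ} {Ω : Type} [Field k] [Field Ω] [Algebra k Ω]
    (x : Vr n → Ω) : IntermediateField k Ω :=
  IntermediateField.adjoin k {z | ∃ (i : ι) (j l : Fin (n i + 1)), x ⟨i, l⟩ ≠ 0 ∧
    z = x ⟨i, j⟩ / x ⟨i, l⟩}

/-- The closed subset of a product of projective spaces given by the equations in `V` has dimension
at most `m`. -/
def MDimLE (k : Type) {ι : Type} {n : ι → ℕ} [Field k] (V : Set (MvPolynomial (Vr n) k)) (m : ℕ) :
    Prop :=
  ∀ (Ω : Type) [Field Ω] [Algebra k Ω] (x : Vr n → Ω), (∀ i, ∃ j, x ⟨i, j⟩ ≠ 0) →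
    (∀ f ∈ V, aeval x f = 0) → Algebra.trdeg k (mcoords k x) ≤ m

/-- Its image in the factor `i` has dimension at most `m`. -/
def PrDimLE (k : Type) {ι : Type} {n : ι → ℕ} [Field k] (V : Set (MvPolynomial (Vr n) k)) (i : ι)
    (m : ℕ) : Prop :=
  ∀ (Ω : Type) [Field Ω] [Algebra k Ω] (x : Vr n → Ω), (∀ i, ∃ j, x ⟨i, j⟩ ≠ 0) →
    (∀ f ∈ V, aeval x f = 0) → Algebra.trdeg k (coords k fun j => x ⟨i, j⟩) ≤ m

theorem trdeg_chart {k Ω : Type} [Field k] [Field Ω] [Algebra k Ω] {m : ℕ} {x : Vr n → Ω}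
    {c : ∀ i, Fin (n i + 1)} (hc : ∀ i, x ⟨i, c i⟩ = 1)
    (h : Algebra.trdeg k (mcoords k x) ≤ m) :
    Algebra.trdeg k (IntermediateField.adjoin k (Set.range x)) ≤ m := by
  have h1 : IntermediateField.adjoin k (Set.range x) ≤ mcoords k x := by
    rw [IntermediateField.adjoin_le_iff]
    rintro _ ⟨⟨i, j⟩, rfl⟩
    refine IntermediateField.subset_adjoin _ _ ⟨i, j, c i, ?_, ?_⟩
    · rw [hc]; exact one_ne_zero
    · rw [hc, div_one]
  exact (trdeg_le_of_injective (IntermediateField.inclusion h1)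
    (IntermediateField.inclusion_injective _)).trans h

variable [Fintype ι] [DecidableEq ι] {L : Type} [Field L]

/-- The vectors that are sums of multiples of the factors of `x` and of a derivative of `x`. -/
def MTan (k0 : Type) [Field k0] [Algebra k0 L] (x : Vr n → L) : Submodule L (Vr n → L) where
  carrier := {z | ∃ (s : ι → L) (E : Derivation ℤ L L), (∀ r : k0, E (algebraMap k0 L r) = 0) ∧
    ∀ p, z p = s p.1 * x p + E (x p)}
  add_mem' := by
    rintro y z ⟨c, E, hE, hy⟩ ⟨c', E', hE', hz⟩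
    refine ⟨c + c', E + E', fun r => by rw [Derivation.add_apply, hE, hE', add_zero], fun l => ?_⟩
    rw [Pi.add_apply, hy, hz, Derivation.add_apply, Pi.add_apply]
    ring
  zero_mem' := ⟨0, 0, fun _ => rfl, fun l => by simp⟩
  smul_mem' := by
    rintro s z ⟨c, E, hE, hz⟩
    refine ⟨s • c, s • E, fun r => by rw [Derivation.smul_apply, hE, smul_zero], fun l => ?_⟩
    rw [Pi.smul_apply, hz, Derivation.smul_apply, Pi.smul_apply, smul_eq_mul, smul_eq_mul,
      smul_eq_mul]
    ring

theorem mtan_block {k0 : Type} [Field k0] [Algebra k0 L] [CharZero L] {x : Vr n → L}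
    {c : ∀ i, Fin (n i + 1)} (hc : ∀ i, x ⟨i, c i⟩ = 1) {i : ι} {m : ℕ}
    (h : Algebra.trdeg k0 (coords k0 fun j => x ⟨i, j⟩) ≤ m) :
    Module.finrank L ((MTan k0 x).map (blk L n i)) ≤ m + 1 := by
  have h1 : (MTan k0 x).map (blk L n i) ≤ Tan k0 (fun j => x ⟨i, j⟩) := by
    rintro _ ⟨z, ⟨s, E, hE, hz⟩, rfl⟩
    exact ⟨s i, E, hE, fun j => hz ⟨i, j⟩⟩
  exact (Submodule.finrank_mono h1).trans (tan_rank (l0 := c i) (hc i) h)

theorem mtan_rank {k0 : Type} [Field k0] [Algebra k0 L] [CharZero L] {x : Vr n → L}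
    {c : ∀ i, Fin (n i + 1)} (hc : ∀ i, x ⟨i, c i⟩ = 1) {m : ℕ}
    (h : Algebra.trdeg k0 (IntermediateField.adjoin k0 (Set.range x)) ≤ m) :
    Module.finrank L (MTan k0 x) ≤ m + Fintype.card ι := by
  classical
  obtain ⟨I, hI, hIx⟩ := exists_tr x h
  obtain ⟨f, hf⟩ : ∃ f : MTan k0 x →ₗ[L] (ι ⊕ {i // i ∈ I} → L), ∀ z,
      (∀ i, f z (Sum.inl i) = z.1 ⟨i, c i⟩) ∧ ∀ i, f z (Sum.inr i) = z.1 i.1 :=
    ⟨{ toFun := fun z i => match i with
        | Sum.inl i => z.1 ⟨i, c i⟩
        | Sum.inr i => z.1 i.1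
       map_add' := fun _ _ => by
        funext i
        rcases i with p | i
        · rfl
        · rfl
       map_smul' := fun _ _ => by
        funext i
        rcases i with p | i
        · rfl
        · rfl }, fun _ => ⟨fun _ => rfl, fun _ => rfl⟩⟩
  have hinj : Function.Injective f := by
    rw [← LinearMap.ker_eq_bot, LinearMap.ker_eq_bot']
    rintro ⟨z, s, E, hE, hz⟩ h0
    have h1 : ∀ i, z ⟨i, c i⟩ = 0 := fun i => by
      have := congrFun h0 (Sum.inl i)
      rw [(hf _).1] at this
      exact this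
    have h2 : ∀ i ∈ I, z i = 0 := fun i hi => by
      have := congrFun h0 (Sum.inr ⟨i, hi⟩)
      rw [(hf _).2] at this
      exact this
    have hs : s = 0 := by
      funext i
      have h3 := h1 i
      rw [hz, hc, E.map_one_eq_zero, mul_one, add_zero] at h3
      exact h3
    have hEI : ∀ i ∈ I, E (x i) = 0 := fun i hi => by
      have h3 := h2 i hi
      rwa [hz, hs, Pi.zero_apply, zero_mul, zero_add] at h3
    -- the field of the constants
    have hZ : ∀ w ∈ Subfield.closure (Set.range (algebraMap k0 L) ∪ x '' (I : Set (Vr n))),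
        E w = 0 := by
      intro w hw
      induction hw using Subfield.closure_induction with
      | mem w hw =>
        rcases hw with ⟨r, rfl⟩ | ⟨i, hi, rfl⟩
        · exact hE r
        · exact hEI i hi
      | one => exact E.map_one_eq_zero
      | add a b _ _ ha hb => rw [map_add, ha, hb, add_zero]
      | neg a _ ha => rw [map_neg, ha, neg_zero]
      | inv a _ ha => rw [Derivation.leibniz_inv, ha, smul_zero]
      | mul a b _ _ ha hb => rw [E.leibniz, ha, hb, smul_zero, smul_zero, add_zero]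
    have hx : ∀ p : Vr n, E (x p) = 0 := by
      intro i
      refine der_zero_of_alg E _ hZ ?_
      have h2 := mem_cl.1 (hIx i)
      have h3 : (IntermediateField.adjoin k0 (x '' (I : Set (Vr n)))).toSubfield =
        Subfield.closure (Set.range (algebraMap k0 L) ∪ x '' (I : Set (Vr n))) :=
        IntermediateField.adjoin_toSubfield _ _
      rw [← h3]
      exact h2
    apply Subtype.ext
    change z = 0
    funext p
    rw [hz, hs, hx, Pi.zero_apply, zero_mul, zero_add, Pi.zero_apply]
  have h1 := LinearMap.finrank_le_finrank_of_injective hinj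
  rw [Module.finrank_pi, Fintype.card_sum, Fintype.card_coe] at h1
  omega

end Pool.Agent.Run7.h621.MP
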